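import Pool.Agent.Work.MP_3e8c7a_gg.Interface

/-! # Block ASG: assembly -/

set_option autoImplicit false

namespace Pool.GG

open Module Pool.Agent.MP3e8c7a Pool.Agent.MP3e8c7as Pool.RG

/-- the identity as an isomorphism -/
theorem ASG_id {B V : Type} [AddCommGroup B] [Module ℝ B] [AddCommGroup V] [Module ℝ V]
    (N : Seminorm ℝ V) (u v : B →ₗ[ℝ] V)
    (h : ∀ z, N (u z) ≤ 2 * N (v z) ∧ N (v z) ≤ 3 / 2 * N (u z)) :
    Iso 3 (N.comp u) (N.comp v) := by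
  have h1 := Iso.of_bounds (p := N.comp u) (r := N.comp v) (LinearEquiv.refl ℝ B)
    (A := 2) (B := 3 / 2) (by norm_num) (fun x => (h x).1) (fun x => (h x).2)
  norm_num at h1
  exact h1

/-- injectivity is preserved -/
theorem ASG_inj {B V : Type} [AddCommGroup B] [Module ℝ B] [AddCommGroup V] [Module ℝ V]
    (N : Seminorm ℝ V) (hN : Def N) (u v : B →ₗ[ℝ] V) (hu : Function.Injective u)
    (h : ∀ z, N (u z) ≤ 2 * N (v z)) : Function.Injective v := by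
  rw [← LinearMap.ker_eq_bot, LinearMap.ker_eq_bot']
  intro z hz
  have h1 := h z
  rw [hz, map_zero, mul_zero] at h1
  have h2 : N (u z) = 0 := le_antisymm h1 (apply_nonneg N _)
  have h3 := hN _ h2
  exact hu (by rw [h3, map_zero])

theorem p_ASG (hANG : Stmt_ANG) (hTLA : Stmt_TLA) (hTLB : Stmt_TLB) (hTLC : Stmt_TLC) :
    Stmt_ASG := by
  intro M
  obtain ⟨M', hM'⟩ : ∃ M', M' = M * (2 * M + 1) := ⟨_, rfl⟩
  have hMM' : M ≤ M' := by
    rw [hM']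
    nlinarith
  obtain ⟨A₁, hA₁, hg1⟩ := grd M
  obtain ⟨A₂, hA₂, hg2⟩ := grd M'
  obtain ⟨B₁, hB₁, hT1⟩ := hTLA M' A₂ hA₂
  obtain ⟨A₃, hA₃, hT2⟩ := hTLB M M' A₁ hMM' hA₁
  obtain ⟨D₁, hD₁, hT3⟩ := hTLC M A₃ B₁ (2 ^ M) hA₃ hB₁ (by positivity)
  obtain ⟨ν, hν⟩ := hANG M
  refine ⟨max 1 (D₁ * A₂), ν + M + 2 * M' + M' * (M' + 1) + 1, le_max_left _ _, ?_⟩
  intro V _ _ _ k p r b C₁ hb hC₁ hp hr hH hk i Ω hi hΩ hpos hnot
  -- a basis
  obtain ⟨e, he1, he2⟩ := bas M (Fin M → ℝ) (p.comp Ω) (hp.comp Ω hΩ) (Module.finrank_fin_fun ℝ)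
  set Ω' : (Fin M → ℝ) →ₗ[ℝ] V := Ω ∘ₗ (e.symm : (Fin M → ℝ) →ₗ[ℝ] (Fin M → ℝ)) with hΩ'
  have hΩa : ∀ ω, Ω' ω = Ω (e.symm ω) := fun ω => rfl
  have hΩ1 : ∀ ω, p (Ω' ω) ≤ ∑ l, |ω l| := by
    intro ω
    have h := he2 (e.symm ω)
    rw [LinearEquiv.apply_symm_apply] at h
    exact h
  have hΩ2 : ∀ ω, ‖ω‖ ≤ 2 ^ M * p (Ω' ω) := by
    intro ω
    have h := he1 (e.symm ω)
    rw [LinearEquiv.apply_symm_apply] at h
    exact h
  have hpos' : ∀ ω z, p (Ω' ω) ≤ C₁ * p (Ω' ω + i z) := fun ω z => hpos (e.symm ω) z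
  have hnot' : ¬ FacE (648 * b ^ 4 * C₁) (p.comp Ω') (p.comp i) := by
    rintro ⟨j, q, hqj, hj, hq⟩
    refine hnot ⟨j ∘ₗ (e : (Fin M → ℝ) →ₗ[ℝ] (Fin M → ℝ)),
      (e.symm : (Fin M → ℝ) →ₗ[ℝ] (Fin M → ℝ)) ∘ₗ q, fun a => ?_, fun a => ?_, fun x => ?_⟩
    · show e.symm (q (j (e a))) = a
      rw [hqj, LinearEquiv.symm_apply_apply]
    · have h := hj (e a)
      have h2 : (p.comp Ω') (e a) = (p.comp Ω) a := by
        show p (Ω (e.symm (e a))) = p (Ω a)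
        rw [LinearEquiv.symm_apply_apply]
      rw [h2] at h
      exact h
    · exact hq x
  -- the subspace
  obtain ⟨Φ, hEΦ, hΦ, hgood⟩ := hν V p C₁ hp hC₁ (LinearMap.range i) (LinearMap.range Ω')
    (by
      have := LinearMap.finrank_range_le Ω'
      rwa [Module.finrank_fin_fun] at this)
    (by
      rintro w ⟨ω, rfl⟩ x ⟨z, rfl⟩
      exact hpos' ω z)
  have hkΦ : k ≤ finrank ℝ Φ := by
    have h1 := Submodule.finrank_mono hEΦ
    rw [LinearMap.finrank_range_of_inj hi, Module.finrank_fin_fun] at h1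
    exact h1
  set i' : (Fin k → ℝ) →ₗ[ℝ] Φ := i.codRestrict Φ (fun z => hEΦ ⟨z, rfl⟩) with hi'
  have hi'a : ∀ z, ((i' z : Φ) : V) = i z := fun z => rfl
  have hi'inj : Function.Injective i' := by
    intro x y hxy
    apply hi
    rw [← hi'a, ← hi'a, hxy]
  set p' : Seminorm ℝ Φ := p.comp Φ.subtype with hp'
  set r' : Seminorm ℝ Φ := r.comp Φ.subtype with hr'
  have hp'a : ∀ x : Φ, p' x = p (x : V) := fun x => rfl
  have hr'a : ∀ x : Φ, r' x = r (x : V) := fun x => rfl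
  have hp'D : Def p' := hp.comp _ Subtype.val_injective
  have hr'D : Def r' := hr.comp _ Subtype.val_injective
  obtain ⟨ρ, W, a, F₁, hρ, hTop, hF₁, hF₁'⟩ := hg1 Φ p' r' hp'D hr'D (by omega)
  obtain ⟨ρ', Y, β₀, F₂, hρ', hTop', hF₂, hF₂'⟩ := hg2 Φ r' p' hr'D hp'D (by omega)
  rcases le_or_gt (ρ * ρ') (D₁ * A₂) with hle | hlt
  · refine ⟨(F₁ ⊓ F₂).map Φ.subtype, ρ, ?_, hρ, ?_⟩
    · have h1 := Submodule.finrank_sup_add_finrank_inf_eq F₁ F₂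
      have h2 := Submodule.finrank_le (F₁ ⊔ F₂)
      have h3 : finrank ℝ ((F₁ ⊓ F₂).map Φ.subtype) = finrank ℝ (F₁ ⊓ F₂ : Submodule ℝ Φ) :=
        Submodule.finrank_map_subtype_eq Φ (F₁ ⊓ F₂)
      rw [h3]
      omega
    · rintro y ⟨y', hy', rfl⟩
      have h1 := hF₁' y' hy'.1
      have h2 := hF₂' y' hy'.2
      rw [hp'a, hr'a] at h1 h2
      have hry : 0 ≤ ρ * r (y' : V) := mul_nonneg hρ.le (apply_nonneg r _)
      have hpy : 0 ≤ p (y' : V) := apply_nonneg p _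
      rw [Submodule.subtype_apply]
      constructor
      · have h3 : 1 * (ρ * r (y' : V)) ≤ max 1 (D₁ * A₂) * (ρ * r (y' : V)) :=
          mul_le_mul_of_nonneg_right (le_max_left _ _) hry
        linarith
      · have h3 : ρ * r (y' : V) ≤ ρ * (ρ' * p (y' : V)) := mul_le_mul_of_nonneg_left h2 hρ.le
        have h4 : ρ * ρ' * p (y' : V) ≤ max 1 (D₁ * A₂) * p (y' : V) :=
          mul_le_mul_of_nonneg_right (hle.trans (le_max_right _ _)) hpy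
        linarith
  · exfalso
    have hA₂0 : 0 < A₂ := by linarith
    obtain ⟨i₁, ξ, hi₁, hβξ, hpξ⟩ := hT1 Φ k p' i' β₀ Y hp'D hi'inj hTop'.aW hTop'.rW (by omega)
    have hi₁inj : Function.Injective i₁ := ASG_inj p' hp'D i' i₁ hi'inj fun z => (hi₁ z).1
    obtain ⟨i₂, ψ, U, hi₂, hi₂ξ, hψ, hψU, hrU⟩ := hT2 Φ k p' r' ρ W a i₁ ξ hp'D hr'D hρ hTop
      hi₁inj (by omega)
    have hi₂inj : Function.Injective i₂ := ASG_inj r' hr'D i₁ i₂ hi₁inj fun z => (hi₂ z).1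
    -- the extension of the functionals
    have hτ : 0 < A₂ / ρ' := div_pos hA₂0 hρ'
    have hext : ∀ l : Fin M', ∃ g : V →ₗ[ℝ] ℝ, (∀ x : Φ, g (x : V) = β₀ x l) ∧
        ∀ x, |g x| ≤ A₂ / ρ' * r x := by
      intro l
      obtain ⟨g, hg, hg'⟩ := exists_ext r Φ.subtype Subtype.val_injective hτ.le
        ((LinearMap.proj l : (Fin M' → ℝ) →ₗ[ℝ] ℝ) ∘ₗ β₀) (fun x => by
          rw [LinearMap.comp_apply, LinearMap.proj_apply]
          have h1 : |β₀ x l| ≤ ‖β₀ x‖ := norm_le_pi_norm (β₀ x) l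
          have h2 := hTop'.pa x
          rw [hr'a] at h2
          rw [div_mul_eq_mul_div, le_div_iff₀ hρ', Submodule.subtype_apply]
          have h3 := mul_le_mul_of_nonneg_left h1 hρ'.le
          linarith)
      exact ⟨g, fun x => hg x, hg'⟩
    choose g hg hg' using hext
    set β : V →ₗ[ℝ] (Fin M' → ℝ) := LinearMap.pi g with hβ
    have hβa : ∀ x : Φ, β (x : V) = β₀ x := fun x => funext fun l => hg l x
    have hβr : ∀ x, ‖β x‖ ≤ A₂ / ρ' * r x := by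
      intro x
      rw [pi_norm_le_iff_of_nonneg (mul_nonneg hτ.le (apply_nonneg r x))]
      exact fun l => hg' l x
    subst hM'
    obtain ⟨i₃, i₄, hi₃, hi₄, hfac⟩ := hT3 V k p r (2 * C₁) ρ (A₂ / ρ') (Φ.subtype ∘ₗ i₂) Ω' β ξ
      (ψ ∘ₗ i₂) U (by linarith) hρ hτ
      (fun ω z => hgood (Ω' ω) ⟨ω, rfl⟩ (i₂ z : V) (i₂ z).2) hΩ1 hΩ2 hβr
      (fun t => by
        show β ((i₂ (ξ t) : Φ) : V) = t
        rw [hβa, hi₂ξ, hβξ])
      (fun t => by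
        show p ((i₂ (ξ t) : Φ) : V) ≤ B₁ * ‖t‖
        rw [hi₂ξ]
        exact hpξ t)
      (fun z => hψ (i₂ z)) hψU hrU
      (by
        rw [mul_div_assoc', div_le_iff₀ hρ']
        linarith)
    have hb0 : 0 < b := by linarith
    have hI₁ : Function.Injective (Φ.subtype ∘ₗ i₁) := Subtype.val_injective.comp hi₁inj
    have hI₂ : Function.Injective (Φ.subtype ∘ₗ i₂) := Subtype.val_injective.comp hi₂inj
    have hI₃ : Function.Injective i₃ := ASG_inj p hp _ i₃ hI₂ fun z => (hi₃ z).1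
    have hI₄ : Function.Injective i₄ := ASG_inj r hr _ i₄ hI₃ fun z => (hi₄ z).1
    have hfr : finrank ℝ (Fin k → ℝ) = k := Module.finrank_fin_fun ℝ
    have c1 : Iso 3 (p.comp i) (p.comp (Φ.subtype ∘ₗ i₁)) := ASG_id p i (Φ.subtype ∘ₗ i₁) hi₁
    have c2 := hH.inj (Φ.subtype ∘ₗ i₁) hI₁ hfr
    have c3 : Iso 3 (r.comp (Φ.subtype ∘ₗ i₁)) (r.comp (Φ.subtype ∘ₗ i₂)) :=
      ASG_id r (Φ.subtype ∘ₗ i₁) (Φ.subtype ∘ₗ i₂) hi₂
    have c4 := (hH.inj (Φ.subtype ∘ₗ i₂) hI₂ hfr).symm hb0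
    have c5 : Iso 3 (p.comp (Φ.subtype ∘ₗ i₂)) (p.comp i₃) := ASG_id p _ i₃ hi₃
    have c6 := hH.inj i₃ hI₃ hfr
    have c7 : Iso 3 (r.comp i₃) (r.comp i₄) := ASG_id r i₃ i₄ hi₄
    have c8 := (hH.inj i₄ hI₄ hfr).symm hb0
    have c := ((((((c1.trans c2 hb0.le).trans c3 (by norm_num)).trans c4 hb0.le).trans c5
      (by norm_num)).trans c6 hb0.le).trans c7 (by norm_num)).trans c8 hb0.le
    obtain ⟨T, hT⟩ := c
    obtain ⟨j, q, hqj, hj, hq⟩ := hfac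
    refine hnot' ⟨(T.symm : (Fin k → ℝ) →ₗ[ℝ] (Fin k → ℝ)) ∘ₗ j,
      q ∘ₗ (T : (Fin k → ℝ) →ₗ[ℝ] (Fin k → ℝ)), fun ω => ?_, fun ω => ?_, fun x => ?_⟩
    · show q (T (T.symm (j ω))) = ω
      rw [LinearEquiv.apply_symm_apply, hqj]
    · have h1 := (hT (T.symm (j ω))).1
      rw [LinearEquiv.apply_symm_apply] at h1
      exact h1.trans (hj ω)
    · have h1 := hq (T x)
      have h2 := (hT x).2
      have h3 := mul_le_mul_of_nonneg_left h2 (show 0 ≤ 4 * (2 * C₁) by linarith)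
      calc (p.comp Ω') (q (T x)) ≤ 4 * (2 * C₁) * (p.comp i₄) (T x) := h1
        _ ≤ 4 * (2 * C₁) * (3 * b * 3 * b * 3 * b * 3 * b * (p.comp i) x) := h3
        _ = 648 * b ^ 4 * C₁ * (p.comp i) x := by ring

end Pool.GG
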