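import Pool.Agent.Work.MP_3e8c7a_gg.Interface

/-!
# Block TLA: the first tilt
-/

set_option autoImplicit false

namespace Pool.GG

open Module Pool.Agent.MP3e8c7a Pool.Agent.MP3e8c7as Pool.RG

theorem TLA_c1_nonneg (m : ℕ) : 0 ≤ c1 m := by
  unfold c1
  positivity

theorem TLA_sum_le {V : Type} [AddCommGroup V] [Module ℝ V] (p : Seminorm ℝ V) {m : ℕ}
    (x : Fin m → V) (B : ℝ) (h : ∀ l, p (x l) ≤ B) : p (∑ l, x l) ≤ m * B := by
  have h1 : p (∑ l, x l) ≤ ∑ l, p (x l) := by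
    refine Finset.le_sum_of_subadditive p (map_zero p).le (map_add_le_add p) _ _
  refine h1.trans ((Finset.sum_le_sum fun l _ => h l).trans ?_)
  rw [Finset.sum_const, Finset.card_univ, Fintype.card_fin, nsmul_eq_mul]

/-- Block TLA. -/
theorem p_TLA : Stmt_TLA := by
  intro m A hA
  have hA0 : 0 < A := by linarith
  have hc1 := TLA_c1_nonneg m
  refine ⟨3 * A * m * c1 m + 1, by positivity, ?_⟩
  intro V _ _ _ k p i β Y hp hinj hβY hY hk
  obtain ⟨κ, hκd⟩ : ∃ κ : ℝ, κ = 1 / (2 * A) := ⟨_, rfl⟩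
  have hκ0 : 0 < κ := by rw [hκd]; positivity
  have hκA : κ * A = 1 / 2 := by
    rw [hκd]
    field_simp
  have hκi : κ⁻¹ = 2 * A := by
    rw [hκd, one_div, inv_inv]
  have hG : finrank ℝ (⊥ : Submodule ℝ (Fin k → ℝ)) ≤ m := by
    rw [finrank_bot]
    exact Nat.zero_le _
  have hZ : m * (m + 1) ≤ finrank ℝ (LinearMap.ker (β ∘ₗ i)) := by
    have h1 := LinearMap.finrank_range_add_finrank_ker (β ∘ₗ i)
    have h2 := Submodule.finrank_le (LinearMap.range (β ∘ₗ i))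
    rw [Module.finrank_fin_fun] at h1 h2
    omega
  obtain ⟨ζ, η, hζ, hη, -, hηζ⟩ := bio m (Fin k → ℝ) (p.comp i) (hp.comp i hinj) _ _ hG hZ
  have hζβ : ∀ l, β (i (ζ l)) = 0 := fun l => (hζ l).1
  have hζp : ∀ l, p (i (ζ l)) ≤ c1 m := fun l => (hζ l).2
  have hηp : ∀ j z, |η j z| ≤ p (i z) := fun j z => hη j z
  set Ψ : (Fin k → ℝ) →ₗ[ℝ] V := κ • (Y ∘ₗ LinearMap.pi η) with hΨ
  have hΨa : ∀ z, Ψ z = κ • Y (fun j => η j z) := fun z => rfl
  have hΨp : ∀ z, p (Ψ z) ≤ 1 / 2 * p (i z) := by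
    intro z
    rw [hΨa, map_smul_eq_mul, Real.norm_eq_abs, abs_of_pos hκ0]
    have h1 := hY (fun j => η j z)
    have h2 : ‖(fun j => η j z : Fin m → ℝ)‖ ≤ p (i z) := by
      rw [pi_norm_le_iff_of_nonneg (apply_nonneg p _)]
      intro j
      rw [Real.norm_eq_abs]
      exact hηp j z
    have h3 := mul_le_mul_of_nonneg_left h2 hA0.le
    have h4 := mul_le_mul_of_nonneg_left (h1.trans h3) hκ0.le
    rw [← mul_assoc, hκA] at h4
    exact h4
  have hΨζ : ∀ l, Ψ (ζ l) = κ • Y (Pi.single l 1) := by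
    intro l
    rw [hΨa]
    congr 2
    funext j
    rw [hηζ]
    by_cases h : j = l
    · subst h
      rw [if_pos rfl, Pi.single_eq_same]
    · rw [if_neg h, Pi.single_eq_of_ne h]
  set i₁ : (Fin k → ℝ) →ₗ[ℝ] V := i + Ψ with hi₁
  have hi₁a : ∀ z, i₁ z = i z + Ψ z := fun z => rfl
  have hi₁p : ∀ z, p (i z) ≤ 2 * p (i₁ z) ∧ p (i₁ z) ≤ 3 / 2 * p (i z) := by
    intro z
    constructor
    · have h0 : i z = i₁ z - Ψ z := by rw [hi₁a]; abel
      have h1 := map_sub_le_add p (i₁ z) (Ψ z)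
      rw [← h0] at h1
      have h2 := hΨp z
      linarith
    · rw [hi₁a]
      have h1 := map_add_le_add p (i z) (Ψ z)
      have h2 := hΨp z
      linarith
  set ξ : (Fin m → ℝ) →ₗ[ℝ] (Fin k → ℝ) :=
    ∑ l, (LinearMap.proj l : (Fin m → ℝ) →ₗ[ℝ] ℝ).smulRight (κ⁻¹ • ζ l) with hξ
  have hξa : ∀ t, ξ t = ∑ l, t l • (κ⁻¹ • ζ l) := by
    intro t
    rw [hξ, LinearMap.sum_apply]
    rfl
  have hiξ : ∀ t, i₁ (ξ t) = ∑ l, t l • (κ⁻¹ • i₁ (ζ l)) := by
    intro t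
    rw [hξa, map_sum]
    refine Finset.sum_congr rfl fun l _ => ?_
    rw [map_smul, map_smul]
  refine ⟨i₁, ξ, hi₁p, ?_, ?_⟩
  · intro t
    rw [hiξ, map_sum]
    have h1 : ∀ l, β (t l • (κ⁻¹ • i₁ (ζ l))) = t l • (Pi.single l 1 : Fin m → ℝ) := by
      intro l
      rw [map_smul, map_smul, hi₁a, map_add, hζβ, zero_add, hΨζ, map_smul, hβY, smul_smul κ⁻¹ κ,
        inv_mul_cancel₀ hκ0.ne', one_smul]
    rw [Finset.sum_congr rfl fun l _ => h1 l]
    funext j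
    rw [Finset.sum_apply, Finset.sum_eq_single j]
    · simp
    · intro l _ hne
      rw [Pi.smul_apply, Pi.single_eq_of_ne (Ne.symm hne), smul_zero]
    · intro hn
      exact absurd (Finset.mem_univ j) hn
  · intro t
    rw [hiξ]
    have h0 : ∀ l, p (t l • (κ⁻¹ • i₁ (ζ l))) ≤ ‖t‖ * (κ⁻¹ * (3 / 2 * c1 m)) := by
      intro l
      rw [map_smul_eq_mul, map_smul_eq_mul, Real.norm_eq_abs, Real.norm_eq_abs,
        abs_of_pos (inv_pos.2 hκ0)]
      have h3 : p (i₁ (ζ l)) ≤ 3 / 2 * c1 m := by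
        have := (hi₁p (ζ l)).2
        have := hζp l
        linarith
      have h4 : |t l| ≤ ‖t‖ := by
        have := norm_le_pi_norm t l
        rwa [Real.norm_eq_abs] at this
      exact mul_le_mul h4 (mul_le_mul_of_nonneg_left h3 (inv_pos.2 hκ0).le)
        (mul_nonneg (inv_pos.2 hκ0).le (apply_nonneg p _)) (norm_nonneg t)
    refine (TLA_sum_le p _ _ h0).trans ?_
    rw [hκi]
    have h5 := norm_nonneg t
    have h6 : (m : ℝ) * (‖t‖ * (2 * A * (3 / 2 * c1 m))) =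
        3 * A * m * c1 m * ‖t‖ := by ring
    rw [h6]
    nlinarith

end Pool.GG
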