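import Pool.Agent.Work.MP_3e8c7a_gg.Interface

/-! Block TLB (helper98): the second tilt, vectors with `r` small and `p` large inside the section. -/

set_option autoImplicit false

namespace Pool.GG

open Module Pool.Agent.MP3e8c7a Pool.Agent.MP3e8c7as Pool.RG

theorem TLB_sum {V : Type} [AddCommGroup V] [Module ℝ V] (p : Seminorm ℝ V) {m : ℕ}
    (x : Fin m → V) (B : ℝ) (h : ∀ l, p (x l) ≤ B) : p (∑ l, x l) ≤ m * B := by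
  have h1 : p (∑ l, x l) ≤ ∑ l, p (x l) := by
    refine Finset.le_sum_of_subadditive p (map_zero p).le (map_add_le_add p) _ _
  refine h1.trans ((Finset.sum_le_sum fun l _ => h l).trans ?_)
  rw [Finset.sum_const, Finset.card_univ, Fintype.card_fin, nsmul_eq_mul]

/-- The case in which the section has large vectors itself. -/
theorem TLB_B {V : Type} [AddCommGroup V] [Module ℝ V] {M k : ℕ} (p r : Seminorm ℝ V)
    (i : (Fin k → ℝ) →ₗ[ℝ] V) (hi : Function.Injective i) (A₀ ρ₀ δ ρ : ℝ) (hA₀ : 1 ≤ A₀)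
    (hρ₀ : 0 < ρ₀) (hδ : 0 < δ) (hle : δ * ρ ≤ ρ₀)
    (W₀ : (Fin M → ℝ) →ₗ[ℝ] (Fin k → ℝ)) (a₀ : (Fin k → ℝ) →ₗ[ℝ] (Fin M → ℝ))
    (hT : Pool.RX.Top M A₀ ρ₀ (p.comp i) (r.comp i) W₀ a₀) :
    ∃ (ψ : V →ₗ[ℝ] (Fin M → ℝ)) (U : (Fin M → ℝ) →ₗ[ℝ] (Fin k → ℝ)), (∀ x, ‖ψ x‖ ≤ p x) ∧
      (∀ ω, ψ (i (U ω)) = ω) ∧ ∀ ω, ρ * r (i (U ω)) ≤ A₀ ^ 2 / δ * ‖ω‖ := by
  have hA0 : 0 < A₀ := by linarith
  have h1 : ∀ l : Fin M, ∃ g : V →ₗ[ℝ] ℝ, (∀ z, g (i z) = ρ₀ / A₀ * a₀ z l) ∧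
      ∀ x, |g x| ≤ 1 * p x := by
    intro l
    refine exists_ext p i hi zero_le_one
      ((ρ₀ / A₀) • ((LinearMap.proj l) ∘ₗ a₀)) (fun z => ?_)
    have h2 : ρ₀ * ‖a₀ z‖ ≤ A₀ * p (i z) := hT.pa z
    have h3 : |a₀ z l| ≤ ‖a₀ z‖ := norm_le_pi_norm (a₀ z) l
    have h4 : ((ρ₀ / A₀) • ((LinearMap.proj l : (Fin M → ℝ) →ₗ[ℝ] ℝ) ∘ₗ a₀)) z =
        ρ₀ / A₀ * a₀ z l := rfl
    rw [h4, abs_mul, abs_of_pos (by positivity), one_mul, div_mul_eq_mul_div, div_le_iff₀ hA0]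
    have h5 := mul_le_mul_of_nonneg_left h3 hρ₀.le
    linarith
  choose g hg1 hg2 using h1
  refine ⟨LinearMap.pi g, (A₀ / ρ₀) • W₀, fun x => ?_, fun ω => ?_, fun ω => ?_⟩
  · rw [pi_norm_le_iff_of_nonneg (apply_nonneg p x)]
    intro l
    have := hg2 l x
    rw [one_mul] at this
    exact this
  · funext l
    have h2 : (LinearMap.pi g) (i (((A₀ / ρ₀) • W₀) ω)) l = g l (i (((A₀ / ρ₀) • W₀) ω)) := rfl
    have h3 : ((A₀ / ρ₀) • W₀) ω = (A₀ / ρ₀) • W₀ ω := rfl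
    rw [h2, hg1, h3, map_smul, hT.aW, Pi.smul_apply, smul_eq_mul]
    field_simp
  · have h3 : ((A₀ / ρ₀) • W₀) ω = (A₀ / ρ₀) • W₀ ω := rfl
    have h4 : r (i (W₀ ω)) ≤ A₀ * ‖ω‖ := hT.rW ω
    rw [h3, map_smul, map_smul_eq_mul, Real.norm_eq_abs, abs_of_pos (by positivity)]
    have h5 : ρ * (A₀ / ρ₀) ≤ A₀ / δ := by
      rw [mul_div_assoc', div_le_div_iff₀ hρ₀ hδ]
      have h6 := mul_le_mul_of_nonneg_left hle hA0.le
      linarith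
    calc ρ * (A₀ / ρ₀ * r (i (W₀ ω))) = ρ * (A₀ / ρ₀) * r (i (W₀ ω)) := by ring
      _ ≤ A₀ / δ * (A₀ * ‖ω‖) := mul_le_mul h5 h4 (apply_nonneg r _) (by positivity)
      _ = A₀ ^ 2 / δ * ‖ω‖ := by ring

/-- The case in which `W` is tilted into the section. -/
theorem TLB_A {V : Type} [AddCommGroup V] [Module ℝ V] {M k M' : ℕ} (p r : Seminorm ℝ V)
    (i : (Fin k → ℝ) →ₗ[ℝ] V) (A ρ ρ₀ c δ : ℝ) (hA : 1 ≤ A) (hρ : 0 < ρ) (hρ₀ : 0 < ρ₀)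
    (hc : 0 ≤ c) (hδ : δ = 1 / (4 * A ^ 2 * (M * c + 1))) (hlt : ρ₀ < δ * ρ)
    (W : (Fin M → ℝ) →ₗ[ℝ] V) (a : V →ₗ[ℝ] (Fin M → ℝ)) (hT : Pool.RX.Top M A ρ p r W a)
    (ξ : (Fin M' → ℝ) →ₗ[ℝ] (Fin k → ℝ)) (F₀ : Submodule ℝ (Fin k → ℝ))
    (hF : ∀ z ∈ F₀, p (i z) ≤ ρ₀ * r (i z)) (h : Fin M → (Fin k → ℝ))
    (η : Fin M → ((Fin k → ℝ) →ₗ[ℝ] ℝ)) (hh : ∀ l, h l ∈ F₀) (hhr : ∀ l, r (i (h l)) ≤ c)
    (hη : ∀ j z, |η j z| ≤ r (i z)) (hηξ : ∀ j t, η j (ξ t) = 0)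
    (hηh : ∀ j l, η j (h l) = if j = l then 1 else 0) :
    ∃ (i₂ : (Fin k → ℝ) →ₗ[ℝ] V) (ψ : V →ₗ[ℝ] (Fin M → ℝ))
      (U : (Fin M → ℝ) →ₗ[ℝ] (Fin k → ℝ)),
      (∀ z, r (i z) ≤ 2 * r (i₂ z) ∧ r (i₂ z) ≤ 3 / 2 * r (i z)) ∧
      (∀ t, i₂ (ξ t) = i (ξ t)) ∧ (∀ x, ‖ψ x‖ ≤ p x) ∧
      (∀ ω, ψ (i₂ (U ω)) = ω) ∧ ∀ ω, ρ * r (i₂ (U ω)) ≤ 6 * A ^ 2 * M * c * ‖ω‖ := by
  have hA0 : 0 < A := by linarith
  have hM0 : (0 : ℝ) ≤ M := Nat.cast_nonneg M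
  have hMc : 0 ≤ M * c := mul_nonneg hM0 hc
  obtain ⟨κ, hκ⟩ : ∃ κ : ℝ, κ = 1 / (2 * A) := ⟨_, rfl⟩
  have hκ0 : 0 < κ := by rw [hκ]; positivity
  have hκA : κ * A = 1 / 2 := by rw [hκ]; field_simp
  obtain ⟨E, hE⟩ : ∃ E : (Fin k → ℝ) →ₗ[ℝ] (Fin M → ℝ), ∀ z l, E z l = η l z :=
    ⟨LinearMap.pi η, fun _ _ => rfl⟩
  have hEn : ∀ z, ‖E z‖ ≤ r (i z) := by
    intro z
    rw [pi_norm_le_iff_of_nonneg (apply_nonneg r _)]
    intro l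
    rw [hE]
    exact hη l z
  obtain ⟨i₂, hi₂⟩ : ∃ i₂ : (Fin k → ℝ) →ₗ[ℝ] V, ∀ z, i₂ z = i z + κ • W (E z) :=
    ⟨i + κ • (W ∘ₗ E), fun _ => rfl⟩
  have hΨ : ∀ z, r (κ • W (E z)) ≤ 1 / 2 * r (i z) := by
    intro z
    rw [map_smul_eq_mul, Real.norm_eq_abs, abs_of_pos hκ0, ← hκA, mul_assoc]
    exact mul_le_mul_of_nonneg_left ((hT.rW _).trans (mul_le_mul_of_nonneg_left (hEn z) hA0.le))
      hκ0.le
  have hup : ∀ z, r (i₂ z) ≤ 3 / 2 * r (i z) := by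
    intro z
    rw [hi₂]
    have h1 := map_add_le_add r (i z) (κ • W (E z))
    have h2 := hΨ z
    linarith
  have hlow : ∀ z, r (i z) ≤ 2 * r (i₂ z) := by
    intro z
    have h0 : i z = i₂ z - κ • W (E z) := by rw [hi₂]; abel
    have h1 := map_sub_le_add r (i₂ z) (κ • W (E z))
    rw [← h0] at h1
    have h2 := hΨ z
    linarith
  obtain ⟨H, hH⟩ : ∃ H : (Fin M → ℝ) →ₗ[ℝ] (Fin k → ℝ), ∀ ω, H ω = ∑ l, ω l • h l :=
    ⟨∑ l, (LinearMap.proj l : (Fin M → ℝ) →ₗ[ℝ] ℝ).smulRight (h l), fun ω => by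
      rw [LinearMap.sum_apply]; rfl⟩
  have hEH : ∀ ω, E (H ω) = ω := by
    intro ω
    funext j
    rw [hE, hH, map_sum, Finset.sum_eq_single j]
    · rw [map_smul, hηh, if_pos rfl, smul_eq_mul, mul_one]
    · intro l _ hne
      rw [map_smul, hηh, if_neg (Ne.symm hne), smul_zero]
    · intro hn
      exact absurd (Finset.mem_univ j) hn
  have hHF : ∀ ω, H ω ∈ F₀ := by
    intro ω
    rw [hH]
    exact Submodule.sum_mem _ fun l _ => Submodule.smul_mem _ _ (hh l)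
  have hHr : ∀ ω, r (i (H ω)) ≤ M * c * ‖ω‖ := by
    intro ω
    rw [hH, map_sum]
    refine (TLB_sum r _ (‖ω‖ * c) fun l => ?_).trans (le_of_eq (by ring))
    rw [map_smul, map_smul_eq_mul]
    exact mul_le_mul (norm_le_pi_norm ω l) (hhr l) (apply_nonneg r _) (norm_nonneg ω)
  obtain ⟨J, hJ⟩ : ∃ J : (Fin M → ℝ) →ₗ[ℝ] (Fin M → ℝ), ∀ ω, J ω = a (i₂ (H ω)) :=
    ⟨a ∘ₗ i₂ ∘ₗ H, fun _ => rfl⟩
  have hJ2 : ∀ ω, J ω = a (i (H ω)) + κ • ω := by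
    intro ω
    rw [hJ, hi₂, map_add, map_smul, hT.aW, hEH]
  have hsm : ∀ ω, ‖a (i (H ω))‖ ≤ κ / 2 * ‖ω‖ := by
    intro ω
    have h1 := hT.pa (i (H ω))
    have h2 := hF (H ω) (hHF ω)
    have h3 := hHr ω
    have hn := norm_nonneg ω
    have h4 : p (i (H ω)) ≤ δ * ρ * (M * c * ‖ω‖) :=
      h2.trans (mul_le_mul hlt.le h3 (apply_nonneg r _) (by linarith))
    have h5 : A * δ * (M * c) ≤ κ / 2 := by
      rw [hδ, hκ]
      have h6 : A * (1 / (4 * A ^ 2 * (M * c + 1))) * (M * c) =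
          1 / (2 * A) / 2 * (M * c / (M * c + 1)) := by
        have : M * c + 1 ≠ 0 := by positivity
        field_simp
        ring
      rw [h6]
      have h7 : M * c / (M * c + 1) ≤ 1 := by
        rw [div_le_one (by positivity)]
        linarith
      exact mul_le_of_le_one_right (by positivity) h7
    have h6 : ρ * ‖a (i (H ω))‖ ≤ ρ * (κ / 2 * ‖ω‖) := by
      calc ρ * ‖a (i (H ω))‖ ≤ A * p (i (H ω)) := h1
        _ ≤ A * (δ * ρ * (M * c * ‖ω‖)) := mul_le_mul_of_nonneg_left h4 hA0.le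
        _ = ρ * (A * δ * (M * c) * ‖ω‖) := by ring
        _ ≤ ρ * (κ / 2 * ‖ω‖) :=
          mul_le_mul_of_nonneg_left (mul_le_mul_of_nonneg_right h5 hn) hρ.le
    exact le_of_mul_le_mul_left h6 hρ
  have hJl : ∀ ω, κ / 2 * ‖ω‖ ≤ ‖J ω‖ := by
    intro ω
    have h1 : κ • ω = J ω - a (i (H ω)) := by rw [hJ2]; abel
    have h2 : ‖κ • ω‖ ≤ ‖J ω‖ + ‖a (i (H ω))‖ := by
      rw [h1]
      exact norm_sub_le _ _
    rw [norm_smul, Real.norm_eq_abs, abs_of_pos hκ0] at h2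
    have h3 := hsm ω
    linarith
  have hJi : Function.Injective J := by
    rw [injective_iff_map_eq_zero]
    intro ω h0
    have h1 := hJl ω
    rw [h0, norm_zero] at h1
    have h2 : ‖ω‖ ≤ 0 := by
      by_contra hcon
      push Not at hcon
      have := mul_pos (half_pos hκ0) hcon
      linarith
    exact norm_le_zero_iff.1 h2
  obtain ⟨Ji, hJi1⟩ : ∃ Ji : (Fin M → ℝ) →ₗ[ℝ] (Fin M → ℝ), ∀ ω, J (Ji ω) = ω :=
    ⟨((LinearEquiv.ofInjectiveEndo J hJi).symm : (Fin M → ℝ) →ₗ[ℝ] (Fin M → ℝ)), fun ω =>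
      (LinearEquiv.ofInjectiveEndo J hJi).apply_symm_apply ω⟩
  have hJin : ∀ ω, ‖Ji ω‖ ≤ 4 * A * ‖ω‖ := by
    intro ω
    have h1 := hJl (Ji ω)
    rw [hJi1] at h1
    have h2 : κ / 2 * (4 * A) = 1 := by
      rw [hκ]
      field_simp
      norm_num
    have h3 : κ / 2 * ‖Ji ω‖ ≤ κ / 2 * (4 * A * ‖ω‖) := by
      rw [← mul_assoc (κ / 2), h2, one_mul]
      exact h1
    exact le_of_mul_le_mul_left h3 (half_pos hκ0)
  refine ⟨i₂, (ρ / A) • a, (A / ρ) • (H ∘ₗ Ji), fun z => ⟨hlow z, hup z⟩, fun t => ?_,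
    fun x => ?_, fun ω => ?_, fun ω => ?_⟩
  · have h1 : E (ξ t) = 0 := by
      funext j
      rw [hE, hηξ]
      rfl
    rw [hi₂, h1, map_zero, smul_zero, add_zero]
  · have h1 : ((ρ / A) • a) x = (ρ / A) • a x := rfl
    rw [h1, norm_smul, Real.norm_eq_abs, abs_of_pos (by positivity), div_mul_eq_mul_div,
      div_le_iff₀ hA0]
    have := hT.pa x
    linarith
  · have h1 : ((A / ρ) • (H ∘ₗ Ji)) ω = (A / ρ) • H (Ji ω) := rfl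
    have h2 : ((ρ / A) • a) (i₂ ((A / ρ) • H (Ji ω))) =
        (ρ / A) • a (i₂ ((A / ρ) • H (Ji ω))) := rfl
    rw [h1, h2, map_smul, map_smul, ← hJ, hJi1, smul_smul]
    have h3 : ρ / A * (A / ρ) = 1 := by field_simp
    rw [h3, one_smul]
  · have h1 : ((A / ρ) • (H ∘ₗ Ji)) ω = (A / ρ) • H (Ji ω) := rfl
    have h2 := hup ((A / ρ) • H (Ji ω))
    rw [map_smul i, map_smul_eq_mul, Real.norm_eq_abs, abs_of_pos (by positivity)] at h2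
    have h3 := hHr (Ji ω)
    have h4 := mul_le_mul_of_nonneg_left (hJin ω) hMc
    rw [h1]
    calc ρ * r (i₂ ((A / ρ) • H (Ji ω))) ≤ ρ * (3 / 2 * (A / ρ * r (i (H (Ji ω))))) :=
          mul_le_mul_of_nonneg_left h2 hρ.le
      _ = 3 / 2 * A * r (i (H (Ji ω))) := by field_simp
      _ ≤ 3 / 2 * A * (M * c * (4 * A * ‖ω‖)) :=
          mul_le_mul_of_nonneg_left (h3.trans h4) (by positivity)
      _ = 6 * A ^ 2 * M * c * ‖ω‖ := by ring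

theorem p_TLB : Stmt_TLB := by
  intro M M' A hMM hA
  obtain ⟨A₀, hA₀, hgrd⟩ := grd M
  have hA0 : 0 < A := by linarith
  have hA00 : 0 < A₀ := by linarith
  have hc : 0 ≤ c1 M' := by
    unfold c1
    positivity
  have hM0 : (0 : ℝ) ≤ M := Nat.cast_nonneg M
  obtain ⟨δ, hδ⟩ : ∃ δ : ℝ, δ = 1 / (4 * A ^ 2 * (M * c1 M' + 1)) := ⟨_, rfl⟩
  have hδ0 : 0 < δ := by
    rw [hδ]
    positivity
  have e1 : 0 ≤ A₀ ^ 2 / δ := by positivity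
  have e2 : 0 ≤ 6 * A ^ 2 * M * c1 M' := by positivity
  refine ⟨A₀ ^ 2 / δ + 6 * A ^ 2 * M * c1 M' + 1, by linarith, ?_⟩
  intro V _ _ _ k p r ρ W a i ξ hp hr hρ hT hi hk
  obtain ⟨ρ₀, W₀, a₀, F₀, hρ₀, hT₀, hF₀, hF⟩ := hgrd (Fin k → ℝ) (p.comp i) (r.comp i)
    (hp.comp i hi) (hr.comp i hi) (by rw [Module.finrank_fin_fun]; omega)
  rcases le_or_gt (δ * ρ) ρ₀ with hcase | hcase
  · obtain ⟨ψ, U, h1, h2, h3⟩ := TLB_B p r i hi A₀ ρ₀ δ ρ hA₀ hρ₀ hδ0 hcase W₀ a₀ hT₀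
    refine ⟨i, ψ, U, fun z => ?_, fun t => rfl, h1, h2, fun ω => (h3 ω).trans ?_⟩
    · have := apply_nonneg r (i z)
      constructor <;> linarith
    · refine mul_le_mul_of_nonneg_right ?_ (norm_nonneg ω)
      linarith
  · have hG : finrank ℝ (LinearMap.range ξ) ≤ M' := by
      have h1 := LinearMap.finrank_range_le ξ
      rw [Module.finrank_fin_fun] at h1
      exact h1
    have hZ : M' * (M' + 1) ≤ finrank ℝ F₀ := by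
      rw [Module.finrank_fin_fun] at hF₀
      omega
    obtain ⟨h, η, hh, hη, hηG, hηh⟩ := bio M' (Fin k → ℝ) (r.comp i) (hr.comp i hi) _ _ hG hZ
    obtain ⟨i₂, ψ, U, h1, h2, h3, h4, h5⟩ := TLB_A p r i A ρ ρ₀ (c1 M') δ hA hρ hρ₀ hc hδ hcase
      W a hT ξ F₀ hF (fun l => h (Fin.castLE hMM l)) (fun l => η (Fin.castLE hMM l))
      (fun l => (hh _).1) (fun l => (hh _).2) (fun j z => hη _ z)
      (fun j t => hηG _ _ ⟨t, rfl⟩) (fun j l => by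
        rw [hηh]
        by_cases hjl : j = l
        · rw [if_pos (congrArg _ hjl), if_pos hjl]
        · rw [if_neg (fun he => hjl (Fin.castLE_injective hMM he)), if_neg hjl])
    refine ⟨i₂, ψ, U, h1, h2, h3, h4, fun ω => (h5 ω).trans ?_⟩
    refine mul_le_mul_of_nonneg_right ?_ (norm_nonneg ω)
    linarith

end Pool.GG
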