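import Pool.Agent.Work.MP_3e8c7a_gg.Interface

/-!
# Block TLC (helper10): third and fourth tilt
-/

set_option autoImplicit false

namespace Pool.GG

open Module Pool.Agent.MP3e8c7a Pool.Agent.MP3e8c7as Pool.RG

/-- the combinations with coefficients `c` -/
noncomputable def TLC_G {M N : ℕ} (c : Fin M → Fin N → ℝ) : (Fin N → ℝ) →ₗ[ℝ] (Fin M → ℝ) :=
  LinearMap.pi fun l => ∑ u, c l u • LinearMap.proj u

theorem TLC_G_apply {M N : ℕ} (c : Fin M → Fin N → ℝ) (t : Fin N → ℝ) (l : Fin M) :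
    TLC_G c t l = ∑ u, c l u * t u := by
  simp [TLC_G, LinearMap.sum_apply]

/-- the combinations of the sign vectors -/
noncomputable def TLC_H {M N : ℕ} (c : Fin M → Fin N → ℝ) : (Fin M → ℝ) →ₗ[ℝ] (Fin N → ℝ) :=
  LinearMap.pi fun u => ∑ l, ((SignType.sign (c l u) : SignType) : ℝ) • LinearMap.proj l

theorem TLC_H_apply {M N : ℕ} (c : Fin M → Fin N → ℝ) (t : Fin M → ℝ) (u : Fin N) :
    TLC_H c t u = ∑ l, ((SignType.sign (c l u) : SignType) : ℝ) * t l := by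
  simp [TLC_H, LinearMap.sum_apply]

theorem TLC_G_norm {M N : ℕ} (c : Fin M → Fin N → ℝ) (hc : Nrm c) (t : Fin N → ℝ) :
    ‖TLC_G c t‖ ≤ ‖t‖ := by
  rw [pi_norm_le_iff_of_nonneg (norm_nonneg _)]
  intro l
  rw [TLC_G_apply, Real.norm_eq_abs]
  calc |∑ u, c l u * t u| ≤ ∑ u, |c l u * t u| := Finset.abs_sum_le_sum_abs _ _
    _ ≤ ∑ u, |c l u| * ‖t‖ := by
        refine Finset.sum_le_sum fun u _ => ?_
        rw [abs_mul]
        exact mul_le_mul_of_nonneg_left (norm_le_pi_norm t u) (abs_nonneg _)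
    _ = ‖t‖ := by rw [← Finset.sum_mul, hc.one, one_mul]

theorem TLC_H_one {M N : ℕ} (c : Fin M → Fin N → ℝ) (hc : Nrm c) (t : Fin M → ℝ) (u : Fin N)
    (l : Fin M) (hl : c l u ≠ 0) : TLC_H c t u = ((SignType.sign (c l u) : SignType) : ℝ) * t l := by
  rw [TLC_H_apply, Finset.sum_eq_single l]
  · intro l' _ h
    have h0 : c l' u = 0 := (hc.dis l' l u h).resolve_right hl
    rw [h0, sign_zero, SignType.coe_zero, zero_mul]
  · intro h
    exact absurd (Finset.mem_univ _) h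

theorem TLC_H_norm {M N : ℕ} (c : Fin M → Fin N → ℝ) (hc : Nrm c) (t : Fin M → ℝ) :
    ‖TLC_H c t‖ ≤ ‖t‖ := by
  rw [pi_norm_le_iff_of_nonneg (norm_nonneg _)]
  intro u
  rw [Real.norm_eq_abs]
  by_cases h : ∃ l, c l u ≠ 0
  · obtain ⟨l, hl⟩ := h
    rw [TLC_H_one c hc t u l hl, abs_mul]
    have h1 : |((SignType.sign (c l u) : SignType) : ℝ)| ≤ 1 := by
      rcases lt_trichotomy (c l u) 0 with h2 | h2 | h2
      · rw [sign_neg h2]; simp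
      · rw [h2]; simp
      · rw [sign_pos h2]; simp
    calc |((SignType.sign (c l u) : SignType) : ℝ)| * |t l| ≤ 1 * |t l| :=
          mul_le_mul_of_nonneg_right h1 (abs_nonneg _)
      _ = ‖t l‖ := by rw [one_mul, Real.norm_eq_abs]
      _ ≤ ‖t‖ := norm_le_pi_norm t l
  · push Not at h
    rw [TLC_H_apply, Finset.sum_eq_zero, abs_zero]
    · exact norm_nonneg _
    · intro l _
      rw [h l, sign_zero, SignType.coe_zero, zero_mul]

theorem TLC_GH {M N : ℕ} (c : Fin M → Fin N → ℝ) (hc : Nrm c) (t : Fin M → ℝ) :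
    TLC_G c (TLC_H c t) = t := by
  funext l
  rw [TLC_G_apply]
  have h1 : ∀ u, c l u * TLC_H c t u = |c l u| * t l := by
    intro u
    by_cases h : c l u = 0
    · rw [h, zero_mul, abs_zero, zero_mul]
    · rw [TLC_H_one c hc t u l h, ← mul_assoc, self_mul_sign]
  rw [Finset.sum_congr rfl fun u _ => h1 u, ← Finset.sum_mul, hc.one, one_mul]

theorem TLC_sum1 {M : ℕ} (ω : Fin M → ℝ) : ∑ l, |ω l| ≤ M * ‖ω‖ := by
  calc ∑ l, |ω l| ≤ ∑ _l : Fin M, ‖ω‖ := by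
        refine Finset.sum_le_sum fun l _ => ?_
        rw [← Real.norm_eq_abs]
        exact norm_le_pi_norm ω l
    _ = M * ‖ω‖ := by rw [Finset.sum_const, Finset.card_univ, Fintype.card_fin, nsmul_eq_mul]

theorem TLC_lin {M N : ℕ} (c : Fin M → Fin N → ℝ) (F : (Fin M → ℝ) →ₗ[ℝ] (Fin N → ℝ))
    (h : ∀ l m, ∑ t, c m t * F (Pi.single l 1) t = 0) (ω : Fin M → ℝ) : TLC_G c (F ω) = 0 := by
  have h1 : ω = ∑ l, ω l • (Pi.single l (1 : ℝ) : Fin M → ℝ) := by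
    funext j
    rw [Finset.sum_apply, Finset.sum_eq_single j]
    · simp
    · intro l _ hl
      rw [Pi.smul_apply, Pi.single_eq_of_ne hl.symm, smul_zero]
    · intro h
      exact absurd (Finset.mem_univ _) h
  have h2 : F ω = ∑ l, ω l • F (Pi.single l 1) := by
    conv_lhs => rw [h1]
    simp only [map_sum, map_smul]
  rw [h2, map_sum]
  refine Finset.sum_eq_zero fun l _ => ?_
  rw [map_smul]
  have h3 : TLC_G c (F (Pi.single l 1)) = 0 := by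
    funext m
    rw [TLC_G_apply]
    exact h l m
  rw [h3, smul_zero]

theorem p_TLC : Stmt_TLC := by
  intro M A₃ B L hA hB hL
  have hM : (0 : ℝ) < (M : ℝ) + 1 := by positivity
  have hA0 : 0 < A₃ := by linarith
  refine ⟨6 * A₃ * (M + 1) * B * L, by positivity, ?_⟩
  intro V _ _ _ k p r C ρ τ i₂ Ω β ξ θ U hC hρ hτ hpos hΩ1 hΩL hβ hβξ hξ hθ hθU hU hD
  have hC0 : 0 < C := by linarith
  -- (0) the block trick
  obtain ⟨c, hc, hc0⟩ := kil ((Fin M → ℝ) × (Fin M → ℝ)) M (2 * M + 1) (M * (2 * M + 1))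
    (fun t => (fun l => β (Ω (Pi.single l 1)) t, fun l => β (i₂ (U (Pi.single l 1))) t))
    (by rw [Module.finrank_prod, finrank_fin_fun]; omega) le_rfl
  have hk1 : ∀ ω, TLC_G c (β (Ω ω)) = 0 := by
    refine TLC_lin c (β ∘ₗ Ω) ?_
    intro l m
    have h4 := congrFun (congrArg Prod.fst (hc0 m)) l
    rw [Prod.fst_sum, Finset.sum_apply] at h4
    exact h4
  have hk2 : ∀ ω, TLC_G c (β (i₂ (U ω))) = 0 := by
    refine TLC_lin c (β ∘ₗ i₂ ∘ₗ U) ?_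
    intro l m
    have h4 := congrFun (congrArg Prod.snd (hc0 m)) l
    rw [Prod.snd_sum, Finset.sum_apply] at h4
    exact h4
  -- (1) the third tilt
  obtain ⟨ε, hε⟩ : ∃ ε : ℝ, ε = 1 / (2 * (M + 1)) := ⟨_, rfl⟩
  have hε0 : 0 < ε := by rw [hε]; positivity
  have hεM : ε * M ≤ 1 / 2 := by
    rw [hε, one_div_mul_eq_div, div_le_div_iff₀ (by positivity) (by norm_num)]
    linarith
  let i₃ : (Fin k → ℝ) →ₗ[ℝ] V := i₂ - ε • (Ω ∘ₗ θ)
  have hi₃ : ∀ z, i₃ z = i₂ z - ε • Ω (θ z) := fun z => rfl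
  have hpt : ∀ z, p (ε • Ω (θ z)) ≤ 1 / 2 * p (i₂ z) := by
    intro z
    rw [map_smul_eq_mul, Real.norm_eq_abs, abs_of_pos hε0]
    have h1 : p (Ω (θ z)) ≤ M * p (i₂ z) :=
      (hΩ1 _).trans ((TLC_sum1 _).trans (mul_le_mul_of_nonneg_left (hθ z) (Nat.cast_nonneg M)))
    calc ε * p (Ω (θ z)) ≤ ε * (M * p (i₂ z)) := mul_le_mul_of_nonneg_left h1 hε0.le
      _ = ε * M * p (i₂ z) := by ring
      _ ≤ 1 / 2 * p (i₂ z) := mul_le_mul_of_nonneg_right hεM (apply_nonneg p _)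
  have hup3 : ∀ z, p (i₃ z) ≤ 3 / 2 * p (i₂ z) := by
    intro z
    have h1 := map_sub_le_add p (i₂ z) (ε • Ω (θ z))
    rw [← hi₃] at h1
    have h2 := hpt z
    linarith
  have hlow3 : ∀ z, p (i₂ z) ≤ 2 * p (i₃ z) := by
    intro z
    have h0 : i₂ z = i₃ z + ε • Ω (θ z) := by rw [hi₃]; abel
    have h1 := map_add_le_add p (i₃ z) (ε • Ω (θ z))
    rw [← h0] at h1
    have h2 := hpt z
    linarith
  -- the position
  have hpos3 : ∀ ω z, p (Ω ω) ≤ 2 * C * p (Ω ω + i₃ z) := by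
    intro ω z
    have h0 : Ω ω + i₃ z = Ω (ω - ε • θ z) + i₂ z := by
      rw [hi₃, map_sub, map_smul]
      abel
    have h1 := hpos (ω - ε • θ z) z
    rw [← h0] at h1
    have h2 : p (i₂ z) ≤ p (Ω ω + i₃ z) + p (Ω (ω - ε • θ z)) := by
      have h3 := map_sub_le_add p (Ω ω + i₃ z) (Ω (ω - ε • θ z))
      have h4 : Ω ω + i₃ z - Ω (ω - ε • θ z) = i₂ z := by rw [h0]; abel
      rwa [h4] at h3
    have h5 : p (Ω ω) ≤ p (Ω (ω - ε • θ z)) + p (ε • Ω (θ z)) := by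
      have h3 := map_add_le_add p (Ω (ω - ε • θ z)) (ε • Ω (θ z))
      have h4 : Ω (ω - ε • θ z) + ε • Ω (θ z) = Ω ω := by
        rw [map_sub, map_smul]; abel
      rwa [h4] at h3
    have h6 := hpt z
    have h7 : p (Ω ω + i₃ z) ≤ C * p (Ω ω + i₃ z) := by
      have := mul_le_mul_of_nonneg_right hC (apply_nonneg p (Ω ω + i₃ z))
      linarith
    linarith
  have hi₃U : ∀ ω, i₃ (U ω) = i₂ (U ω) - ε • Ω ω := by
    intro ω
    rw [hi₃, hθU]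
  -- (2) the functionals
  let u : (Fin k → ℝ) →ₗ[ℝ] (Fin M → ℝ) := TLC_G c ∘ₗ β ∘ₗ i₃
  have huz : ∀ z, u z = TLC_G c (β (i₃ z)) := fun z => rfl
  have huz2 : ∀ z, u z = TLC_G c (β (i₂ z)) := by
    intro z
    rw [huz, hi₃, map_sub, map_sub, map_smul, map_smul, hk1, smul_zero, sub_zero]
  let ξ' : (Fin M → ℝ) →ₗ[ℝ] (Fin k → ℝ) := ξ ∘ₗ TLC_H c
  have hξ'a : ∀ t, ξ' t = ξ (TLC_H c t) := fun t => rfl
  have huξ : ∀ t, u (ξ' t) = t := by
    intro t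
    rw [huz2, hξ'a, hβξ, TLC_GH c hc]
  have hun : ∀ z, ‖u z‖ ≤ τ * r (i₃ z) := by
    intro z
    rw [huz]
    exact (TLC_G_norm c hc _).trans (hβ _)
  have hξ'n : ∀ t, p (i₃ (ξ' t)) ≤ 3 / 2 * (B * ‖t‖) := by
    intro t
    refine (hup3 _).trans (mul_le_mul_of_nonneg_left ?_ (by norm_num))
    rw [hξ'a]
    exact (hξ _).trans (mul_le_mul_of_nonneg_left (TLC_H_norm c hc t) hB.le)
  have hu0 : ∀ ω, u (U ω) = 0 := by
    intro ω
    rw [huz2]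
    exact hk2 ω
  -- (3) the fourth tilt
  obtain ⟨s₀, hs₀⟩ : ∃ s₀ : ℝ, s₀ = ρ / (2 * A₃ * τ) := ⟨_, rfl⟩
  have hs₀0 : 0 < s₀ := by rw [hs₀]; positivity
  let i₄ : (Fin k → ℝ) →ₗ[ℝ] V := i₃ + s₀ • (i₂ ∘ₗ U ∘ₗ u)
  have hi₄ : ∀ z, i₄ z = i₃ z + s₀ • i₂ (U (u z)) := fun z => rfl
  have hrW : ∀ z, r (s₀ • i₂ (U (u z))) ≤ 1 / 2 * r (i₃ z) := by
    intro z
    rw [map_smul_eq_mul, Real.norm_eq_abs, abs_of_pos hs₀0]
    have h1 : r (i₂ (U (u z))) ≤ A₃ * (τ * r (i₃ z)) / ρ := by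
      rw [le_div_iff₀ hρ, mul_comm]
      exact (hU _).trans (mul_le_mul_of_nonneg_left (hun z) hA0.le)
    calc s₀ * r (i₂ (U (u z))) ≤ s₀ * (A₃ * (τ * r (i₃ z)) / ρ) :=
          mul_le_mul_of_nonneg_left h1 hs₀0.le
      _ = 1 / 2 * r (i₃ z) := by
          rw [hs₀]
          field_simp
  have hup4 : ∀ z, r (i₄ z) ≤ 3 / 2 * r (i₃ z) := by
    intro z
    have h1 := map_add_le_add r (i₃ z) (s₀ • i₂ (U (u z)))
    rw [← hi₄] at h1
    have h2 := hrW z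
    linarith
  have hlow4 : ∀ z, r (i₃ z) ≤ 2 * r (i₄ z) := by
    intro z
    have h0 : i₃ z = i₄ z - s₀ • i₂ (U (u z)) := by rw [hi₄]; abel
    have h1 := map_sub_le_add r (i₄ z) (s₀ • i₂ (U (u z)))
    rw [← h0] at h1
    have h2 := hrW z
    linarith
  have hse0 : 0 < s₀ * ε := mul_pos hs₀0 hε0
  have hse : 3 / 2 * B * L ≤ s₀ * ε := by
    have h1 : s₀ * ε = ρ / (4 * A₃ * τ * (M + 1)) := by
      rw [hs₀, hε]
      field_simp
      norm_num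
    rw [h1, le_div_iff₀ (by positivity)]
    calc 3 / 2 * B * L * (4 * A₃ * τ * (M + 1)) = 6 * A₃ * (M + 1) * B * L * τ := by ring
      _ ≤ ρ := hD
  have hpu : ∀ z, s₀ * ε * p (Ω (u z)) ≤ 2 * C * p (i₄ z) := by
    intro z
    have h1 := hpos3 ((s₀ * ε) • u z) (z + s₀ • U (u z))
    have h2 : Ω ((s₀ * ε) • u z) + i₃ (z + s₀ • U (u z)) = i₄ z := by
      rw [map_add, map_smul, map_smul, hi₃U, hi₄, smul_sub, smul_smul]
      abel
    rw [h2, map_smul, map_smul_eq_mul, Real.norm_eq_abs, abs_of_pos hse0] at h1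
    exact h1
  refine ⟨i₃, i₄, fun z => ⟨hlow3 z, hup3 z⟩, fun z => ⟨hlow4 z, hup4 z⟩, ?_⟩
  -- (4)
  let j : (Fin M → ℝ) →ₗ[ℝ] (Fin k → ℝ) := (1 / 2 : ℝ) • ((s₀ * ε)⁻¹ • ξ' - ε⁻¹ • U)
  have hj : ∀ ω, j ω = (1 / 2 : ℝ) • ((s₀ * ε)⁻¹ • ξ' ω - ε⁻¹ • U ω) := fun ω => rfl
  have huj : ∀ ω, u (j ω) = (1 / 2 : ℝ) • (s₀ * ε)⁻¹ • ω := by
    intro ω
    rw [hj, map_smul, map_sub, map_smul, map_smul, huξ, hu0, smul_zero, sub_zero]
  refine ⟨j, (2 * (s₀ * ε)) • u, ?_, ?_, ?_⟩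
  · intro ω
    rw [LinearMap.smul_apply, huj, smul_smul, smul_smul]
    have h1 : 2 * (s₀ * ε) * (1 / 2) * (s₀ * ε)⁻¹ = 1 := by
      field_simp
    rw [h1, one_smul]
  · intro ω
    change p (i₄ (j ω)) ≤ p (Ω ω)
    have h1 : i₄ (j ω) = (1 / 2 : ℝ) • ((s₀ * ε)⁻¹ • i₃ (ξ' ω) + Ω ω) := by
      have key : ∀ a b c : V, (1 / 2 : ℝ) • ((s₀ * ε)⁻¹ • a - ε⁻¹ • (b - ε • c)) +
          s₀ • ((1 / 2 : ℝ) • (s₀ * ε)⁻¹ • b) = (1 / 2 : ℝ) • ((s₀ * ε)⁻¹ • a + c) := by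
        intro a b c
        match_scalars <;> field_simp <;> ring
      rw [hi₄, huj, hj, map_smul, map_sub, map_smul, map_smul, hi₃U, map_smul U, map_smul U,
        map_smul i₂, map_smul i₂]
      exact key _ _ _
    rw [h1, map_smul_eq_mul, Real.norm_eq_abs, abs_of_pos (by norm_num : (0 : ℝ) < 1 / 2)]
    have h2 := map_add_le_add p ((s₀ * ε)⁻¹ • i₃ (ξ' ω)) (Ω ω)
    rw [map_smul_eq_mul, Real.norm_eq_abs, abs_of_pos (inv_pos.mpr hse0)] at h2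
    have h3 : (s₀ * ε)⁻¹ * p (i₃ (ξ' ω)) ≤ p (Ω ω) := by
      rw [inv_mul_le_iff₀ hse0]
      calc p (i₃ (ξ' ω)) ≤ 3 / 2 * (B * ‖ω‖) := hξ'n ω
        _ ≤ 3 / 2 * (B * (L * p (Ω ω))) := by
            refine mul_le_mul_of_nonneg_left ?_ (by norm_num)
            exact mul_le_mul_of_nonneg_left (hΩL ω) hB.le
        _ = 3 / 2 * B * L * p (Ω ω) := by ring
        _ ≤ s₀ * ε * p (Ω ω) := mul_le_mul_of_nonneg_right hse (apply_nonneg p _)
    linarith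
  · intro x
    change p (Ω ((2 * (s₀ * ε)) • u x)) ≤ 4 * C * p (i₄ x)
    rw [map_smul, map_smul_eq_mul, Real.norm_eq_abs, abs_of_pos (by positivity)]
    have h1 := hpu x
    linarith

end Pool.GG
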