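import Pool.Agent.Work.MP_3e8c7a.Defs

/-!
# MP_3e8c7a_an, THEOREM GG: definitions
-/

set_option autoImplicit false

namespace Pool.GG

open scoped Pointwise

/-- Good position: for `w ∈ F` and `x ∈ E` with `w + x ∈ K` also `w ∈ C • K`. -/
def Position (C : ℝ) {n : ℕ} (K : Set (Fin n → ℝ)) (F E : Submodule ℝ (Fin n → ℝ)) : Prop :=
  ∀ w ∈ F, ∀ x ∈ E, w + x ∈ K → w ∈ C • K

/-- `K ∩ F` is isomorphic to a complemented section of `K ∩ E`, with the constant `C`: there are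
linear maps `j` from `F` to `E` and `q` from `E` to `F` with `q j = 1` on `F`, `j (K ∩ F) ⊆ K` and
`q (K ∩ E) ⊆ C K`. -/
def CompIn (C : ℝ) {n : ℕ} (K : Set (Fin n → ℝ)) (F E : Submodule ℝ (Fin n → ℝ)) : Prop :=
  ∃ j q : Module.End ℝ (Fin n → ℝ), (∀ w ∈ F, j w ∈ E ∧ q (j w) = w ∧ (w ∈ K → j w ∈ K)) ∧
    ∀ x ∈ E, q x ∈ F ∧ (x ∈ K → q x ∈ C • K)

/-- The Euclidean ball of `ℝ^m` is isomorphic to a complemented section of `K ∩ E`, with the
constant `C`. -/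
def EucIn (C : ℝ) (m : ℕ) {n : ℕ} (K : Set (Fin n → ℝ)) (E : Submodule ℝ (Fin n → ℝ)) : Prop :=
  ∃ (j : (Fin m → ℝ) →ₗ[ℝ] (Fin n → ℝ)) (q : (Fin n → ℝ) →ₗ[ℝ] (Fin m → ℝ)),
    (∀ a, j a ∈ E ∧ q (j a) = a ∧ (∑ l, a l ^ 2 ≤ 1 → j a ∈ K)) ∧
    ∀ x ∈ E, x ∈ K → ∑ l, q x l ^ 2 ≤ C ^ 2

/-- `K` has a section of dimension `m` that is within `M` of the unit ball of `ℓ_P^m`. -/
def HasLpSection (P M : ℝ) (m : ℕ) {n : ℕ} (K : Set (Fin n → ℝ)) : Prop :=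
  ∃ i : (Fin m → ℝ) →ₗ[ℝ] (Fin n → ℝ), Function.Injective i ∧
    (∀ x, ∑ l, |x l| ^ P ≤ 1 → i x ∈ K) ∧ ∀ x, i x ∈ K → ∑ l, |x l| ^ P ≤ M ^ P

/-- A section `K ∩ E`, `dim E = k`, without `C`-complemented Euclidean balls of dimension `m`, in
`M`-position to some subspace `F` of dimension at least `N`. -/
def NoEuclid (C M : ℝ) (m N k : ℕ) {n : ℕ} (K : Set (Fin n → ℝ)) : Prop :=
  ∃ E F : Submodule ℝ (Fin n → ℝ), Module.finrank ℝ E = k ∧ N ≤ Module.finrank ℝ F ∧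
    Position M K F E ∧ ¬ EucIn C m K E

/-- `E` of dimension `k` in `M`-position to `F` of dimension `m`, `K ∩ F` not `C`-complemented in
`K ∩ E`. -/
def GoodPair (C M : ℝ) (m k : ℕ) {n : ℕ} (K : Set (Fin n → ℝ)) : Prop :=
  ∃ E F : Submodule ℝ (Fin n → ℝ), Module.finrank ℝ E = k ∧ Module.finrank ℝ F = m ∧
    Position M K F E ∧ ¬ CompIn C K F E

/-- `E₁` of dimension at least `l` and `F` of dimension `m` such that `K ∩ F` is not
`C`-complemented in `K ∩ E` for any `k`-dimensional subspace `E` of `E₁`. -/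
def GoodSub (C : ℝ) (m k l : ℕ) {n : ℕ} (K : Set (Fin n → ℝ)) : Prop :=
  ∃ E₁ F : Submodule ℝ (Fin n → ℝ), l ≤ Module.finrank ℝ E₁ ∧ Module.finrank ℝ F = m ∧
    ∀ E ≤ E₁, Module.finrank ℝ E = k → ¬ CompIn C K F E

/-- `K` has a section that forces rigidity. `k` is the dimension of the sections in the hypothesis,
`N` a bound for a few additional dimensions, `m` a fixed small dimension. -/
def Good (b M P : ℝ) (m N k : ℕ) {n : ℕ} (K : Set (Fin n → ℝ)) : Prop :=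
  HasLpSection P M (k + N) K ∨
  Pool.Agent.MP3e8c7a.HasCubeSection M k K ∨
  NoEuclid (45360 * (|b| + 1) ^ 4 * M) M m N k K ∨
  GoodPair (648 * (|b| + 1) ^ 4 * M) M m k K ∨
  GoodSub (1296 * (|b| + 1) ^ 4) m k (k + N) K

end Pool.GG
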