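import Pool.Agent.Work.MP_3e8c7a_gg.Interface
import Pool.Agent.Work.MP_3e8c7a_s.Final
import Pool.Agent.Work.MP_3e8c7a_gg.Defs

/-!
# MP_3e8c7a_an, THEOREM GG: from norms to bodies
-/

set_option autoImplicit false

namespace Pool.GG

open Module Pool.Agent.MP3e8c7a Pool.Agent.MP3e8c7as Pool.RG
open scoped Pointwise

/-- The geometric conclusion for norms. -/
def RigN (D : ℝ) (K₀ : ℕ) {n : ℕ} (p r : Seminorm ℝ (Fin n → ℝ)) : Prop :=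
  ∃ (Y : Submodule ℝ (Fin n → ℝ)) (Λ : ℝ), n ≤ finrank ℝ Y + K₀ ∧ 0 < Λ ∧
    ∀ y ∈ Y, p y ≤ D * (Λ * r y) ∧ Λ * r y ≤ D * p y

lemma RigN.symm {D : ℝ} {K₀ : ℕ} {n : ℕ} {p r : Seminorm ℝ (Fin n → ℝ)} (h : RigN D K₀ p r) :
    RigN D K₀ r p := by
  obtain ⟨Y, Λ, h1, h2, h3⟩ := h
  refine ⟨Y, Λ⁻¹, h1, inv_pos.2 h2, fun y hy => ?_⟩
  obtain ⟨h5, h6⟩ := h3 y hy
  constructor
  · have h7 : r y = Λ⁻¹ * (Λ * r y) := by field_simp
    rw [h7]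
    calc Λ⁻¹ * (Λ * r y) ≤ Λ⁻¹ * (D * p y) := mul_le_mul_of_nonneg_left h6 (inv_pos.2 h2).le
      _ = D * (Λ⁻¹ * p y) := by ring
  · rw [inv_mul_le_iff₀ h2]
    calc p y ≤ D * (Λ * r y) := h5
      _ = Λ * (D * r y) := by ring

/-- From norms to bodies. -/
theorem close_bodies (α D : ℝ) (K₀ : ℕ) (hα : 0 < α) (hD : 1 ≤ D) : ∃ C : ℝ, 1 ≤ C ∧
    ∀ n k : ℕ, 0 < n → α * n ≤ k → ∀ (K L : Set (Fin n → ℝ)) (p r : Seminorm ℝ (Fin n → ℝ)),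
      Def p → Def r → (∀ x, x ∈ K ↔ p x ≤ 1) → (∀ x, x ∈ L ↔ r x ≤ 1) →
      (K₀ ≤ k → RigN D K₀ p r) → GeomClose C K L ∧ dBM K L ≤ ENNReal.ofReal C := by
  have hcod := Pool.Agent.MP3e8c7ak.COD
  have hD2 : 1 ≤ D * D := by nlinarith
  choose f hf1 hf2 using fun m : ℕ => hcod m (D * D) hD2
  obtain ⟨n₀, hn₀⟩ := exists_nat_ge ((K₀ : ℝ) / α)
  set N := max K₀ n₀ with hN
  have hfs : ∀ m ≤ N, f m ≤ ∑ j ∈ Finset.range (N + 1), f j := fun m hm =>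
    Finset.single_le_sum (f := f) (fun j _ => by linarith [hf1 j]) (Finset.mem_range.2 (by omega))
  set F := ∑ j ∈ Finset.range (N + 1), f j with hF
  have hF1 : 1 ≤ F := (hf1 0).trans (hfs 0 (Nat.zero_le _))
  have hN0 : (0 : ℝ) ≤ N := Nat.cast_nonneg N
  set C := D + N + F with hC
  have hC1 : 1 ≤ C := by linarith
  have hC0 : 0 < C := by linarith
  have hC2 : C ≤ C ^ 2 := by nlinarith
  refine ⟨C ^ 2, by linarith, ?_⟩
  intro n k hn hk K L p r hp hr hKp hLr hrig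
  have hfr : finrank ℝ (Fin n → ℝ) = n := by
    rw [Module.finrank_fintype_fun_eq_card, Fintype.card_fin]
  obtain ⟨Y, Λ, hY, hΛ, hYb⟩ : RigN D N p r := by
    by_cases hcase : K₀ ≤ k
    · obtain ⟨Y, Λ, h1, h2, h3⟩ := hrig hcase
      exact ⟨Y, Λ, h1.trans (Nat.add_le_add_left (le_max_left _ _) _), h2, h3⟩
    · refine ⟨⊥, 1, ?_, one_pos, fun y hy => ?_⟩
      · have h1 : (n : ℝ) ≤ n₀ := by
          refine le_trans ?_ hn₀
          rw [le_div_iff₀ hα]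
          have h2 : (k : ℝ) ≤ K₀ := by exact_mod_cast (not_le.1 hcase).le
          linarith
        have h2 : n ≤ n₀ := by exact_mod_cast h1
        have : n₀ ≤ N := le_max_right _ _
        omega
      · rw [(Submodule.mem_bot ℝ).1 hy, map_zero, map_zero]
        simp
  have hYn : finrank ℝ Y ≤ n := by
    have := Submodule.finrank_le Y
    rwa [hfr] at this
  have h3 : ∀ y ∈ Y, p y ≤ C * (Λ * r y) ∧ Λ * r y ≤ C * p y := by
    intro y hy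
    obtain ⟨h1, h2⟩ := hYb y hy
    have h3 : 0 ≤ Λ * r y := mul_nonneg hΛ.le (apply_nonneg r y)
    have h4 : 0 ≤ p y := apply_nonneg p y
    exact ⟨h1.trans (mul_le_mul_of_nonneg_right (by linarith) h3),
      h2.trans (mul_le_mul_of_nonneg_right (by linarith) h4)⟩
  have h1 : (n : ℝ) ≤ finrank ℝ Y + C := by
    have h1 : (n : ℝ) ≤ (finrank ℝ Y + N : ℕ) := by exact_mod_cast hY
    push_cast at h1
    linarith
  have h4 : Iso C p r := by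
    have h0 : 0 < D * Λ := by positivity
    have h1 : Iso (D * Λ * (D / Λ)) (p.comp Y.subtype) (r.comp Y.subtype) := by
      refine Iso.of_bounds (LinearEquiv.refl ℝ Y) h0 (fun y => ?_) (fun y => ?_)
      · have := (hYb y y.2).1
        show p (y : Fin n → ℝ) ≤ D * Λ * r (y : Fin n → ℝ)
        linarith
      · have := (hYb y y.2).2
        show r (y : Fin n → ℝ) ≤ D / Λ * p (y : Fin n → ℝ)
        rw [div_mul_eq_mul_div, le_div_iff₀ hΛ]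
        linarith
    have h2 : D * Λ * (D / Λ) = D * D := by field_simp
    rw [h2] at h1
    have h3 := hf2 (n - finrank ℝ Y) (Fin n → ℝ) (Fin n → ℝ) p r hp hr Y Y (by omega) (by omega) h1
    refine h3.mono ((hfs _ (by omega)).trans ?_)
    linarith
  have h2 : 0 < Λ := hΛ
  refine ⟨⟨Y, C / Λ, div_pos hC0 h2, by linarith, ?_, ?_⟩, ?_⟩
  · rintro x ⟨hx1, hx2⟩
    rw [Set.mem_smul_set_iff_inv_smul_mem₀ (div_pos hC0 h2).ne', hLr, map_smul_eq_mul,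
      Real.norm_eq_abs, abs_of_pos (inv_pos.2 (div_pos hC0 h2)), inv_mul_le_iff₀ (div_pos hC0 h2),
      mul_one, le_div_iff₀ h2]
    have h5 := (h3 x hx2).2
    have h6 := (hKp x).1 hx1
    nlinarith
  · rintro x ⟨hx1, hx2⟩
    rw [Set.mem_smul_set_iff_inv_smul_mem₀ (div_pos hC0 h2).ne', hLr, map_smul_eq_mul,
      Real.norm_eq_abs, abs_of_pos (inv_pos.2 (div_pos hC0 h2)), inv_mul_le_iff₀ (div_pos hC0 h2),
      mul_one, le_div_iff₀ h2] at hx1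
    have h0 : 0 < C ^ 2 := by positivity
    rw [Set.mem_smul_set_iff_inv_smul_mem₀ h0.ne', hKp, map_smul_eq_mul,
      Real.norm_eq_abs, abs_of_pos (inv_pos.2 h0), inv_mul_le_iff₀ h0, mul_one]
    have h5 := (h3 x hx2).1
    nlinarith
  · exact (h4.mono hC2).dBM_le (by linarith) hKp hLr

/-- Membership in a multiple. -/
lemma mem_smul_iff {n : ℕ} {K : Set (Fin n → ℝ)} {p : Seminorm ℝ (Fin n → ℝ)}
    (hK : ∀ x, x ∈ K ↔ p x ≤ 1) {C : ℝ} (hC : 0 < C) (x : Fin n → ℝ) : x ∈ C • K ↔ p x ≤ C := by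
  rw [Set.mem_smul_set_iff_inv_smul_mem₀ hC.ne', hK, map_smul_eq_mul, Real.norm_eq_abs,
    abs_of_pos (inv_pos.2 hC), inv_mul_le_iff₀ hC, mul_one]

/-- Homogeneity: an inclusion of unit balls is an inequality of norms. -/
lemma le_of_ball {U : Type} [AddCommGroup U] [Module ℝ U] (a c : Seminorm ℝ U) {C : ℝ} (hC : 0 ≤ C)
    (h : ∀ u, a u ≤ 1 → c u ≤ C) (u : U) : c u ≤ C * a u := by
  rcases (apply_nonneg a u).lt_or_eq with h0 | h0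
  · have h1 : a ((a u)⁻¹ • u) ≤ 1 := by
      rw [map_smul_eq_mul, Real.norm_eq_abs, abs_of_pos (inv_pos.2 h0), inv_mul_cancel₀ h0.ne']
    have h2 := h _ h1
    rw [map_smul_eq_mul, Real.norm_eq_abs, abs_of_pos (inv_pos.2 h0), inv_mul_le_iff₀ h0] at h2
    linarith
  · rw [← h0, mul_zero]
    by_contra h1
    have h1 : 0 < c u := not_le.1 h1
    have h2 : a (((C + 1) / c u) • u) ≤ 1 := by
      rw [map_smul_eq_mul, ← h0, mul_zero]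
      exact zero_le_one
    have h3 := h _ h2
    rw [map_smul_eq_mul, Real.norm_eq_abs, abs_of_pos (by positivity), div_mul_cancel₀ _ h1.ne'] at h3
    linarith

/-- The norm inequality of a good position. -/
lemma Position.norm {n : ℕ} {K : Set (Fin n → ℝ)} {p : Seminorm ℝ (Fin n → ℝ)}
    (hK : ∀ x, x ∈ K ↔ p x ≤ 1) {C : ℝ} (hC : 0 < C) {F E : Submodule ℝ (Fin n → ℝ)}
    (h : Position C K F E) : ∀ w ∈ F, ∀ x ∈ E, p w ≤ C * p (w + x) := by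
  intro w hw x hx
  have h1 := le_of_ball (U := F × E) (p.comp (F.subtype ∘ₗ LinearMap.fst ℝ F E + E.subtype ∘ₗ LinearMap.snd ℝ F E))
    (p.comp (F.subtype ∘ₗ LinearMap.fst ℝ F E)) hC.le (fun u hu => ?_) (⟨w, hw⟩, ⟨x, hx⟩)
  · exact h1
  · have h2 : (u.1 : Fin n → ℝ) + (u.2 : Fin n → ℝ) ∈ K := (hK _).2 hu
    exact (mem_smul_iff hK hC _).1 (h _ u.1.2 _ u.2.2 h2)

/-- **THEOREM GG**, norms of bodies. -/
theorem pair_rig (hG : Stmt_GG) (M : ℕ) : ∃ (D : ℝ) (K₀ : ℕ), 1 ≤ D ∧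
    ∀ (n k : ℕ) (K : Set (Fin n → ℝ)) (p r : Seminorm ℝ (Fin n → ℝ)) (b C₁ : ℝ), 1 ≤ b → 1 ≤ C₁ →
      Def p → Def r → (∀ x, x ∈ K ↔ p x ≤ 1) → Hyp b k p r → K₀ ≤ k →
      ∀ E F : Submodule ℝ (Fin n → ℝ), finrank ℝ E = k → finrank ℝ F = M → Position C₁ K F E →
      ¬ CompIn (648 * b ^ 4 * C₁) K F E → RigN D K₀ p r := by
  obtain ⟨D, K₀, hD, h⟩ := hG M
  refine ⟨D, K₀, hD, fun n k K p r b C₁ hb hC₁ hp hr hK H hk E F hE hF hpos hcomp => ?_⟩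
  have hfr : finrank ℝ (Fin n → ℝ) = n := by
    rw [Module.finrank_fintype_fun_eq_card, Fintype.card_fin]
  let eE : (Fin k → ℝ) ≃ₗ[ℝ] E := LinearEquiv.ofFinrankEq _ _ (by
    rw [Module.finrank_fintype_fun_eq_card, Fintype.card_fin, hE])
  let eF : (Fin M → ℝ) ≃ₗ[ℝ] F := LinearEquiv.ofFinrankEq _ _ (by
    rw [Module.finrank_fintype_fun_eq_card, Fintype.card_fin, hF])
  have hC0 : 0 < C₁ := by linarith
  have hC2 : 0 < 648 * b ^ 4 * C₁ := by positivity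
  have h1 := h (Fin n → ℝ) k p r b C₁ hb hC₁ hp hr H hk (E.subtype ∘ₗ eE.toLinearMap)
    (F.subtype ∘ₗ eF.toLinearMap) (Subtype.val_injective.comp eE.injective)
    (Subtype.val_injective.comp eF.injective)
    (fun ω z => hpos.norm hK hC0 _ (eF ω).2 _ (eE z).2) ?_
  · obtain ⟨Y, Λ, h2, h3, h4⟩ := h1
    rw [hfr] at h2
    exact ⟨Y, Λ, h2, h3, h4⟩
  · rintro ⟨j, q, hqj, hj, hq⟩
    apply hcomp
    obtain ⟨J, hJ⟩ := LinearMap.exists_extend (E.subtype ∘ₗ eE.toLinearMap ∘ₗ j ∘ₗ eF.symm.toLinearMap)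
    obtain ⟨Q, hQ⟩ := LinearMap.exists_extend (F.subtype ∘ₗ eF.toLinearMap ∘ₗ q ∘ₗ eE.symm.toLinearMap)
    have hJ' : ∀ w : F, J (w : Fin n → ℝ) = ((eE (j (eF.symm w)) : E) : Fin n → ℝ) := fun w =>
      LinearMap.congr_fun hJ w
    have hQ' : ∀ x : E, Q (x : Fin n → ℝ) = ((eF (q (eE.symm x)) : F) : Fin n → ℝ) := fun x =>
      LinearMap.congr_fun hQ x
    refine ⟨J, Q, fun w hw => ⟨?_, ?_, fun hwK => ?_⟩, fun x hx => ⟨?_, fun hxK => ?_⟩⟩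
    · rw [hJ' ⟨w, hw⟩]
      exact (eE (j (eF.symm ⟨w, hw⟩))).2
    · rw [hJ' ⟨w, hw⟩, hQ', LinearEquiv.symm_apply_apply, hqj, LinearEquiv.apply_symm_apply]
    · rw [hJ' ⟨w, hw⟩, hK]
      rw [hK] at hwK
      have h2 : p (((eE (j (eF.symm ⟨w, hw⟩)) : E) : Fin n → ℝ)) ≤
        p (((eF (eF.symm ⟨w, hw⟩) : F)) : Fin n → ℝ) := hj (eF.symm ⟨w, hw⟩)
      rw [LinearEquiv.apply_symm_apply] at h2
      exact h2.trans hwK
    · rw [hQ' ⟨x, hx⟩]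
      exact (eF (q (eE.symm ⟨x, hx⟩))).2
    · rw [hQ' ⟨x, hx⟩, mem_smul_iff hK hC2]
      have h2 : p (((eF (q (eE.symm ⟨x, hx⟩)) : F) : Fin n → ℝ)) ≤
        648 * b ^ 4 * C₁ * p (((eE (eE.symm ⟨x, hx⟩) : E)) : Fin n → ℝ) := hq (eE.symm ⟨x, hx⟩)
      rw [LinearEquiv.apply_symm_apply] at h2
      rw [hK] at hxK
      have h3 : p ((⟨x, hx⟩ : E) : Fin n → ℝ) ≤ 1 := hxK
      exact h2.trans (by nlinarith)

/-- **THEOREM GG** for bodies. -/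
theorem pair_bodies (hG : Stmt_GG) (α : ℝ) (hα : 0 < α) (M : ℕ) : ∃ C : ℝ, 1 ≤ C ∧
    ∀ n k : ℕ, 0 < n → α * n ≤ k → ∀ b C₁ : ℝ, 1 ≤ C₁ → ∀ K L : Set (Fin n → ℝ), IsBody K → IsBody L →
      SectionsClose k b K L →
      ((∃ E F : Submodule ℝ (Fin n → ℝ), finrank ℝ E = k ∧ finrank ℝ F = M ∧ Position C₁ K F E ∧
        ¬ CompIn (648 * (|b| + 1) ^ 4 * C₁) K F E) ∨
       (∃ E F : Submodule ℝ (Fin n → ℝ), finrank ℝ E = k ∧ finrank ℝ F = M ∧ Position C₁ L F E ∧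
        ¬ CompIn (648 * (|b| + 1) ^ 4 * C₁) L F E)) →
      GeomClose C K L ∧ dBM K L ≤ ENNReal.ofReal C := by
  obtain ⟨D, K₀, hD, h⟩ := pair_rig hG M
  obtain ⟨C, hC, hcl⟩ := close_bodies α D K₀ hα hD
  refine ⟨C, hC, fun n k hn hk b C₁ hC₁ K L hK hL hS hpair => ?_⟩
  have hb : 1 ≤ |b| + 1 := by linarith [abs_nonneg b]
  obtain ⟨p, hp, hKp⟩ := hK.exists_seminorm
  obtain ⟨r, hr, hLr⟩ := hL.exists_seminorm
  have H : Hyp (|b| + 1) k p r := hS.hyp hp hr hKp hLr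
  refine hcl n k hn hk K L p r hp hr hKp hLr fun hk₀ => ?_
  rcases hpair with ⟨E, F, hE, hF, hpos, hcomp⟩ | ⟨E, F, hE, hF, hpos, hcomp⟩
  · exact h n k K p r _ C₁ hb hC₁ hp hr hKp H hk₀ E F hE hF hpos hcomp
  · exact (h n k L r p _ C₁ hb hC₁ hr hp hLr (H.symm (by linarith)) hk₀ E F hE hF hpos hcomp).symm

end Pool.GG
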