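import Pool.Agent.Work.MP_3e8c7a_gg.B_ANG
import Pool.Agent.Work.MP_3e8c7a_gg.B_TLA
import Pool.Agent.Work.MP_3e8c7a_gg.B_TLB
import Pool.Agent.Work.MP_3e8c7a_gg.B_TLC
import Pool.Agent.Work.MP_3e8c7a_gg.B_ASG
import Pool.Agent.Work.MP_3e8c7a_gg.Bodies

/-!
# MP_3e8c7a_an, THEOREM GG: all blocks together
-/

set_option autoImplicit false

namespace Pool.GG

theorem q_GG : Stmt_GG := p_ASG p_ANG p_TLA p_TLB p_TLC

end Pool.GG

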