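import Pool.Agent.Work.MP_3e8c7a_gg.InterfaceP

/-! # Block BAD (helper71) -/

set_option autoImplicit false

namespace Pool.GG

open Module Pool.Agent.MP3e8c7a Pool.Agent.MP3e8c7as Pool.RG
open Pool.RX (rad)

theorem BAD_scale {m : ℕ} (g : Fin m → Bool) (x : Fin m → ℝ) (c : ℝ) :
    rad g (fun l => x l / c) = rad g x / c := by
  unfold Pool.RX.rad
  rw [Finset.sum_div]
  refine Finset.sum_congr rfl fun l _ => ?_
  rw [mul_div_assoc]

/-- Markov for products. -/
theorem BAD_markov {α : Type} [Fintype α] (N : ℕ) (φ : α → ℝ) (c D : ℝ)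
    (hD : ∑ g, Real.exp (φ g) ≤ D) (T : Finset (Fin N → α))
    (hT : ∀ a ∈ T, N * c ≤ ∑ s, φ (a s)) : (T.card : ℝ) ≤ (Real.exp (-c) * D) ^ N := by
  classical
  have h1 : (T.card : ℝ) * Real.exp (N * c) ≤ ∑ a : Fin N → α, Real.exp (∑ s, φ (a s)) := by
    have h2 : (T.card : ℝ) * Real.exp (N * c) = ∑ _a ∈ T, Real.exp (N * c) := by simp
    rw [h2]
    refine le_trans (Finset.sum_le_sum fun a ha => Real.exp_le_exp.mpr (hT a ha)) ?_
    exact Finset.sum_le_sum_of_subset_of_nonneg (Finset.subset_univ T)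
      (fun a _ _ => (Real.exp_pos _).le)
  have h3 : ∑ a : Fin N → α, Real.exp (∑ s, φ (a s)) = (∑ g, Real.exp (φ g)) ^ N := by
    rw [Fintype.sum_pow]
    refine Finset.sum_congr rfl fun a _ => ?_
    rw [Real.exp_sum]
  rw [h3] at h1
  have h0 : 0 ≤ ∑ g, Real.exp (φ g) := Finset.sum_nonneg fun g _ => (Real.exp_pos _).le
  have h4 : (T.card : ℝ) * Real.exp (N * c) ≤ D ^ N := le_trans h1 (pow_le_pow_left₀ h0 hD N)
  have h5 : Real.exp (N * c) = Real.exp c ^ N := Real.exp_nat_mul c N
  rw [mul_pow, Real.exp_neg, inv_pow, ← h5, inv_mul_eq_div, le_div_iff₀ (Real.exp_pos _)]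
  exact h4

theorem p_BAD (hEXM : Stmt_EXM) : Stmt_BAD := by
  classical
  intro m N x T hT
  set σ : ℝ := Real.sqrt (∑ l, x l ^ 2) with hσ
  have hσ0 : 0 ≤ σ := Real.sqrt_nonneg _
  have hss : 0 ≤ ∑ l, x l ^ 2 := Finset.sum_nonneg fun l _ => sq_nonneg _
  have hrhs : (0 : ℝ) ≤ 2 * (93 / 100) ^ N * (2 ^ m) ^ N := by positivity
  rcases hσ0.eq_or_lt with h0 | hpos
  · have hx : ∀ l, x l = 0 := by
      have h1 : ∑ l, x l ^ 2 = 0 := by
        have := Real.sqrt_eq_zero hss
        exact this.mp h0.symm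
      intro l
      have h2 := (Finset.sum_eq_zero_iff_of_nonneg (fun l _ => sq_nonneg (x l))).mp h1 l
        (Finset.mem_univ l)
      exact pow_eq_zero_iff (two_ne_zero) |>.mp h2
    have hTe : T = ∅ := by
      rw [Finset.eq_empty_iff_forall_notMem]
      intro a ha
      refine hT a ha ?_
      have h3 : ∀ s, |rad (a s) x| = 0 := by
        intro s
        unfold Pool.RX.rad
        simp [hx]
      simp only [h3, ← h0]
      simp
    rw [hTe]
    simpa using hrhs
  · set y : Fin m → ℝ := fun l => x l / σ with hy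
    have hσ2 : σ ^ 2 = ∑ l, x l ^ 2 := Real.sq_sqrt hss
    have hy1 : ∑ l, y l ^ 2 = 1 := by
      have h1 : ∀ l, y l ^ 2 = x l ^ 2 / σ ^ 2 := fun l => div_pow _ _ _
      rw [Finset.sum_congr rfl (fun l _ => h1 l), ← Finset.sum_div, ← hσ2]
      exact div_self (by positivity)
    obtain ⟨he1, he2⟩ := hEXM m y hy1
    have hry : ∀ g : Fin m → Bool, |rad g x| = σ * |rad g y| := by
      intro g
      rw [hy, BAD_scale, abs_div, abs_of_pos hpos]
      field_simp
    set T1 : Finset (Fin N → Fin m → Bool) := T.filter (fun a => ∑ s, |rad (a s) y| ≤ N / 10) with hT1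
    set T2 : Finset (Fin N → Fin m → Bool) := T.filter (fun a => 2 * N ≤ ∑ s, |rad (a s) y|) with hT2
    have hsub : T ⊆ T1 ∪ T2 := by
      intro a ha
      have h1 := hT a ha
      have h2 : ∑ s, |rad (a s) x| = σ * ∑ s, |rad (a s) y| := by
        rw [Finset.mul_sum]
        exact Finset.sum_congr rfl fun s _ => hry _
      rw [h2] at h1
      rw [Finset.mem_union, hT1, hT2, Finset.mem_filter, Finset.mem_filter]
      by_contra h3
      push Not at h3
      refine h1 ⟨?_, ?_⟩
      · have h4 := h3.1 ha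
        have := mul_le_mul_of_nonneg_left h4.le hσ0
        linarith
      · have h4 := h3.2 ha
        have := mul_le_mul_of_nonneg_left h4.le hσ0
        linarith
    have hc1 : (T1.card : ℝ) ≤ (93 / 100) ^ N * (2 ^ m) ^ N := by
      have h1 := BAD_markov N (fun g : Fin m → Bool => -|rad g y|) (-(1 / 10)) _ he1 T1 (by
        intro a ha
        rw [hT1, Finset.mem_filter] at ha
        rw [Finset.sum_neg_distrib]
        linarith [ha.2])
      refine le_trans h1 ?_
      rw [← mul_pow]
      refine pow_le_pow_left₀ (by positivity) ?_ N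
      rw [neg_neg]
      have h2 : Real.exp (1 / 10) ≤ 10 / 9 := by
        have h3 := Real.one_sub_le_exp_neg (1 / 10 : ℝ)
        rw [Real.exp_neg] at h3
        have h4 : (0 : ℝ) < Real.exp (1 / 10) := Real.exp_pos _
        have h5 : (1 - 1 / 10 : ℝ) * Real.exp (1 / 10) ≤ 1 := by
          have := mul_le_mul_of_nonneg_right h3 h4.le
          rwa [inv_mul_cancel₀ h4.ne'] at this
        linarith
      have h6 : (0 : ℝ) < 2 ^ m := by positivity
      calc Real.exp (1 / 10) * (5 / 6 * 2 ^ m) ≤ 10 / 9 * (5 / 6 * 2 ^ m) :=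
            mul_le_mul_of_nonneg_right h2 (by positivity)
        _ ≤ 93 / 100 * 2 ^ m := by linarith
    have hc2 : (T2.card : ℝ) ≤ (93 / 100) ^ N * (2 ^ m) ^ N := by
      have h1 := BAD_markov N (fun g : Fin m → Bool => |rad g y|) 2 _ he2 T2 (by
        intro a ha
        rw [hT2, Finset.mem_filter] at ha
        linarith [ha.2])
      refine le_trans h1 ?_
      rw [← mul_pow]
      refine pow_le_pow_left₀ (by positivity) ?_ N
      have h2 : Real.exp (-2) ≤ 1 / 5 := by
        have h3 := Real.quadratic_le_exp_of_nonneg (show (0 : ℝ) ≤ 2 by norm_num)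
        rw [Real.exp_neg, inv_eq_one_div]
        exact one_div_le_one_div_of_le (by norm_num) (by linarith)
      have h6 : (0 : ℝ) < 2 ^ m := by positivity
      calc Real.exp (-2) * (4 * 2 ^ m) ≤ 1 / 5 * (4 * 2 ^ m) :=
            mul_le_mul_of_nonneg_right h2 (by positivity)
        _ ≤ 93 / 100 * 2 ^ m := by linarith
    have hcard : (T.card : ℝ) ≤ T1.card + T2.card := by
      have h1 := le_trans (Finset.card_le_card hsub) (Finset.card_union_le T1 T2)
      exact_mod_cast h1
    linarith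

end Pool.GG
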