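import Pool.Agent.Work.MP_3e8c7a_gg.InterfaceP

/-!
# MP_3e8c7a_an, THEOREM GG part 2: block CUB
-/

set_option autoImplicit false

namespace Pool.GG

open Module Pool.Agent.MP3e8c7a Pool.Agent.MP3e8c7as Pool.RG
open Pool.RX (rad)

theorem CUB_inj {V : Type} [AddCommGroup V] [Module ℝ V] {k : ℕ} {p : Seminorm ℝ V} {C : ℝ}
    {i : (Fin k → ℝ) →ₗ[ℝ] V} (hi : ∀ z, ‖z‖ ≤ C * p (i z)) : Function.Injective i := by
  rw [← LinearMap.ker_eq_bot, LinearMap.ker_eq_bot']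
  intro z hz
  have h := hi z
  rw [hz, map_zero, mul_zero] at h
  exact norm_le_zero_iff.1 h

theorem CUB_emb {W : Type} [AddCommGroup W] [Module ℝ W] [FiniteDimensional ℝ W] {n : ℕ}
    (hn : n ≤ finrank ℝ W) : ∃ O : (Fin n → ℝ) →ₗ[ℝ] W, Function.Injective O := by
  obtain ⟨f, hf⟩ := exists_linearIndependent_of_le_finrank (R := ℝ) (M := W) hn
  exact ⟨Fintype.linearCombination ℝ f, linearIndependent_iff_injective_fintypeLinearCombination.1 hf⟩

theorem CUB_pos {V : Type} [AddCommGroup V] [Module ℝ V] {k : ℕ} {p : Seminorm ℝ V} {C : ℝ}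
    {i : (Fin k → ℝ) →ₗ[ℝ] V} {φ : V →ₗ[ℝ] (Fin k → ℝ)} (h1 : ∀ z, φ (i z) = z)
    (h2 : ∀ x, p (i (φ x)) ≤ C * p x) {w : V} (hw : φ w = 0) (z : Fin k → ℝ) :
    p w ≤ (1 + C) * p (w + i z) := by
  have e1 : φ (w + i z) = z := by rw [map_add, hw, h1, zero_add]
  have e2 : w = (w + i z) - i (φ (w + i z)) := by
    rw [e1]; abel
  have h3 := map_sub_le_add p (w + i z) (i (φ (w + i z)))
  rw [← e2] at h3
  have h4 := h2 (w + i z)
  linarith

theorem p_CUB (hGG : Stmt_GG) (hNORI : Pool.RX.Stmt_NORI) : Stmt_CUB := by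
  intro b C hb hC
  have hC0 : 0 < C := by linarith
  obtain ⟨M₀, hM₀⟩ := hNORI (648 * b ^ 4 * (1 + C) * C)
  choose Df Kf hDf hGGf using hGG
  refine ⟨1 + ∑ m ∈ Finset.range (M₀ + 1), Df m, M₀ + ∑ m ∈ Finset.range (M₀ + 1), Kf m, ?_, ?_⟩
  · have : 0 ≤ ∑ m ∈ Finset.range (M₀ + 1), Df m :=
      Finset.sum_nonneg fun m _ => by linarith [hDf m]
    linarith
  intro V _ _ _ k p r hp hr H hKk hkV i hi
  have hinj : Function.Injective i := CUB_inj fun z => (hi z).2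
  obtain ⟨φ, hφ1, hφ2⟩ := exists_proj (ι := Fin k) hC0.le p i hinj
    ⟨LinearEquiv.refl ℝ _, fun z => hi z⟩
  have hker : M₀ ≤ finrank ℝ (LinearMap.ker φ) := by
    have h1 := LinearMap.finrank_range_add_finrank_ker φ
    have h2 : finrank ℝ (LinearMap.range φ) ≤ k := by
      have := Submodule.finrank_le (LinearMap.range φ)
      rwa [Module.finrank_fin_fun] at this
    omega
  obtain ⟨O, hO⟩ := CUB_emb hker
  set O₁ : (Fin M₀ → ℝ) →ₗ[ℝ] V := (LinearMap.ker φ).subtype ∘ₗ O with hO₁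
  have hO₁inj : Function.Injective O₁ := by
    rw [hO₁, LinearMap.coe_comp]
    exact Subtype.val_injective.comp hO
  have hO₁ker : ∀ a, φ (O₁ a) = 0 := fun a => (O a).2
  obtain ⟨S, hS⟩ := hM₀ (p.comp O₁) (hp.comp O₁ hO₁inj)
  have hM : finrank ℝ S ≤ M₀ := by
    have := Submodule.finrank_le S
    rwa [Module.finrank_fin_fun] at this
  obtain ⟨e⟩ : Nonempty ((Fin (finrank ℝ S) → ℝ) ≃ₗ[ℝ] S) :=
    ⟨LinearEquiv.ofFinrankEq _ _ (by rw [Module.finrank_fin_fun])⟩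
  set Om : (Fin (finrank ℝ S) → ℝ) →ₗ[ℝ] V := O₁ ∘ₗ S.subtype ∘ₗ (e : (Fin (finrank ℝ S) → ℝ) →ₗ[ℝ] S)
    with hOm
  have hOmapp : ∀ a, Om a = O₁ ((e a : S) : Fin M₀ → ℝ) := fun a => rfl
  have hOminj : Function.Injective Om := by
    intro a a' h
    rw [hOmapp, hOmapp] at h
    exact e.injective (Subtype.ext (hO₁inj h))
  have hmem : finrank ℝ S ∈ Finset.range (M₀ + 1) := Finset.mem_range.2 (by omega)
  have hK' : Kf (finrank ℝ S) ≤ ∑ m ∈ Finset.range (M₀ + 1), Kf m :=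
    Finset.single_le_sum (f := Kf) (fun m _ => Nat.zero_le _) hmem
  have hD' : Df (finrank ℝ S) ≤ ∑ m ∈ Finset.range (M₀ + 1), Df m :=
    Finset.single_le_sum (f := Df) (fun m _ => by linarith [hDf m]) hmem
  obtain ⟨Y, Λ, h1, h2, h3⟩ := hGGf (finrank ℝ S) V k p r b (1 + C) hb (by linarith) hp hr H
    (by omega) i Om hinj hOminj
    (fun ω z => CUB_pos hφ1 hφ2 (by rw [hOmapp]; exact hO₁ker _) z)
    (by
      rintro ⟨j, q, hj1, hj2, hj3⟩
      refine hS ⟨k, C⁻¹ • (j ∘ₗ (e.symm : S →ₗ[ℝ] (Fin (finrank ℝ S) → ℝ))),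
        C • ((e : (Fin (finrank ℝ S) → ℝ) →ₗ[ℝ] S) ∘ₗ q), ?_, ?_, ?_⟩
      · intro a
        show C • e (q (C⁻¹ • j (e.symm a))) = a
        rw [map_smul, map_smul, hj1, LinearEquiv.apply_symm_apply, smul_smul,
          mul_inv_cancel₀ hC0.ne', one_smul]
      · intro a
        show ‖C⁻¹ • j (e.symm a)‖ ≤ p (O₁ (a : Fin M₀ → ℝ))
        rw [norm_smul, Real.norm_eq_abs, abs_of_pos (inv_pos.2 hC0)]
        have h4 := (hi (j (e.symm a))).2
        have h5 : p (i (j (e.symm a))) ≤ p (Om (e.symm a)) := hj2 (e.symm a)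
        rw [hOmapp, LinearEquiv.apply_symm_apply] at h5
        calc C⁻¹ * ‖j (e.symm a)‖ ≤ C⁻¹ * (C * p (i (j (e.symm a)))) :=
              mul_le_mul_of_nonneg_left h4 (inv_nonneg.2 hC0.le)
          _ = p (i (j (e.symm a))) := by rw [← mul_assoc, inv_mul_cancel₀ hC0.ne', one_mul]
          _ ≤ _ := h5
      · intro x
        show p (O₁ ((C • e (q x) : S) : Fin M₀ → ℝ)) ≤ 648 * b ^ 4 * (1 + C) * C * ‖x‖
        have e1 : O₁ ((C • e (q x) : S) : Fin M₀ → ℝ) = C • Om (q x) := by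
          rw [hOmapp, Submodule.coe_smul, map_smul]
        rw [e1, map_smul_eq_mul, Real.norm_eq_abs, abs_of_pos hC0]
        have h4 : p (Om (q x)) ≤ 648 * b ^ 4 * (1 + C) * p (i x) := hj3 x
        have h5 := (hi x).1
        have hb4 : 0 ≤ 648 * b ^ 4 * (1 + C) := by positivity
        have h6 := mul_le_mul_of_nonneg_left h5 hb4
        have h7 := mul_le_mul_of_nonneg_left (h4.trans h6) hC0.le
        calc C * p (Om (q x)) ≤ C * (648 * b ^ 4 * (1 + C) * ‖x‖) := h7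
          _ = _ := by ring)
  refine ⟨Y, Λ, by omega, h2, fun y hy => ?_⟩
  have h4 := h3 y hy
  have hD : Df (finrank ℝ S) ≤ 1 + ∑ m ∈ Finset.range (M₀ + 1), Df m := by linarith
  constructor
  · exact h4.1.trans (mul_le_mul_of_nonneg_right hD (mul_nonneg h2.le (apply_nonneg r y)))
  · exact h4.2.trans (mul_le_mul_of_nonneg_right hD (apply_nonneg p y))

end Pool.GG
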