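import Pool.Agent.Work.MP_3e8c7a_gg.InterfaceP

/-!
# MP_3e8c7a_an, THEOREM GG part 2: block EUR
-/

set_option autoImplicit false

namespace Pool.GG

open Module Pool.Agent.MP3e8c7a Pool.Agent.MP3e8c7as Pool.RG
open Pool.RX (rad)

theorem EUR_smul {n : ℕ} (c : ℝ) (hc : 0 ≤ c) (x : Fin n → ℝ) : e2 (c • x) = c * e2 x := by
  unfold e2
  have h : ∑ i, (c • x) i ^ 2 = c ^ 2 * ∑ i, x i ^ 2 := by
    rw [Finset.mul_sum]
    refine Finset.sum_congr rfl fun i _ => ?_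
    rw [Pi.smul_apply, smul_eq_mul, mul_pow]
  rw [h, Real.sqrt_mul (sq_nonneg c), Real.sqrt_sq hc]

theorem EUR_zero {n : ℕ} (x : Fin n → ℝ) (h : e2 x ≤ 0) : x = 0 := by
  unfold e2 at h
  have h1 : Real.sqrt (∑ i, x i ^ 2) = 0 := le_antisymm h (Real.sqrt_nonneg _)
  have h0 : 0 ≤ ∑ i, x i ^ 2 := Finset.sum_nonneg fun i _ => sq_nonneg _
  have h2 : ∑ i, x i ^ 2 = 0 := (Real.sqrt_eq_zero h0).1 h1
  funext i
  have h3 := (Finset.sum_eq_zero_iff_of_nonneg (fun i _ => sq_nonneg (x i))).1 h2 i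
    (Finset.mem_univ i)
  simpa using h3

theorem p_EUR (hGG : Stmt_GG) (hDVO : Pool.RG.Stmt_DVO) : Stmt_EUR := by
  intro m
  obtain ⟨N, hN⟩ := hDVO m
  obtain ⟨D, K₁, hD, hG⟩ := hGG m
  refine ⟨D, K₁ + N, hD, ?_⟩
  intro V _ _ _ k p r b C₁ hb hC₁ hp hr H hK i Z hi hZ hpos hE
  have hpZ : Def (p.comp Z.subtype) := hp.comp Z.subtype Z.injective_subtype
  obtain ⟨T, hT⟩ := hN Z (p.comp Z.subtype) hpZ (by omega)
  have hTinj : Function.Injective T := by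
    rw [injective_iff_map_eq_zero]
    intro a ha
    apply EUR_zero
    have := (hT a).1
    rwa [ha, map_zero] at this
  let Ω : (Fin m → ℝ) →ₗ[ℝ] V := Z.subtype ∘ₗ T
  have hΩ : Function.Injective Ω := Z.injective_subtype.comp hTinj
  have hlo : ∀ a, e2 a ≤ p (Ω a) := fun a => (hT a).1
  have hup : ∀ a, p (Ω a) ≤ 70 * e2 a := fun a => (hT a).2
  have hnot : ¬ FacE (648 * b ^ 4 * C₁) (p.comp Ω) (p.comp i) := by
    rintro ⟨j, q, h1, h2, h3⟩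
    refine hE ⟨(1 / 70 : ℝ) • j, (70 : ℝ) • q, ?_, ?_, ?_⟩
    · intro a
      rw [LinearMap.smul_apply, LinearMap.smul_apply, map_smul, smul_smul, h1]
      norm_num
    · intro a
      have h4 : p (i (j a)) ≤ p (Ω a) := h2 a
      have h5 := hup a
      show p (i ((1 / 70 : ℝ) • j a)) ≤ e2 a
      rw [map_smul, map_smul_eq_mul, Real.norm_of_nonneg (by norm_num)]
      linarith
    · intro x
      have h4 : p (Ω (q x)) ≤ 648 * b ^ 4 * C₁ * p (i x) := h3 x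
      have h5 := hlo (q x)
      show e2 ((70 : ℝ) • q x) ≤ 45360 * b ^ 4 * C₁ * p (i x)
      rw [EUR_smul 70 (by norm_num)]
      calc 70 * e2 (q x) ≤ 70 * (648 * b ^ 4 * C₁ * p (i x)) := by linarith
        _ = 45360 * b ^ 4 * C₁ * p (i x) := by ring
  obtain ⟨Y, Λ, hY, hΛ, h⟩ := hG V k p r b C₁ hb hC₁ hp hr H (by omega) i Ω hi hΩ
    (fun ω z => hpos _ (T ω).2 z) hnot
  exact ⟨Y, Λ, by omega, hΛ, h⟩

end Pool.GG
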