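import Pool.Agent.Work.MP_3e8c7a_gg.InterfaceP

/-! # Block HLD: Hölder's inequality and its converse for finite sums -/

namespace Pool.GG

open Module Pool.Agent.MP3e8c7a Pool.Agent.MP3e8c7as Pool.RG
open Pool.RX (rad)

theorem HLD_conj {P Q : ℝ} (hP : 1 < P) (hQ : Q = P / (P - 1)) : P.HolderConjugate Q := by
  rw [Real.holderConjugate_iff]
  refine ⟨hP, ?_⟩
  have h1 : P - 1 ≠ 0 := by linarith
  have h2 : P ≠ 0 := by linarith
  rw [hQ]
  field_simp
  ring

theorem HLD_two {P Q : ℝ} (hP : 1 < P) (hQ : Q = P / (P - 1)) (k : ℕ) (v x : Fin k → ℝ) :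
    |∑ i, x i * v i| ≤ (∑ i, |x i| ^ P) ^ (1 / P) * (∑ i, |v i| ^ Q) ^ (1 / Q) := by
  have hc := HLD_conj hP hQ
  rw [abs_le]
  constructor
  · have h := Real.inner_le_Lp_mul_Lq Finset.univ (fun i => - x i) v hc
    simp only [abs_neg, neg_mul, Finset.sum_neg_distrib] at h
    linarith
  · exact Real.inner_le_Lp_mul_Lq Finset.univ x v hc

theorem HLD_one {P Q : ℝ} (hP : 1 < P) (hQ : Q = P / (P - 1)) (k : ℕ) (v : Fin k → ℝ)
    (κ : ℝ) (hκ : 0 ≤ κ)
    (h : ∀ x : Fin k → ℝ, |∑ i, x i * v i| ≤ κ * (∑ i, |x i| ^ P) ^ (1 / P)) :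
    ∑ i, |v i| ^ Q ≤ κ ^ Q := by
  have hP1 : 0 < P - 1 := by linarith
  have hQ0 : 0 < Q := by rw [hQ]; positivity
  have hQ1 : Q - 1 = 1 / (P - 1) := by
    rw [hQ]; field_simp; ring
  have hQ1' : 0 < Q - 1 := by rw [hQ1]; positivity
  have hQP : (Q - 1) * P = Q := by
    rw [hQ1, hQ]; field_simp
  set S : ℝ := ∑ i, |v i| ^ Q with hS
  have hS0 : 0 ≤ S := Finset.sum_nonneg fun i _ => Real.rpow_nonneg (abs_nonneg _) _
  have h1 := h (fun i => SignType.sign (v i) * |v i| ^ (Q - 1))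
  have e1 : ∑ i, ((SignType.sign (v i) : ℝ) * |v i| ^ (Q - 1)) * v i = S := by
    rw [hS]
    refine Finset.sum_congr rfl fun i _ => ?_
    have hs : (SignType.sign (v i) : ℝ) * v i = |v i| := sign_mul_self (v i)
    calc ((SignType.sign (v i) : ℝ) * |v i| ^ (Q - 1)) * v i
        = |v i| ^ (Q - 1) * ((SignType.sign (v i) : ℝ) * v i) := by ring
      _ = |v i| ^ (Q - 1) * |v i| := by rw [hs]
      _ = |v i| ^ Q := by
          rcases eq_or_lt_of_le (abs_nonneg (v i)) with h0 | h0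
          · rw [← h0, Real.zero_rpow hQ0.ne', mul_zero]
          · rw [← Real.rpow_add_one h0.ne']
            congr 1
            ring
  have e2 : ∑ i, |(SignType.sign (v i) : ℝ) * |v i| ^ (Q - 1)| ^ P = S := by
    rw [hS]
    refine Finset.sum_congr rfl fun i _ => ?_
    rcases eq_or_ne (v i) 0 with h0 | h0
    · have hz : (0 : ℝ) ^ (Q - 1) = 0 := Real.zero_rpow hQ1'.ne'
      rw [h0]
      simp only [abs_zero, hz, mul_zero]
      rw [Real.zero_rpow (by linarith), Real.zero_rpow hQ0.ne']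
    · have hs : |(SignType.sign (v i) : ℝ)| = 1 := by
        rcases lt_or_gt_of_ne h0 with h0 | h0
        · rw [sign_neg h0]; simp
        · rw [sign_pos h0]; simp
      rw [abs_mul, hs, one_mul, abs_of_nonneg (Real.rpow_nonneg (abs_nonneg _) _),
        ← Real.rpow_mul (abs_nonneg _), hQP]
  rw [e1, e2, abs_of_nonneg hS0] at h1
  rcases eq_or_lt_of_le hS0 with h0 | h0
  · rw [← h0]; exact Real.rpow_nonneg hκ _
  · have h2 : S ^ (1 / Q) ≤ κ := by
      have h3 : S ^ (1 / Q) * S ^ (1 / P) = S := by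
        rw [← Real.rpow_add h0]
        have : 1 / Q + 1 / P = 1 := by
          rw [hQ]; field_simp; ring
        rw [this, Real.rpow_one]
      have h4 : 0 < S ^ (1 / P) := Real.rpow_pos_of_pos h0 _
      have h5 : S ^ (1 / Q) * S ^ (1 / P) ≤ κ * S ^ (1 / P) := by rw [h3]; exact h1
      exact le_of_mul_le_mul_right h5 h4
    calc S = (S ^ (1 / Q)) ^ Q := by
          rw [← Real.rpow_mul hS0, one_div, inv_mul_cancel₀ hQ0.ne', Real.rpow_one]
      _ ≤ κ ^ Q := Real.rpow_le_rpow (Real.rpow_nonneg hS0 _) h2 hQ0.le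

theorem p_HLD : Stmt_HLD := by
  intro P Q hP hQ k v
  exact ⟨fun κ hκ h => HLD_one hP hQ k v κ hκ h, fun x => HLD_two hP hQ k v x⟩

end Pool.GG
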