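import Pool.Agent.Work.MP_3e8c7a_gg.InterfaceP

/-! # Block JEN (helper25): Jensen for Rademacher sums -/

set_option autoImplicit false

namespace Pool.GG

open Module Pool.Agent.MP3e8c7a Pool.Agent.MP3e8c7as Pool.RG
open Pool.RX (rad)

theorem JEN_mom (m : ℕ) (a : Fin m → ℝ) :
    ∑ g : Fin m → Bool, |rad g a| ^ 2 = 2 ^ m * ∑ l, a l ^ 2 := by
  have h := (Pool.Agent.MP3e8c7ak.MOM m a).1
  have h1 : ∀ g : Fin m → Bool, |rad g a| ^ 2 = (Pool.Agent.MP3e8c7ak.dt g a) ^ 2 := by
    intro g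
    rw [sq_abs]
    rfl
  rw [Finset.sum_congr rfl fun g _ => h1 g]
  exact h

theorem JEN_flip (m : ℕ) (a : Fin m → ℝ) (l : Fin m) (g : Fin m → Bool) :
    rad g a - rad (Function.update g l (!g l)) a = 2 * (Pool.RX.sgn (g l) * a l) := by
  unfold rad
  rw [← Finset.sum_sub_distrib, Finset.sum_eq_single l]
  · rw [Function.update_self]
    unfold Pool.RX.sgn
    cases g l <;> simp <;> ring
  · intro b _ hb
    rw [Function.update_of_ne hb, sub_self]
  · intro h
    exact absurd (Finset.mem_univ l) h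

theorem JEN_two (q : ℝ) (hq : 1 ≤ q) (u v : ℝ) : 2 * |(u - v) / 2| ^ q ≤ |u| ^ q + |v| ^ q := by
  have h1 := (convexOn_rpow hq).2 (Set.mem_Ici.2 (abs_nonneg u)) (Set.mem_Ici.2 (abs_nonneg v))
    (by norm_num : (0 : ℝ) ≤ 1 / 2) (by norm_num : (0 : ℝ) ≤ 1 / 2) (by norm_num)
  simp only [smul_eq_mul] at h1
  have h2 : |(u - v) / 2| ≤ 1 / 2 * |u| + 1 / 2 * |v| := by
    rw [abs_div, abs_two]
    have := abs_sub u v
    linarith
  have h3 := Real.rpow_le_rpow (abs_nonneg _) h2 (by linarith : 0 ≤ q)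
  linarith

theorem p_JEN : Stmt_JEN := by
  intro q m a
  have hE : (0 : ℝ) < 2 ^ m := by positivity
  have hw : ∀ g ∈ (Finset.univ : Finset (Fin m → Bool)), (0 : ℝ) ≤ (2 ^ m)⁻¹ := fun _ _ => by
    positivity
  have hw' : ∑ _g : Fin m → Bool, ((2 : ℝ) ^ m)⁻¹ = 1 := by
    rw [Finset.sum_const, Finset.card_univ, Fintype.card_fun, Fintype.card_bool, Fintype.card_fin,
      nsmul_eq_mul]
    push_cast
    exact mul_inv_cancel₀ hE.ne'
  have hmom := JEN_mom m a
  have hS : 0 ≤ ∑ l, a l ^ 2 := Finset.sum_nonneg fun _ _ => sq_nonneg _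
  refine ⟨fun hq => ?_, fun hq0 hq => ?_, fun hq l => ?_⟩
  · have h := Real.rpow_arith_mean_le_arith_mean_rpow Finset.univ (fun _ => ((2 : ℝ) ^ m)⁻¹)
      (fun g : Fin m → Bool => |rad g a| ^ 2) hw hw' (fun _ _ => sq_nonneg _)
      (p := q / 2) (by linarith)
    rw [← Finset.mul_sum, ← Finset.mul_sum, hmom, inv_mul_cancel_left₀ hE.ne'] at h
    have h2 : ∀ g : Fin m → Bool, (|rad g a| ^ 2) ^ (q / 2) = |rad g a| ^ q := by
      intro g
      rw [← Real.rpow_natCast, ← Real.rpow_mul (abs_nonneg _)]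
      congr 1
      push_cast
      ring
    rw [Finset.sum_congr rfl fun g _ => h2 g] at h
    calc 2 ^ m * (∑ l, a l ^ 2) ^ (q / 2)
        ≤ 2 ^ m * ((2 ^ m)⁻¹ * ∑ g : Fin m → Bool, |rad g a| ^ q) :=
          mul_le_mul_of_nonneg_left h hE.le
      _ = ∑ g : Fin m → Bool, |rad g a| ^ q := by rw [mul_inv_cancel_left₀ hE.ne']
  · have h := Real.rpow_arith_mean_le_arith_mean_rpow Finset.univ (fun _ => ((2 : ℝ) ^ m)⁻¹)
      (fun g : Fin m → Bool => |rad g a| ^ q) hw hw'
      (fun _ _ => Real.rpow_nonneg (abs_nonneg _) _)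
      (p := 2 / q) (by rw [le_div_iff₀ hq0]; linarith)
    rw [← Finset.mul_sum, ← Finset.mul_sum] at h
    have h2 : ∀ g : Fin m → Bool, (|rad g a| ^ q) ^ (2 / q) = |rad g a| ^ 2 := by
      intro g
      rw [← Real.rpow_mul (abs_nonneg _), mul_div_cancel₀ _ hq0.ne']
      exact Real.rpow_natCast _ 2
    rw [Finset.sum_congr rfl fun g _ => h2 g, hmom, inv_mul_cancel_left₀ hE.ne'] at h
    have hT : 0 ≤ (2 ^ m)⁻¹ * ∑ g : Fin m → Bool, |rad g a| ^ q :=
      mul_nonneg (inv_nonneg.2 hE.le)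
        (Finset.sum_nonneg fun _ _ => Real.rpow_nonneg (abs_nonneg _) _)
    have h3 := Real.rpow_le_rpow (Real.rpow_nonneg hT _) h (by linarith : 0 ≤ q / 2)
    rw [← Real.rpow_mul hT, show 2 / q * (q / 2) = 1 by field_simp, Real.rpow_one] at h3
    calc ∑ g : Fin m → Bool, |rad g a| ^ q
        = 2 ^ m * ((2 ^ m)⁻¹ * ∑ g : Fin m → Bool, |rad g a| ^ q) := by
          rw [mul_inv_cancel_left₀ hE.ne']
      _ ≤ 2 ^ m * (∑ l, a l ^ 2) ^ (q / 2) := mul_le_mul_of_nonneg_left h3 hE.le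
  · have hinv : Function.Involutive (fun g : Fin m → Bool => Function.update g l (!g l)) := by
      intro g
      change Function.update (Function.update g l (!g l)) l
        (!(Function.update g l (!g l)) l) = g
      rw [Function.update_self, Bool.not_not, Function.update_idem, Function.update_eq_self]
    have h1 : ∑ g : Fin m → Bool, |rad (Function.update g l (!g l)) a| ^ q
        = ∑ g : Fin m → Bool, |rad g a| ^ q :=
      Equiv.sum_comp (hinv.toPerm _) (fun g : Fin m → Bool => |rad g a| ^ q)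
    have h2 : ∑ _g : Fin m → Bool, 2 * |a l| ^ q
        ≤ ∑ g : Fin m → Bool, (|rad g a| ^ q + |rad (Function.update g l (!g l)) a| ^ q) := by
      refine Finset.sum_le_sum fun g _ => ?_
      have h3 := JEN_two q hq (rad g a) (rad (Function.update g l (!g l)) a)
      have h4 : |(rad g a - rad (Function.update g l (!g l)) a) / 2| = |a l| := by
        rw [JEN_flip, mul_div_cancel_left₀ _ (two_ne_zero), abs_mul]
        unfold Pool.RX.sgn
        cases g l <;> simp
      rw [h4] at h3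
      exact h3
    rw [Finset.sum_add_distrib, h1, Finset.sum_const, Finset.card_univ, Fintype.card_fun,
      Fintype.card_bool, Fintype.card_fin, nsmul_eq_mul] at h2
    push_cast at h2
    linarith

end Pool.GG
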