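import Pool.Agent.Work.MP_3e8c7a_gg.InterfaceP

set_option autoImplicit false

/-!
# Block KHU: Khinchine's inequality, upper estimate
-/

namespace Pool.GG

open Module Pool.Agent.MP3e8c7a Pool.Agent.MP3e8c7as Pool.RG
open Pool.RX (rad)

theorem KHU_exp {m : ℕ} (a : Fin m → ℝ) :
    ∑ g : Fin m → Bool, Real.exp (rad g a) = ∏ l, (Real.exp (a l) + Real.exp (-a l)) := by
  have h1 : ∀ g : Fin m → Bool, Real.exp (rad g a) = ∏ l, Real.exp (Pool.RX.sgn (g l) * a l) := by
    intro g
    unfold rad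
    rw [Real.exp_sum]
  have h2 : ∀ l, Real.exp (a l) + Real.exp (-a l) = ∑ c : Bool, Real.exp (Pool.RX.sgn c * a l) := by
    intro l
    rw [Fintype.sum_bool]
    simp [Pool.RX.sgn]
  simp_rw [h1, h2]
  rw [Finset.prod_univ_sum, Fintype.piFinset_univ]

theorem KHU_le {m : ℕ} (a : Fin m → ℝ) (h : ∑ l, a l ^ 2 = 1) :
    ∑ g : Fin m → Bool, Real.exp (rad g a) ≤ 2 ^ m * 2 := by
  have h0 : Real.exp (1 / 2) ≤ 2 := by
    have h1 : Real.exp (1 / 2) ^ 2 = Real.exp 1 := by
      rw [← Real.exp_nat_mul]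
      norm_num
    have h2 := Real.exp_one_lt_d9
    have h3 : 0 < Real.exp (1 / 2) := Real.exp_pos _
    nlinarith
  rw [KHU_exp]
  calc ∏ l, (Real.exp (a l) + Real.exp (-a l))
      ≤ ∏ l : Fin m, (2 * Real.exp (a l ^ 2 / 2)) := by
        apply Finset.prod_le_prod
        · intro l _
          positivity
        · intro l _
          have := Real.cosh_le_exp_half_sq (a l)
          rw [Real.cosh_eq] at this
          linarith
    _ = 2 ^ m * Real.exp (1 / 2) := by
        rw [Finset.prod_mul_distrib, ← Real.exp_sum, ← Finset.sum_div, h]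
        simp
    _ ≤ 2 ^ m * 2 := by
        apply mul_le_mul_of_nonneg_left h0
        positivity

theorem KHU_pt (q : ℝ) (hq : 2 ≤ q) (s : ℕ) (hs : q ≤ ((2 * s : ℕ) : ℝ)) (y : ℝ) :
    |y| ^ q ≤ 1 + ((2 * s).factorial : ℝ) * (Real.exp y + Real.exp (-y)) := by
  have hy : 0 ≤ |y| := abs_nonneg y
  have hf : (0 : ℝ) < ((2 * s).factorial : ℝ) := by
    exact_mod_cast Nat.factorial_pos _
  have he : Real.exp |y| ≤ Real.exp y + Real.exp (-y) := by
    rcases abs_cases y with ⟨h, _⟩ | ⟨h, _⟩ <;> rw [h]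
    · have := Real.exp_pos (-y)
      linarith
    · have := Real.exp_pos y
      linarith
  have hpow : |y| ^ (2 * s) ≤ ((2 * s).factorial : ℝ) * Real.exp |y| := by
    have := Real.pow_div_factorial_le_exp |y| hy (2 * s)
    rw [div_le_iff₀ hf] at this
    linarith
  have hpos : 0 ≤ ((2 * s).factorial : ℝ) * (Real.exp y + Real.exp (-y)) := by positivity
  rcases le_total |y| 1 with h1 | h1
  · have : |y| ^ q ≤ 1 := Real.rpow_le_one hy h1 (by linarith)
    linarith
  · have h2 : |y| ^ q ≤ |y| ^ (((2 * s : ℕ) : ℝ)) := Real.rpow_le_rpow_of_exponent_le h1 hs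
    rw [Real.rpow_natCast] at h2
    have h3 : ((2 * s).factorial : ℝ) * Real.exp |y| ≤
        ((2 * s).factorial : ℝ) * (Real.exp y + Real.exp (-y)) :=
      mul_le_mul_of_nonneg_left he hf.le
    linarith

theorem KHU_neg {m : ℕ} (g : Fin m → Bool) (a : Fin m → ℝ) : rad g (-a) = -rad g a := by
  unfold rad
  rw [← Finset.sum_neg_distrib]
  apply Finset.sum_congr rfl
  intro l _
  simp

theorem KHU_unit (q : ℝ) (hq : 2 ≤ q) (s : ℕ) (hs : q ≤ ((2 * s : ℕ) : ℝ)) {m : ℕ} (a : Fin m → ℝ)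
    (h : ∑ l, a l ^ 2 = 1) :
    ∑ g : Fin m → Bool, |rad g a| ^ q ≤ 2 ^ m * (1 + 4 * ((2 * s).factorial : ℝ)) := by
  have hf : (0 : ℝ) ≤ ((2 * s).factorial : ℝ) := by positivity
  have h1 := KHU_le a h
  have h2 : ∑ g : Fin m → Bool, Real.exp (-rad g a) ≤ 2 ^ m * 2 := by
    have h3 := KHU_le (-a) (by simpa using h)
    simp_rw [KHU_neg] at h3
    exact h3
  calc ∑ g : Fin m → Bool, |rad g a| ^ q
      ≤ ∑ g : Fin m → Bool, (1 + ((2 * s).factorial : ℝ) *
          (Real.exp (rad g a) + Real.exp (-rad g a))) := by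
        apply Finset.sum_le_sum
        intro g _
        exact KHU_pt q hq s hs _
    _ = 2 ^ m + ((2 * s).factorial : ℝ) *
          (∑ g : Fin m → Bool, Real.exp (rad g a) + ∑ g : Fin m → Bool, Real.exp (-rad g a)) := by
        rw [Finset.sum_add_distrib, ← Finset.mul_sum, Finset.sum_add_distrib]
        simp
    _ ≤ 2 ^ m + ((2 * s).factorial : ℝ) * (2 ^ m * 2 + 2 ^ m * 2) := by
        have := mul_le_mul_of_nonneg_left (add_le_add h1 h2) hf
        linarith
    _ = 2 ^ m * (1 + 4 * ((2 * s).factorial : ℝ)) := by ring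

theorem p_KHU : Stmt_KHU := by
  intro q hq
  obtain ⟨s, hs⟩ := exists_nat_ge q
  have hs2 : q ≤ ((2 * s : ℕ) : ℝ) := by
    push_cast
    have : (0 : ℝ) ≤ s := Nat.cast_nonneg s
    linarith
  have hf : (0 : ℝ) ≤ ((2 * s).factorial : ℝ) := by positivity
  refine ⟨1 + 4 * ((2 * s).factorial : ℝ), by linarith, ?_⟩
  intro m a
  set S := ∑ l, a l ^ 2 with hS
  have hS0 : 0 ≤ S := Finset.sum_nonneg fun l _ => sq_nonneg _
  rcases hS0.eq_or_lt with h0 | h0
  · have ha : ∀ l, a l = 0 := by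
      intro l
      have := (Finset.sum_eq_zero_iff_of_nonneg (fun l _ => sq_nonneg (a l))).1 h0.symm l
        (Finset.mem_univ l)
      exact pow_eq_zero_iff (two_ne_zero) |>.1 this
    have h1 : ∀ g : Fin m → Bool, |rad g a| ^ q = 0 := by
      intro g
      have : rad g a = 0 := by
        unfold rad
        apply Finset.sum_eq_zero
        intro l _
        rw [ha l, mul_zero]
      rw [this, abs_zero, Real.zero_rpow (by linarith)]
    rw [Finset.sum_eq_zero fun g _ => h1 g]
    positivity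
  · have hc : 0 < Real.sqrt S := Real.sqrt_pos.2 h0
    have hc2 : Real.sqrt S ^ 2 = S := Real.sq_sqrt hS0
    have hb : ∑ l, (a l / Real.sqrt S) ^ 2 = 1 := by
      simp_rw [div_pow]
      rw [← Finset.sum_div, hc2, ← hS, div_self h0.ne']
    have hu := KHU_unit q hq s hs2 (fun l => a l / Real.sqrt S) hb
    have hr : ∀ g : Fin m → Bool, |rad g a| ^ q =
        S ^ (q / 2) * |rad g (fun l => a l / Real.sqrt S)| ^ q := by
      intro g
      have h1 : rad g a = Real.sqrt S * rad g (fun l => a l / Real.sqrt S) := by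
        unfold rad
        rw [Finset.mul_sum]
        apply Finset.sum_congr rfl
        intro l _
        field_simp
      rw [h1, abs_mul, Real.mul_rpow (abs_nonneg _) (abs_nonneg _), abs_of_pos hc,
        Real.sqrt_eq_rpow, ← Real.rpow_mul hS0]
      congr 2
      ring
    simp_rw [hr]
    rw [← Finset.mul_sum]
    calc S ^ (q / 2) * ∑ g : Fin m → Bool, |rad g (fun l => a l / Real.sqrt S)| ^ q
        ≤ S ^ (q / 2) * (2 ^ m * (1 + 4 * ((2 * s).factorial : ℝ))) :=
          mul_le_mul_of_nonneg_left hu (Real.rpow_nonneg hS0 _)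
      _ = 2 ^ m * ((1 + 4 * ((2 * s).factorial : ℝ)) * S ^ (q / 2)) := by ring

end Pool.GG
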