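import Pool.Agent.Work.MP_3e8c7a_gg.InterfaceP

set_option autoImplicit false

namespace Pool.GG

open Module Pool.Agent.MP3e8c7a Pool.Agent.MP3e8c7as Pool.RG
open Pool.RX (rad)

theorem LAT_geo (n : ℕ) : ∑ i ∈ Finset.range (n + 1), 2 ^ (n - i) < 2 ^ (n + 1) := by
  induction n with
  | zero => simp
  | succ n ih =>
    rw [Finset.sum_range_succ']
    have h1 : ∑ i ∈ Finset.range (n + 1), 2 ^ (n + 1 - (i + 1)) =
        ∑ i ∈ Finset.range (n + 1), 2 ^ (n - i) :=
      Finset.sum_congr rfl (fun i _ => by rw [Nat.add_sub_add_right])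
    rw [h1, Nat.sub_zero, pow_succ 2 (n + 1)]
    omega

theorem LAT_card (m : ℕ) (F : ℕ → Finset (Fin m → ℤ)) (hF : ∀ L, (F L).card ≤ 2 ^ (L + 2 * m))
    (L : ℕ) (e : ℕ → ℤ) :
    ((Finset.range (L + 1)).biUnion (fun i => (F (L - i)).image
      (fun z => (Fin.cons (e i) z : Fin (m + 1) → ℤ)))).card ≤ 2 ^ (L + 1) * 2 ^ (2 * m) := by
  refine le_trans Finset.card_biUnion_le ?_
  have h1 : ∑ i ∈ Finset.range (L + 1), ((F (L - i)).image
      (fun z => (Fin.cons (e i) z : Fin (m + 1) → ℤ))).card ≤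
      ∑ i ∈ Finset.range (L + 1), 2 ^ (L - i) * 2 ^ (2 * m) := by
    refine Finset.sum_le_sum (fun i _ => ?_)
    refine le_trans Finset.card_image_le ?_
    rw [← pow_add]
    exact hF (L - i)
  refine le_trans h1 ?_
  rw [← Finset.sum_mul]
  exact Nat.mul_le_mul_right _ (le_of_lt (LAT_geo L))

theorem p_LAT : Stmt_LAT := by
  intro m
  induction m with
  | zero =>
    intro L
    refine ⟨Finset.univ, fun z _ => Finset.mem_univ z, ?_⟩
    rw [Finset.card_univ, Fintype.card_unique]
    exact Nat.one_le_two_pow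
  | succ m ih =>
    intro L
    choose F hF1 hF2 using ih
    refine ⟨(Finset.range (L + 1)).biUnion (fun i => (F (L - i)).image
        (fun z => (Fin.cons (i : ℤ) z : Fin (m + 1) → ℤ))) ∪
      (Finset.range (L + 1)).biUnion (fun i => (F (L - i)).image
        (fun z => (Fin.cons (-(i : ℤ)) z : Fin (m + 1) → ℤ))), ?_, ?_⟩
    · intro z hz
      rw [Fin.sum_univ_succ] at hz
      have hs : 0 ≤ ∑ i : Fin m, |z i.succ| := Finset.sum_nonneg (fun i _ => abs_nonneg _)
      have ha : ((z 0).natAbs : ℤ) = |z 0| := Int.natCast_natAbs _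
      have hL : (z 0).natAbs ≤ L := by omega
      have ht : Fin.tail z ∈ F (L - (z 0).natAbs) := by
        apply hF1
        have h2 : ∑ i : Fin m, |Fin.tail z i| = ∑ i : Fin m, |z i.succ| := rfl
        rw [h2]
        omega
      have hc : (Fin.cons (z 0) (Fin.tail z) : Fin (m + 1) → ℤ) = z := Fin.cons_self_tail z
      rw [Finset.mem_union, Finset.mem_biUnion, Finset.mem_biUnion]
      rcases Int.natAbs_eq (z 0) with h | h
      · left
        refine ⟨(z 0).natAbs, Finset.mem_range.mpr (by omega), ?_⟩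
        rw [Finset.mem_image]
        exact ⟨Fin.tail z, ht, by rw [← h]; exact hc⟩
      · right
        refine ⟨(z 0).natAbs, Finset.mem_range.mpr (by omega), ?_⟩
        rw [Finset.mem_image]
        exact ⟨Fin.tail z, ht, by rw [← h]; exact hc⟩
    · refine le_trans (Finset.card_union_le _ _) ?_
      have h1 := LAT_card m F hF2 L (fun i => (i : ℤ))
      have h2 := LAT_card m F hF2 L (fun i => -(i : ℤ))
      have h3 : 2 ^ (L + 2 * (m + 1)) = 2 ^ (L + 1) * 2 ^ (2 * m) + 2 ^ (L + 1) * 2 ^ (2 * m) := by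
        rw [← pow_add, ← two_mul, ← pow_succ']
        congr 1
        ring
      rw [h3]
      exact Nat.add_le_add h1 h2

end Pool.GG
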