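import Pool.Agent.Work.MP_3e8c7a_gg.InterfaceP

set_option autoImplicit false

namespace Pool.GG

open Module Pool.Agent.MP3e8c7a Pool.Agent.MP3e8c7as Pool.RG
open Pool.RX (rad)

/-- extension by zero -/
noncomputable def LPR_ext {a m : ℕ} (e : Fin a → Fin m) : (Fin a → ℝ) →ₗ[ℝ] (Fin m → ℝ) :=
  Function.ExtendByZero.linearMap ℝ e

theorem LPR_ext_apply {a m : ℕ} (e : Fin a → Fin m) (he : Function.Injective e) (z : Fin a → ℝ)
    (j : Fin a) : LPR_ext e z (e j) = z j := by
  show Function.extend e z 0 (e j) = z j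
  exact he.extend_apply _ _ _

theorem LPR_ext_out {a m : ℕ} (e : Fin a → Fin m) (z : Fin a → ℝ)
    (s : Fin m) (hs : ¬ ∃ j, e j = s) : LPR_ext e z s = 0 := by
  show Function.extend e z 0 s = 0
  rw [Function.extend_apply' _ _ _ hs]
  rfl

theorem LPR_ext_inj {a m : ℕ} (e : Fin a → Fin m) (he : Function.Injective e) :
    Function.Injective (LPR_ext e) := by
  intro x y h
  funext j
  rw [← LPR_ext_apply e he x j, ← LPR_ext_apply e he y j, h]

theorem LPR_norm {P : ℝ} (hP : 1 ≤ P) {a m : ℕ} (e : Fin a → Fin m) (he : Function.Injective e)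
    (z : Fin a → ℝ) : lpS P hP m (LPR_ext e z) = lpS P hP a z := by
  rw [lpS_apply, lpS_apply]
  congr 1
  symm
  refine Fintype.sum_of_injective e he _ _ ?_ ?_
  · intro s hs
    rw [LPR_ext_out e z s (by simpa using hs), abs_zero, Real.zero_rpow (by linarith)]
  · intro j
    rw [LPR_ext_apply e he]

theorem LPR_mono {P : ℝ} (hP : 1 ≤ P) {m : ℕ} (x y : Fin m → ℝ) (h : ∀ s, |x s| ≤ |y s|) :
    lpS P hP m x ≤ lpS P hP m y := by
  rw [lpS_apply, lpS_apply]
  refine Real.rpow_le_rpow (Finset.sum_nonneg fun i _ => Real.rpow_nonneg (abs_nonneg _) _) ?_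
    (by positivity)
  exact Finset.sum_le_sum fun i _ => Real.rpow_le_rpow (abs_nonneg _) (h i) (by linarith)

theorem LPR_coord {P : ℝ} (hP : 1 ≤ P) {m : ℕ} (x : Fin m → ℝ) (s : Fin m) :
    |x s| ≤ lpS P hP m x := by
  have hP0 : 0 < P := by linarith
  rw [lpS_apply]
  have h1 : |x s| ^ P ≤ ∑ i, |x i| ^ P :=
    Finset.single_le_sum (f := fun i => |x i| ^ P)
      (fun i _ => Real.rpow_nonneg (abs_nonneg _) _) (Finset.mem_univ s)
  have h2 := Real.rpow_le_rpow (Real.rpow_nonneg (abs_nonneg _) _) h1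
    (show (0 : ℝ) ≤ 1 / P by positivity)
  rwa [← Real.rpow_mul (abs_nonneg _), mul_one_div_cancel hP0.ne', Real.rpow_one] at h2

theorem p_LPR (hGG : Stmt_GG) (hNLP : Stmt_NLP) : Stmt_LPR := by
  intro P hP hne b C hb hC
  obtain ⟨M, N, O, hO, hno⟩ := hNLP P hP hne (648 * b ^ 4 * C * C ^ 2)
  obtain ⟨D, K₁, hD, hG⟩ := hGG M
  refine ⟨D, K₁ + N, hD, ?_⟩
  intro V _ _ _ k m p r hp hr hyp hKk hkm i hi
  have hC0 : 0 < C := by linarith
  have hkm' : k ≤ m := by omega
  -- the two embeddings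
  have he1 : Function.Injective (Fin.castLE hkm' : Fin k → Fin m) := Fin.castLE_injective hkm'
  let e2 : Fin N → Fin m := fun j => ⟨k + j.1, by have := j.2; omega⟩
  have he2 : Function.Injective e2 := by
    intro x y h
    have h' : k + x.1 = k + y.1 := congrArg Fin.val h
    exact Fin.ext (by omega)
  let e1 : Fin k → Fin m := Fin.castLE hkm'
  have hinj : Function.Injective i := by
    rw [← LinearMap.ker_eq_bot, LinearMap.ker_eq_bot']
    intro x hx
    funext s
    have h1 := (hi x).2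
    rw [hx, map_zero, mul_zero] at h1
    have h2 := (LPR_coord hP x s).trans h1
    exact abs_eq_zero.1 (le_antisymm h2 (abs_nonneg _))
  let i₁ : (Fin k → ℝ) →ₗ[ℝ] V := i ∘ₗ LPR_ext e1
  let Ω : (Fin M → ℝ) →ₗ[ℝ] V := i ∘ₗ LPR_ext e2 ∘ₗ O
  have hi₁ : Function.Injective i₁ := hinj.comp (LPR_ext_inj e1 he1)
  have hΩ : Function.Injective Ω := hinj.comp ((LPR_ext_inj e2 he2).comp hO)
  have hpos : ∀ ω z, p (Ω ω) ≤ C * p (Ω ω + i₁ z) := by
    intro ω z
    have h1 : p (Ω ω) ≤ lpS P hP m (LPR_ext e2 (O ω)) := (hi _).1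
    have h2 : lpS P hP m (LPR_ext e2 (O ω)) ≤ lpS P hP m (LPR_ext e2 (O ω) + LPR_ext e1 z) := by
      refine LPR_mono hP _ _ fun s => ?_
      rw [Pi.add_apply]
      by_cases hs : ∃ j, e2 j = s
      · have : LPR_ext e1 z s = 0 := by
          refine LPR_ext_out e1 z s ?_
          rintro ⟨j', hj'⟩
          obtain ⟨j, hj⟩ := hs
          have h3 : k + j.1 = j'.1 := by
            have := congrArg Fin.val (hj.trans hj'.symm)
            exact this
          have := j'.2
          omega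
        rw [this, add_zero]
      · rw [LPR_ext_out e2 _ s hs, abs_zero]
        exact abs_nonneg _
    have h3 := (hi (LPR_ext e2 (O ω) + LPR_ext e1 z)).2
    have h4 : i (LPR_ext e2 (O ω) + LPR_ext e1 z) = Ω ω + i₁ z := by
      rw [map_add]
      rfl
    rw [h4] at h3
    exact h1.trans (h2.trans h3)
  have hnot : ¬ FacE (648 * b ^ 4 * C) (p.comp Ω) (p.comp i₁) := by
    rintro ⟨j, q, h1, h2, h3⟩
    refine hno k ⟨C⁻¹ • j, C • q, ?_, ?_, ?_⟩
    · intro a
      rw [LinearMap.smul_apply, LinearMap.smul_apply, map_smul, smul_smul,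
        mul_inv_cancel₀ hC0.ne', one_smul, h1]
    · intro a
      have h4 : lpS P hP k (j a) ≤ C * p (i₁ (j a)) := by
        rw [← LPR_norm hP e1 he1]
        exact (hi _).2
      have h5 : p (i₁ (j a)) ≤ p (Ω a) := h2 a
      have h6 : p (Ω a) ≤ lpS P hP N (O a) := by
        rw [← LPR_norm hP e2 he2]
        exact (hi _).1
      rw [LinearMap.smul_apply, map_smul_eq_mul, Real.norm_eq_abs, abs_of_pos (inv_pos.2 hC0)]
      show C⁻¹ * lpS P hP k (j a) ≤ lpS P hP N (O a)
      rw [inv_mul_le_iff₀ hC0]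
      exact h4.trans (mul_le_mul_of_nonneg_left (h5.trans h6) hC0.le)
    · intro x
      have h4 : lpS P hP N (O (q x)) ≤ C * p (Ω (q x)) := by
        rw [← LPR_norm hP e2 he2]
        exact (hi _).2
      have h5 : p (Ω (q x)) ≤ 648 * b ^ 4 * C * p (i₁ x) := h3 x
      have h6 : p (i₁ x) ≤ lpS P hP k x := by
        rw [← LPR_norm hP e1 he1]
        exact (hi _).1
      show lpS P hP N (O (C • q x)) ≤ _
      rw [map_smul, map_smul_eq_mul, Real.norm_eq_abs, abs_of_pos hC0]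
      have hc : 0 ≤ 648 * b ^ 4 * C := by positivity
      calc C * lpS P hP N (O (q x)) ≤ C * (C * p (Ω (q x))) :=
            mul_le_mul_of_nonneg_left h4 hC0.le
        _ ≤ C * (C * (648 * b ^ 4 * C * lpS P hP k x)) := by
            refine mul_le_mul_of_nonneg_left (mul_le_mul_of_nonneg_left ?_ hC0.le) hC0.le
            exact h5.trans (mul_le_mul_of_nonneg_left h6 hc)
        _ = 648 * b ^ 4 * C * C ^ 2 * lpS P hP k x := by ring
  obtain ⟨Y, Λ, hY, hΛ, h⟩ := hG V k p r b C hb hC hp hr hyp (by omega) i₁ Ω hi₁ hΩ hpos hnot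
  exact ⟨Y, Λ, by omega, hΛ, h⟩

end Pool.GG
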