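import Pool.Agent.Work.MP_3e8c7a_gg.InterfaceP

set_option autoImplicit false

namespace Pool.GG

open Module Pool.Agent.MP3e8c7a Pool.Agent.MP3e8c7as Pool.RG
open Pool.RX (rad)

theorem MAT_abs {E : Type} [NormedAddCommGroup E] [NormedSpace ℝ E] (F : Seminorm ℝ E) (B : ℝ)
    (hB : ∀ x, F x ≤ B * ‖x‖) (N : ℝ) (hN : 0 ≤ N)
    (h : ∀ x : E, ‖x‖ = 1 → ∃ y : E, ‖x - y‖ ≤ 1 / 81 ∧ ‖y‖ ≤ 1 ∧ N / 10 * ‖y‖ ≤ F y ∧
      F y ≤ 2 * N * ‖y‖) : ∀ x : E, N / 20 * ‖x‖ ≤ F x := by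
  have hunit : ∀ x : E, ‖x‖ = 1 → N / 20 ≤ F x := by
    intro x₀ hx₀
    obtain ⟨S, hS⟩ : ∃ S : Set ℝ, S = {r | ∃ x : E, ‖x‖ = 1 ∧ r = F x} := ⟨_, rfl⟩
    have hbdd : BddAbove S := by
      refine ⟨B, ?_⟩
      rw [hS]
      rintro r ⟨x, hx, rfl⟩
      have := hB x
      rwa [hx, mul_one] at this
    have hne : S.Nonempty := by rw [hS]; exact ⟨F x₀, x₀, hx₀, rfl⟩
    obtain ⟨Λ, hΛ⟩ : ∃ Λ, Λ = sSup S := ⟨_, rfl⟩
    have h1 : ∀ x : E, ‖x‖ = 1 → F x ≤ Λ := by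
      intro x hx
      rw [hΛ]
      exact le_csSup hbdd (by rw [hS]; exact ⟨x, hx, rfl⟩)
    have hΛ0 : 0 ≤ Λ := (apply_nonneg F x₀).trans (h1 x₀ hx₀)
    have h2 : ∀ x : E, F x ≤ Λ * ‖x‖ := by
      intro x
      by_cases hx : x = 0
      · rw [hx]; simp
      · have hx' : 0 < ‖x‖ := norm_pos_iff.2 hx
        have h3 := h1 (‖x‖⁻¹ • x) (by
          rw [norm_smul, norm_inv, norm_norm, inv_mul_cancel₀ hx'.ne'])
        rw [map_smul_eq_mul, norm_inv, norm_norm, inv_mul_le_iff₀ hx'] at h3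
        rw [mul_comm]; exact h3
    have h4 : ∀ x : E, ‖x‖ = 1 → F x ≤ 2 * N + Λ / 81 := by
      intro x hx
      obtain ⟨y, hy1, hy2, -, hy4⟩ := h x hx
      have e1 : F x ≤ F y + F (x - y) := by
        have := map_add_le_add F y (x - y)
        rwa [add_sub_cancel] at this
      have e2 : F (x - y) ≤ Λ * (1 / 81) := (h2 _).trans (mul_le_mul_of_nonneg_left hy1 hΛ0)
      have e3 : 2 * N * ‖y‖ ≤ 2 * N * 1 := mul_le_mul_of_nonneg_left hy2 (by linarith)
      linarith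
    have h5 : Λ ≤ 2 * N + Λ / 81 := by
      rw [hΛ]
      refine csSup_le hne ?_
      rw [← hΛ]
      intro r hr
      rw [hS] at hr
      obtain ⟨x, hx, rfl⟩ := hr
      exact h4 x hx
    obtain ⟨y, hy1, hy2, hy3, -⟩ := h x₀ hx₀
    have e1 : F y ≤ F x₀ + F (x₀ - y) := by
      have := map_add_le_add F x₀ (y - x₀)
      rw [add_sub_cancel, ← map_neg_eq_map F (y - x₀), neg_sub] at this
      exact this
    have e2 : F (x₀ - y) ≤ Λ * (1 / 81) := (h2 _).trans (mul_le_mul_of_nonneg_left hy1 hΛ0)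
    have e3 : 80 / 81 ≤ ‖y‖ := by
      have := norm_sub_norm_le x₀ y
      rw [hx₀] at this
      linarith
    have e4 : N / 10 * (80 / 81) ≤ N / 10 * ‖y‖ := mul_le_mul_of_nonneg_left e3 (by linarith)
    linarith
  intro x
  by_cases hx : x = 0
  · rw [hx]; simp
  · have hx' : 0 < ‖x‖ := norm_pos_iff.2 hx
    have h3 := hunit (‖x‖⁻¹ • x) (by
      rw [norm_smul, norm_inv, norm_norm, inv_mul_cancel₀ hx'.ne'])
    rw [map_smul_eq_mul, norm_inv, norm_norm, le_inv_mul_iff₀ hx'] at h3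
    rw [mul_comm]; exact h3

/-- rounding towards zero -/
noncomputable def MAT_t (w : ℝ) : ℤ := if 0 ≤ w then ⌊w⌋ else ⌈w⌉

theorem MAT_t1 (w : ℝ) : |(MAT_t w : ℝ)| ≤ |w| := by
  unfold MAT_t
  split_ifs with h
  · have h1 : (0 : ℝ) ≤ ⌊w⌋ := by exact_mod_cast Int.floor_nonneg.2 h
    rw [abs_of_nonneg h1, abs_of_nonneg h]
    exact Int.floor_le w
  · push Not at h
    have h1 : ((⌈w⌉ : ℤ) : ℝ) ≤ 0 := by
      have : ⌈w⌉ ≤ 0 := Int.ceil_le.2 (by simpa using h.le)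
      exact_mod_cast this
    rw [abs_of_nonpos h1, abs_of_neg h]
    have := Int.le_ceil w
    linarith

theorem MAT_t2 (w : ℝ) : |w - (MAT_t w : ℝ)| ≤ 1 := by
  unfold MAT_t
  split_ifs with h
  · rw [abs_le]
    constructor <;> linarith [Int.floor_le w, Int.lt_floor_add_one w]
  · rw [abs_le]
    constructor <;> linarith [Int.le_ceil w, Int.ceil_lt_add_one w]

theorem MAT_rad_add {m : ℕ} (g : Fin m → Bool) (x y : Fin m → ℝ) :
    rad g (x + y) = rad g x + rad g y := by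
  simp [Pool.RX.rad, mul_add, Finset.sum_add_distrib]

theorem MAT_rad_smul {m : ℕ} (g : Fin m → Bool) (c : ℝ) (x : Fin m → ℝ) :
    rad g (c • x) = c * rad g x := by
  simp only [Pool.RX.rad, Pi.smul_apply, smul_eq_mul, Finset.mul_sum]
  exact Finset.sum_congr rfl fun l _ => by ring

theorem MAT_rad_le {m : ℕ} (g : Fin m → Bool) (x : Fin m → ℝ) : |rad g x| ≤ ∑ l, |x l| := by
  rw [Pool.RX.rad]
  refine (Finset.abs_sum_le_sum_abs _ _).trans (Finset.sum_le_sum fun l _ => ?_)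
  rw [abs_mul]
  have : |Pool.RX.sgn (g l)| = 1 := by
    unfold Pool.RX.sgn
    cases g l <;> simp
  rw [this, one_mul]

/-- the seminorm of a matrix of signs -/
noncomputable def MAT_F {m N : ℕ} (a : Fin N → Fin m → Bool) :
    Seminorm ℝ (EuclideanSpace ℝ (Fin m)) :=
  Seminorm.of (fun x => ∑ s, |rad (a s) (WithLp.ofLp x)|)
    (fun x y => by
      rw [← Finset.sum_add_distrib]
      refine Finset.sum_le_sum fun s _ => ?_
      rw [WithLp.ofLp_add, MAT_rad_add]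
      exact abs_add_le _ _)
    (fun c x => by
      rw [Finset.mul_sum]
      refine Finset.sum_congr rfl fun s _ => ?_
      rw [WithLp.ofLp_smul, MAT_rad_smul, abs_mul, Real.norm_eq_abs])

theorem MAT_F_apply {m N : ℕ} (a : Fin N → Fin m → Bool) (x : EuclideanSpace ℝ (Fin m)) :
    MAT_F a x = ∑ s, |rad (a s) (WithLp.ofLp x)| := rfl

theorem MAT_norm {m : ℕ} (x : EuclideanSpace ℝ (Fin m)) :
    ‖x‖ = Real.sqrt (∑ l, (WithLp.ofLp x) l ^ 2) := by
  rw [EuclideanSpace.norm_eq]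
  simp

theorem p_MAT (hBAD : Stmt_BAD) (hLAT : Stmt_LAT) : Stmt_MAT := by
  classical
  obtain ⟨E, hE⟩ : ∃ E : ℕ, E = 6561 := ⟨_, rfl⟩
  obtain ⟨lam', hlam'⟩ := exists_pow_lt_of_lt_one
    (show (0 : ℝ) < 1 / (4 * 2 ^ (E + 2)) by positivity)
    (show (93 / 100 : ℝ) < 1 by norm_num)
  obtain ⟨lam, hlamd⟩ : ∃ lam, lam = lam' + 1 := ⟨_, rfl⟩
  have hlam : (2 : ℝ) ^ (E + 2) * (93 / 100) ^ lam ≤ 1 / 4 := by
    have h1 : (93 / 100 : ℝ) ^ lam ≤ (93 / 100 : ℝ) ^ lam' := by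
      rw [hlamd]
      exact pow_le_pow_of_le_one (by norm_num) (by norm_num) (Nat.le_succ _)
    have h2 : (0 : ℝ) < 2 ^ (E + 2) := by positivity
    calc (2 : ℝ) ^ (E + 2) * (93 / 100) ^ lam ≤ 2 ^ (E + 2) * (1 / (4 * 2 ^ (E + 2))) := by
          gcongr
          exact h1.trans hlam'.le
      _ = 1 / 4 := by field_simp
  refine ⟨lam, by omega, fun m hm => ?_⟩
  obtain ⟨N, hN⟩ : ∃ N, N = lam * m := ⟨_, rfl⟩
  rw [← hN]
  have hN1 : 1 ≤ N := by rw [hN, hlamd]; exact Nat.mul_pos (Nat.succ_pos _) hm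
  obtain ⟨T, hT1, hT2⟩ := hLAT m (E * m)
  -- a good matrix
  obtain ⟨a, ha⟩ : ∃ a : Fin N → Fin m → Bool, ∀ z ∈ T,
      ((N : ℝ) / 10 * Real.sqrt (∑ l, ((z l : ℤ) : ℝ) ^ 2) ≤
        ∑ s, |rad (a s) (fun l => ((z l : ℤ) : ℝ))| ∧
      ∑ s, |rad (a s) (fun l => ((z l : ℤ) : ℝ))| ≤
        2 * N * Real.sqrt (∑ l, ((z l : ℤ) : ℝ) ^ 2)) := by
    by_contra hcon
    push Not at hcon
    obtain ⟨bad, hbad⟩ : ∃ bad : (Fin m → ℤ) → Finset (Fin N → Fin m → Bool), ∀ z a, a ∈ bad z ↔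
        ¬ ((N : ℝ) / 10 * Real.sqrt (∑ l, ((z l : ℤ) : ℝ) ^ 2) ≤
        ∑ s, |rad (a s) (fun l => ((z l : ℤ) : ℝ))| ∧
      ∑ s, |rad (a s) (fun l => ((z l : ℤ) : ℝ))| ≤
        2 * N * Real.sqrt (∑ l, ((z l : ℤ) : ℝ) ^ 2)) :=
      ⟨fun z => Finset.univ.filter (fun a => ¬ ((N : ℝ) / 10 *
        Real.sqrt (∑ l, ((z l : ℤ) : ℝ) ^ 2) ≤
        ∑ s, |rad (a s) (fun l => ((z l : ℤ) : ℝ))| ∧
      ∑ s, |rad (a s) (fun l => ((z l : ℤ) : ℝ))| ≤
        2 * N * Real.sqrt (∑ l, ((z l : ℤ) : ℝ) ^ 2))), fun z a => by simp⟩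
    have h1 : (Finset.univ : Finset (Fin N → Fin m → Bool)) ⊆ T.biUnion bad := by
      intro a _
      obtain ⟨z, hz, hza⟩ := hcon a
      rw [Finset.mem_biUnion]
      refine ⟨z, hz, (hbad z a).2 ?_⟩
      rintro ⟨h2, h3⟩
      exact absurd h3 (not_le.2 (hza h2))
    have h2 := (Finset.card_le_card h1).trans Finset.card_biUnion_le
    rw [Finset.card_univ, Fintype.card_fun, Fintype.card_fun, Fintype.card_fin, Fintype.card_fin,
      Fintype.card_bool] at h2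
    have h3 : ((2 : ℝ) ^ m) ^ N ≤ ∑ z ∈ T, ((bad z).card : ℝ) := by exact_mod_cast h2
    have h4 : ∀ z ∈ T, ((bad z).card : ℝ) ≤ 2 * (93 / 100) ^ N * (2 ^ m) ^ N := by
      intro z _
      exact hBAD m N (fun l => ((z l : ℤ) : ℝ)) (bad z) (fun a ha => (hbad z a).1 ha)
    have h5 := h3.trans (Finset.sum_le_sum h4)
    rw [Finset.sum_const, nsmul_eq_mul] at h5
    have h6 : (T.card : ℝ) ≤ 2 ^ (E * m + 2 * m) := by exact_mod_cast hT2
    have h7 : (2 : ℝ) ^ (E * m + 2 * m) * (2 * (93 / 100) ^ N) ≤ 1 / 2 := by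
      have e1 : (2 : ℝ) ^ (E * m + 2 * m) * (2 * (93 / 100) ^ N) =
          2 * ((2 : ℝ) ^ (E + 2) * (93 / 100) ^ lam) ^ m := by
        rw [hN, mul_pow, ← pow_mul, ← pow_mul]
        have : E * m + 2 * m = (E + 2) * m := by ring
        rw [this]; ring
      rw [e1]
      have e2 : ((2 : ℝ) ^ (E + 2) * (93 / 100) ^ lam) ^ m ≤ (1 / 4) ^ m := by
        gcongr
      have e3 : ((1 : ℝ) / 4) ^ m ≤ (1 / 4) ^ 1 :=
        pow_le_pow_of_le_one (by norm_num) (by norm_num) hm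
      linarith
    have h8 : (0 : ℝ) < (2 ^ m) ^ N := by positivity
    have h9 : (T.card : ℝ) * (2 * (93 / 100) ^ N * (2 ^ m) ^ N) ≤ 1 / 2 * (2 ^ m) ^ N := by
      calc (T.card : ℝ) * (2 * (93 / 100) ^ N * (2 ^ m) ^ N)
          ≤ 2 ^ (E * m + 2 * m) * (2 * (93 / 100) ^ N * (2 ^ m) ^ N) := by gcongr
        _ = 2 ^ (E * m + 2 * m) * (2 * (93 / 100) ^ N) * (2 ^ m) ^ N := by ring
        _ ≤ 1 / 2 * (2 ^ m) ^ N := by gcongr
    linarith
  refine ⟨a, ?_⟩
  have hmr : (0 : ℝ) < m := by exact_mod_cast hm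
  have hsm : 0 < Real.sqrt m := Real.sqrt_pos.2 hmr
  have key := MAT_abs (MAT_F a) (N * m) (fun x => by
    rw [MAT_F_apply]
    have h1 : ∀ s, |rad (a s) (WithLp.ofLp x)| ≤ m * ‖x‖ := by
      intro s
      refine (MAT_rad_le _ _).trans ?_
      have : ∑ l : Fin m, |(WithLp.ofLp x) l| ≤ ∑ _l : Fin m, ‖x‖ :=
        Finset.sum_le_sum fun l _ => PiLp.norm_apply_le x l
      simpa using this
    calc ∑ s, |rad (a s) (WithLp.ofLp x)| ≤ ∑ _s : Fin N, m * ‖x‖ :=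
          Finset.sum_le_sum fun s _ => h1 s
      _ = N * m * ‖x‖ := by
        rw [Finset.sum_const, Finset.card_univ, Fintype.card_fin, nsmul_eq_mul]; ring)
    N (Nat.cast_nonneg N) (fun x hx => by
      obtain ⟨w, hw⟩ : ∃ w : Fin m → ℝ, ∀ l, w l = 81 * Real.sqrt m * (WithLp.ofLp x) l :=
        ⟨_, fun _ => rfl⟩
      obtain ⟨z, hz⟩ : ∃ z : Fin m → ℤ, ∀ l, z l = MAT_t (w l) := ⟨_, fun _ => rfl⟩
      have hx2 : ∑ l, (WithLp.ofLp x) l ^ 2 = 1 := by
        have := MAT_norm x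
        rw [hx] at this
        rw [eq_comm, Real.sqrt_eq_one] at this
        exact this
      have hw2 : ∑ l, w l ^ 2 = E * m := by
        have : ∀ l, w l ^ 2 = 6561 * m * (WithLp.ofLp x) l ^ 2 := by
          intro l
          rw [hw, mul_pow, mul_pow, Real.sq_sqrt hmr.le]; norm_num
        simp only [this]
        rw [← Finset.mul_sum, hx2, hE]; norm_num
      have hz1 : ∀ l, |((z l : ℤ) : ℝ)| ≤ |w l| := fun l => by rw [hz]; exact MAT_t1 _
      have hzT : z ∈ T := by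
        apply hT1
        have e1 : ((∑ i, |z i| : ℤ) : ℝ) ≤ ((E * m : ℕ) : ℝ) := by
          push_cast
          rw [← hw2]
          refine Finset.sum_le_sum fun l _ => ?_
          have e2 : |((z l : ℤ) : ℝ)| ≤ ((z l : ℤ) : ℝ) ^ 2 := by
            have : |z l| ≤ z l ^ 2 := by
              rw [← sq_abs]
              rcases Int.eq_ofNat_of_zero_le (abs_nonneg (z l)) with ⟨n, hn⟩
              rw [hn]
              have : n ≤ n ^ 2 := Nat.le_self_pow (by norm_num) n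
              exact_mod_cast this
            exact_mod_cast this
          refine e2.trans ?_
          rw [← sq_abs, ← sq_abs (w l)]
          exact pow_le_pow_left₀ (abs_nonneg _) (hz1 l) 2
        exact_mod_cast e1
      obtain ⟨g1, g2⟩ := ha z hzT
      have hc : 0 < (81 * Real.sqrt m)⁻¹ := by positivity
      obtain ⟨zr, hzr⟩ : ∃ zr : EuclideanSpace ℝ (Fin m),
        zr = WithLp.toLp 2 (fun l => ((z l : ℤ) : ℝ)) := ⟨_, rfl⟩
      have hzn : ‖zr‖ = Real.sqrt (∑ l, ((z l : ℤ) : ℝ) ^ 2) := by rw [MAT_norm, hzr]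
      have hzF : MAT_F a zr = ∑ s, |rad (a s) (fun l => ((z l : ℤ) : ℝ))| := by
        rw [MAT_F_apply, hzr]
      rw [← hzn, ← hzF] at g1 g2
      refine ⟨(81 * Real.sqrt m)⁻¹ • zr, ?_, ?_, ?_, ?_⟩
      · rw [MAT_norm]
        have e1 : ∑ l, (WithLp.ofLp (x - (81 * Real.sqrt m)⁻¹ • zr)) l ^ 2 ≤ (1 / 81) ^ 2 := by
          have e2 : ∀ l, (WithLp.ofLp (x - (81 * Real.sqrt m)⁻¹ • zr)) l ^ 2 ≤
              (1 / 81) ^ 2 / m := by
            intro l
            have e3 : (WithLp.ofLp (x - (81 * Real.sqrt m)⁻¹ • zr)) l =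
                (81 * Real.sqrt m)⁻¹ * (w l - z l) := by
              rw [hzr]
              simp only [WithLp.ofLp_sub, WithLp.ofLp_smul, Pi.sub_apply, Pi.smul_apply,
                smul_eq_mul]
              rw [hw]
              field_simp
            rw [e3, mul_pow, ← sq_abs (w l - z l)]
            have e4 : |w l - z l| ^ 2 ≤ 1 := by
              rw [hz]
              have := MAT_t2 (w l)
              exact pow_le_one₀ (abs_nonneg _) this
            have e5 : ((81 * Real.sqrt m)⁻¹) ^ 2 = (1 / 81) ^ 2 / m := by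
              rw [inv_pow, mul_pow, Real.sq_sqrt hmr.le]
              field_simp
            rw [e5]
            exact mul_le_of_le_one_right (by positivity) e4
          refine (Finset.sum_le_sum fun l _ => e2 l).trans (le_of_eq ?_)
          rw [Finset.sum_const, Finset.card_univ, Fintype.card_fin, nsmul_eq_mul]
          field_simp
        calc Real.sqrt _ ≤ Real.sqrt ((1 / 81) ^ 2) := Real.sqrt_le_sqrt e1
          _ = 1 / 81 := Real.sqrt_sq (by norm_num)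
      · rw [norm_smul, Real.norm_of_nonneg hc.le, inv_mul_le_iff₀ (by positivity), mul_one, hzn]
        have e1 : ∑ l, ((z l : ℤ) : ℝ) ^ 2 ≤ (81 * Real.sqrt m) ^ 2 := by
          have e2 : ∑ l, ((z l : ℤ) : ℝ) ^ 2 ≤ ∑ l, w l ^ 2 := by
            refine Finset.sum_le_sum fun l _ => ?_
            rw [← sq_abs, ← sq_abs (w l)]
            exact pow_le_pow_left₀ (abs_nonneg _) (hz1 l) 2
          rw [hw2] at e2
          rw [mul_pow, Real.sq_sqrt hmr.le]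
          rw [hE] at e2
          refine e2.trans (le_of_eq ?_)
          norm_num
        calc Real.sqrt _ ≤ Real.sqrt ((81 * Real.sqrt m) ^ 2) := Real.sqrt_le_sqrt e1
          _ = 81 * Real.sqrt m := Real.sqrt_sq (by positivity)
      · rw [norm_smul, map_smul_eq_mul, Real.norm_of_nonneg hc.le]
        calc (N : ℝ) / 10 * ((81 * Real.sqrt m)⁻¹ * ‖zr‖)
            = (81 * Real.sqrt m)⁻¹ * (N / 10 * ‖zr‖) := by ring
          _ ≤ (81 * Real.sqrt m)⁻¹ * MAT_F a zr := by gcongr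
      · rw [norm_smul, map_smul_eq_mul, Real.norm_of_nonneg hc.le]
        calc (81 * Real.sqrt m)⁻¹ * MAT_F a zr
            ≤ (81 * Real.sqrt m)⁻¹ * (2 * N * ‖zr‖) := by gcongr
          _ = 2 * N * ((81 * Real.sqrt m)⁻¹ * ‖zr‖) := by ring)
  intro x
  have h1 := key (WithLp.toLp 2 x)
  rw [MAT_norm, MAT_F_apply] at h1
  exact h1

end Pool.GG
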