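import Pool.Agent.Work.MP_3e8c7a_gg.InterfaceP

/-!
# Block NLB: the trace argument, `P > 2`
-/

set_option autoImplicit false

namespace Pool.GG

open Module Pool.Agent.MP3e8c7a Pool.Agent.MP3e8c7as Pool.RG
open Pool.RX (rad)

theorem NLB_lin {k m : ℕ} (q : (Fin k → ℝ) →ₗ[ℝ] (Fin m → ℝ)) (x : Fin k → ℝ) (l : Fin m) :
    q x l = ∑ i, x i * q (Pi.single i 1) l := by
  have h : x = ∑ i, x i • (Pi.single i (1 : ℝ) : Fin k → ℝ) := by
    ext t
    simp [Finset.sum_apply, Pi.single_apply]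
  conv_lhs => rw [h]
  simp [map_sum, map_smul]

theorem NLB_radq {k m : ℕ} (g : Fin m → Bool) (q : (Fin k → ℝ) →ₗ[ℝ] (Fin m → ℝ)) (x : Fin k → ℝ) :
    rad g (q x) = ∑ i, x i * rad g (q (Pi.single i 1)) := by
  unfold Pool.RX.rad
  calc ∑ l, Pool.RX.sgn (g l) * q x l = ∑ l, ∑ i, x i * (Pool.RX.sgn (g l) * q (Pi.single i 1) l) := by
        refine Finset.sum_congr rfl fun l _ => ?_
        rw [NLB_lin q x l, Finset.mul_sum]
        exact Finset.sum_congr rfl fun i _ => by ring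
    _ = ∑ i, ∑ l, x i * (Pool.RX.sgn (g l) * q (Pi.single i 1) l) := Finset.sum_comm
    _ = _ := Finset.sum_congr rfl fun i _ => by rw [Finset.mul_sum]

theorem NLB_sgn_sq (c : Bool) : Pool.RX.sgn c ^ 2 = 1 := by
  cases c <;> simp [Pool.RX.sgn]

/-- (1): `∑ F_i ^ P ≤ N K m ^ (P/2)`. -/
theorem NLB_F (h2 : Stmt_JEN) {P K : ℝ} (hP : 2 < P) {m N k : ℕ}
    (hK : ∀ (m : ℕ) (a : Fin m → ℝ),
      ∑ g : Fin m → Bool, |rad g a| ^ P ≤ 2 ^ m * (K * (∑ l, a l ^ 2) ^ (P / 2)))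
    (a : Fin N → Fin m → Bool) (j : (Fin m → ℝ) →ₗ[ℝ] (Fin k → ℝ))
    (hj : ∀ x, ∑ i, |j x i| ^ P ≤ ∑ s, |rad (a s) x| ^ P) :
    ∑ i, (∑ l, j (Pi.single l 1) i ^ 2) ^ (P / 2) ≤ N * (K * (m : ℝ) ^ (P / 2)) := by
  have hm : (0 : ℝ) < 2 ^ m := by positivity
  have e1 : 2 ^ m * ∑ i, (∑ l, j (Pi.single l 1) i ^ 2) ^ (P / 2) ≤
      ∑ g : Fin m → Bool, ∑ i, |j (fun l => Pool.RX.sgn (g l)) i| ^ P := by
    rw [Finset.mul_sum, Finset.sum_comm]
    refine Finset.sum_le_sum fun i _ => ?_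
    have h := (h2 P m (fun l => j (Pi.single l 1) i)).1 hP.le
    refine h.trans (le_of_eq (Finset.sum_congr rfl fun g _ => ?_))
    rw [NLB_lin j (fun l => Pool.RX.sgn (g l)) i]
    rfl
  have e2 : ∑ g : Fin m → Bool, ∑ i, |j (fun l => Pool.RX.sgn (g l)) i| ^ P ≤
      ∑ g : Fin m → Bool, ∑ s, |rad g (fun l => Pool.RX.sgn (a s l))| ^ P := by
    refine Finset.sum_le_sum fun g _ => (hj _).trans (le_of_eq (Finset.sum_congr rfl fun s _ => ?_))
    congr 2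
    unfold Pool.RX.rad
    exact Finset.sum_congr rfl fun l _ => mul_comm _ _
  have e3 : ∑ g : Fin m → Bool, ∑ s, |rad g (fun l => Pool.RX.sgn (a s l))| ^ P ≤
      ∑ _s : Fin N, 2 ^ m * (K * (m : ℝ) ^ (P / 2)) := by
    rw [Finset.sum_comm]
    refine Finset.sum_le_sum fun s _ => (hK m _).trans (le_of_eq ?_)
    congr 3
    simp [NLB_sgn_sq]
  have e4 : ∑ _s : Fin N, 2 ^ m * (K * (m : ℝ) ^ (P / 2)) = 2 ^ m * (N * (K * (m : ℝ) ^ (P / 2))) := by
    rw [Finset.sum_const, Finset.card_univ, Fintype.card_fin, nsmul_eq_mul]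
    ring
  have e5 := (e1.trans e2).trans (e3.trans e4.le)
  exact le_of_mul_le_mul_left e5 hm

/-- (2): `∑ U_i ^ Q ≤ (20 C) ^ Q`. -/
theorem NLB_U (h3 : Stmt_HLD) {P Q C : ℝ} (hP : 2 < P) (hQ : Q = P / (P - 1)) (hC : 1 ≤ C) {m N k : ℕ}
    (hN : 1 ≤ N) (a : Fin N → Fin m → Bool)
    (ha : ∀ x : Fin m → ℝ, (N : ℝ) / 20 * Real.sqrt (∑ l, x l ^ 2) ≤ ∑ s, |rad (a s) x|)
    (q : (Fin k → ℝ) →ₗ[ℝ] (Fin m → ℝ))
    (hq : ∀ x, ∑ s, |rad (a s) (q x)| ^ P ≤ C ^ P * ∑ i, |x i| ^ P) :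
    ∑ i, Real.sqrt (∑ l, q (Pi.single i 1) l ^ 2) ^ Q ≤ (20 * C) ^ Q := by
  have hP0 : 0 < P := by linarith
  have hQ1 : 1 < Q := by
    rw [hQ, lt_div_iff₀ (by linarith)]
    linarith
  have hN0 : (0 : ℝ) < N := by exact_mod_cast hN
  have hC0 : 0 < C := by linarith
  -- for every s
  have e1 : ∀ s, ∑ i, |rad (a s) (q (Pi.single i 1))| ^ Q ≤ C ^ Q := by
    intro s
    refine (h3 P Q (by linarith) hQ k (fun i => rad (a s) (q (Pi.single i 1)))).1 C hC0.le fun x => ?_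
    rw [← NLB_radq (a s) q x]
    have h5 : |rad (a s) (q x)| ^ P ≤ C ^ P * ∑ i, |x i| ^ P :=
      (Finset.single_le_sum (f := fun s => |rad (a s) (q x)| ^ P)
        (fun s _ => Real.rpow_nonneg (abs_nonneg _) _) (Finset.mem_univ s)).trans (hq x)
    have h6 : (|rad (a s) (q x)| ^ P) ^ (1 / P) ≤ (C ^ P * ∑ i, |x i| ^ P) ^ (1 / P) :=
      Real.rpow_le_rpow (Real.rpow_nonneg (abs_nonneg _) _) h5 (by positivity)
    rw [← Real.rpow_mul (abs_nonneg _), mul_one_div_cancel hP0.ne', Real.rpow_one,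
      Real.mul_rpow (Real.rpow_nonneg hC0.le _)
        (Finset.sum_nonneg fun i _ => Real.rpow_nonneg (abs_nonneg _) _),
      ← Real.rpow_mul hC0.le, mul_one_div_cancel hP0.ne', Real.rpow_one] at h6
    exact h6
  -- power mean
  have e2 : ∀ i, Real.sqrt (∑ l, q (Pi.single i 1) l ^ 2) ^ Q ≤
      20 ^ Q * ((N : ℝ)⁻¹ * ∑ s, |rad (a s) (q (Pi.single i 1))| ^ Q) := by
    intro i
    have h7 : Real.sqrt (∑ l, q (Pi.single i 1) l ^ 2) ≤
        20 * ∑ s : Fin N, (N : ℝ)⁻¹ * |rad (a s) (q (Pi.single i 1))| := by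
      rw [← Finset.mul_sum]
      have h8 := ha (q (Pi.single i 1))
      have h9 : Real.sqrt (∑ l, q (Pi.single i 1) l ^ 2) =
          20 * ((N : ℝ)⁻¹ * ((N : ℝ) / 20 * Real.sqrt (∑ l, q (Pi.single i 1) l ^ 2))) := by
        field_simp
      rw [h9]
      have h10 : (0 : ℝ) ≤ (N : ℝ)⁻¹ := by positivity
      have := mul_le_mul_of_nonneg_left h8 h10
      linarith
    have h11 : (∑ s : Fin N, (N : ℝ)⁻¹ * |rad (a s) (q (Pi.single i 1))|) ^ Q ≤
        ∑ s : Fin N, (N : ℝ)⁻¹ * |rad (a s) (q (Pi.single i 1))| ^ Q := by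
      refine Real.rpow_arith_mean_le_arith_mean_rpow Finset.univ (fun _ => (N : ℝ)⁻¹)
        (fun s => |rad (a s) (q (Pi.single i 1))|) (fun _ _ => by positivity) ?_
        (fun _ _ => abs_nonneg _) hQ1.le
      rw [Finset.sum_const, Finset.card_univ, Fintype.card_fin, nsmul_eq_mul]
      field_simp
    have h12 : (0 : ℝ) ≤ ∑ s : Fin N, (N : ℝ)⁻¹ * |rad (a s) (q (Pi.single i 1))| :=
      Finset.sum_nonneg fun s _ => by positivity
    calc Real.sqrt (∑ l, q (Pi.single i 1) l ^ 2) ^ Q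
        ≤ (20 * ∑ s : Fin N, (N : ℝ)⁻¹ * |rad (a s) (q (Pi.single i 1))|) ^ Q :=
          Real.rpow_le_rpow (Real.sqrt_nonneg _) h7 (by linarith)
      _ = 20 ^ Q * (∑ s : Fin N, (N : ℝ)⁻¹ * |rad (a s) (q (Pi.single i 1))|) ^ Q :=
          Real.mul_rpow (by norm_num) h12
      _ ≤ 20 ^ Q * ((N : ℝ)⁻¹ * ∑ s, |rad (a s) (q (Pi.single i 1))| ^ Q) := by
          rw [Finset.mul_sum]
          exact mul_le_mul_of_nonneg_left h11 (by positivity)
  calc ∑ i, Real.sqrt (∑ l, q (Pi.single i 1) l ^ 2) ^ Q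
      ≤ ∑ i, 20 ^ Q * ((N : ℝ)⁻¹ * ∑ s, |rad (a s) (q (Pi.single i 1))| ^ Q) :=
        Finset.sum_le_sum fun i _ => e2 i
    _ = 20 ^ Q * ((N : ℝ)⁻¹ * ∑ s, ∑ i, |rad (a s) (q (Pi.single i 1))| ^ Q) := by
        rw [← Finset.mul_sum, ← Finset.mul_sum, Finset.sum_comm]
    _ ≤ 20 ^ Q * ((N : ℝ)⁻¹ * ∑ _s : Fin N, C ^ Q) := by
        refine mul_le_mul_of_nonneg_left ?_ (by positivity)
        exact mul_le_mul_of_nonneg_left (Finset.sum_le_sum fun s _ => e1 s) (by positivity)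
    _ = (20 * C) ^ Q := by
        rw [Finset.sum_const, Finset.card_univ, Fintype.card_fin, nsmul_eq_mul,
          Real.mul_rpow (by norm_num) hC0.le]
        field_simp

theorem p_NLB (h1 : Stmt_KHU) (h2 : Stmt_JEN) (h3 : Stmt_HLD) (h4 : Stmt_MAT) : Stmt_NLB := by
  intro P C hP hC
  obtain ⟨K, hK1, hK⟩ := h1 P hP.le
  obtain ⟨lam, hlam, hmat⟩ := h4
  have hP0 : 0 < P := by linarith
  have hC0 : 0 < C := by linarith
  have hexp : 0 < 1 / 2 - 1 / P := by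
    have : 1 / P < 1 / 2 := one_div_lt_one_div_of_lt (by norm_num) hP
    linarith
  have hlim : Filter.Tendsto (fun m : ℕ => (m : ℝ) ^ (1 / 2 - 1 / P)) Filter.atTop Filter.atTop :=
    (tendsto_rpow_atTop hexp).comp tendsto_natCast_atTop_atTop
  obtain ⟨m, hm1, hm2⟩ := ((Filter.eventually_ge_atTop 1).and
    (hlim.eventually (Filter.eventually_gt_atTop ((lam * K) ^ (1 / P) * (20 * C))))).exists
  obtain ⟨a, ha⟩ := hmat m hm1
  have hN : 1 ≤ lam * m := Nat.mul_pos hlam hm1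
  have hN0 : (0 : ℝ) < ((lam * m : ℕ) : ℝ) := by exact_mod_cast hN
  have hm0 : (0 : ℝ) < m := by exact_mod_cast hm1
  have hlam0 : (0 : ℝ) < lam := by exact_mod_cast hlam
  have hK0 : 0 < K := by linarith
  refine ⟨m, lam * m, a, ?_, ?_⟩
  · intro x hx
    have h5 := ha x
    have h6 : ∑ s, |rad (a s) x| = 0 := Finset.sum_eq_zero fun s _ => by rw [hx s, abs_zero]
    rw [h6] at h5
    have h7 : Real.sqrt (∑ l, x l ^ 2) ≤ 0 := by
      by_contra hc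
      push Not at hc
      have : 0 < ((lam * m : ℕ) : ℝ) / 20 * Real.sqrt (∑ l, x l ^ 2) := by positivity
      linarith
    have h8 : ∑ l, x l ^ 2 = 0 := by
      have h9 : Real.sqrt (∑ l, x l ^ 2) = 0 := le_antisymm h7 (Real.sqrt_nonneg _)
      exact (Real.sqrt_eq_zero (Finset.sum_nonneg fun l _ => sq_nonneg _)).1 h9
    ext l
    have h10 := (Finset.sum_eq_zero_iff_of_nonneg (fun l _ => sq_nonneg (x l))).1 h8 l (Finset.mem_univ l)
    simpa using h10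
  · intro k j q hqj hj hq
    set Q : ℝ := P / (P - 1) with hQdef
    have hQ1 : 1 < Q := by
      rw [hQdef, lt_div_iff₀ (by linarith)]
      linarith
    have hQ0 : 0 < Q := by linarith
    have hF := NLB_F h2 hP hK a j hj
    have hU := NLB_U h3 hP hQdef hC hN a ha q hq
    -- the trace
    set F : Fin k → ℝ := fun i => Real.sqrt (∑ l, j (Pi.single l 1) i ^ 2) with hFd
    set U : Fin k → ℝ := fun i => Real.sqrt (∑ l, q (Pi.single i 1) l ^ 2) with hUd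
    have ht : (m : ℝ) = ∑ i, ∑ l, j (Pi.single l 1) i * q (Pi.single i 1) l := by
      rw [Finset.sum_comm]
      have : ∀ l : Fin m, ∑ i, j (Pi.single l 1) i * q (Pi.single i 1) l = 1 := by
        intro l
        rw [← NLB_lin q (j (Pi.single l 1)) l, hqj]
        simp
      rw [Finset.sum_congr rfl fun l _ => this l]
      simp
    have hcs : ∀ i, ∑ l, j (Pi.single l 1) i * q (Pi.single i 1) l ≤ F i * U i := fun i =>
      Real.sum_mul_le_sqrt_mul_sqrt Finset.univ (fun l => j (Pi.single l 1) i) (fun l => q (Pi.single i 1) l)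
    have hhol := (h3 P Q (by linarith) hQdef k U).2 F
    have hF0 : ∀ i, 0 ≤ F i := fun i => Real.sqrt_nonneg _
    have hU0 : ∀ i, 0 ≤ U i := fun i => Real.sqrt_nonneg _
    have hFP : ∑ i, |F i| ^ P ≤ ((lam * m : ℕ) : ℝ) * (K * (m : ℝ) ^ (P / 2)) := by
      refine le_trans (le_of_eq (Finset.sum_congr rfl fun i _ => ?_)) hF
      rw [abs_of_nonneg (hF0 i)]
      change Real.sqrt (∑ l, j (Pi.single l 1) i ^ 2) ^ P = _
      rw [Real.sqrt_eq_rpow, ← Real.rpow_mul (Finset.sum_nonneg fun l _ => sq_nonneg _)]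
      congr 1
      ring
    have hUQ : ∑ i, |U i| ^ Q ≤ (20 * C) ^ Q := by
      refine le_trans (le_of_eq (Finset.sum_congr rfl fun i _ => ?_)) hU
      rw [abs_of_nonneg (hU0 i)]
    have h20 : (m : ℝ) ≤ (((lam * m : ℕ) : ℝ) * (K * (m : ℝ) ^ (P / 2))) ^ (1 / P) * (20 * C) := by
      calc (m : ℝ) = ∑ i, ∑ l, j (Pi.single l 1) i * q (Pi.single i 1) l := ht
        _ ≤ ∑ i, F i * U i := Finset.sum_le_sum fun i _ => hcs i
        _ ≤ |∑ i, F i * U i| := le_abs_self _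
        _ ≤ (∑ i, |F i| ^ P) ^ (1 / P) * (∑ i, |U i| ^ Q) ^ (1 / Q) := hhol
        _ ≤ (((lam * m : ℕ) : ℝ) * (K * (m : ℝ) ^ (P / 2))) ^ (1 / P) * ((20 * C) ^ Q) ^ (1 / Q) := by
            refine mul_le_mul (Real.rpow_le_rpow
              (Finset.sum_nonneg fun i _ => Real.rpow_nonneg (abs_nonneg _) _) hFP (by positivity))
              (Real.rpow_le_rpow (Finset.sum_nonneg fun i _ => Real.rpow_nonneg (abs_nonneg _) _) hUQ
                (by positivity)) (Real.rpow_nonneg (Finset.sum_nonneg fun i _ =>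
                  Real.rpow_nonneg (abs_nonneg _) _) _) (Real.rpow_nonneg (by positivity) _)
        _ = _ := by
            rw [← Real.rpow_mul (by positivity), mul_one_div_cancel hQ0.ne', Real.rpow_one]
    have h21 : (((lam * m : ℕ) : ℝ) * (K * (m : ℝ) ^ (P / 2))) ^ (1 / P) =
        (lam * K) ^ (1 / P) * ((m : ℝ) ^ (1 / P) * (m : ℝ) ^ (1 / 2 : ℝ)) := by
      have e : ((lam * m : ℕ) : ℝ) * (K * (m : ℝ) ^ (P / 2)) = (lam * K) * (m * (m : ℝ) ^ (P / 2)) := by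
        push_cast
        ring
      rw [e, Real.mul_rpow (by positivity) (by positivity), Real.mul_rpow hm0.le (by positivity),
        ← Real.rpow_mul hm0.le]
      congr 3
      field_simp
    rw [h21] at h20
    have h22 : (m : ℝ) = (m : ℝ) ^ (1 / 2 - 1 / P) * ((m : ℝ) ^ (1 / P) * (m : ℝ) ^ (1 / 2 : ℝ)) := by
      rw [← Real.rpow_add hm0, ← Real.rpow_add hm0]
      conv_lhs => rw [← Real.rpow_one (m : ℝ)]
      congr 1
      ring
    have hpos : 0 < (m : ℝ) ^ (1 / P) * (m : ℝ) ^ (1 / 2 : ℝ) := by positivity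
    have h23 : ((lam * K) ^ (1 / P) * (20 * C)) * ((m : ℝ) ^ (1 / P) * (m : ℝ) ^ (1 / 2 : ℝ)) <
        (m : ℝ) ^ (1 / 2 - 1 / P) * ((m : ℝ) ^ (1 / P) * (m : ℝ) ^ (1 / 2 : ℝ)) :=
      mul_lt_mul_of_pos_right hm2 hpos
    rw [← h22] at h23
    have h24 : (lam * K) ^ (1 / P) * ((m : ℝ) ^ (1 / P) * (m : ℝ) ^ (1 / 2 : ℝ)) * (20 * C) =
        ((lam * K) ^ (1 / P) * (20 * C)) * ((m : ℝ) ^ (1 / P) * (m : ℝ) ^ (1 / 2 : ℝ)) := by ring
    rw [h24] at h20
    linarith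

end Pool.GG
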