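import Pool.Agent.Work.MP_3e8c7a_gg.InterfaceP

set_option autoImplicit false

namespace Pool.GG

open Module Pool.Agent.MP3e8c7a Pool.Agent.MP3e8c7as Pool.RG
open Pool.RX (rad)

theorem NLP_sum_nonneg {k : ℕ} (P : ℝ) (x : Fin k → ℝ) : 0 ≤ ∑ i, |x i| ^ P :=
  Finset.sum_nonneg fun _ _ => Real.rpow_nonneg (abs_nonneg _) _

/-- reduction of the statement about norms to sums of powers -/
theorem NLP_red (P : ℝ) (hP : 1 ≤ P) (C : ℝ) (hC : 1 ≤ C) (M N : ℕ)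
    (O : (Fin M → ℝ) →ₗ[ℝ] (Fin N → ℝ)) (NN : (Fin M → ℝ) → ℝ) (hO : ∀ a, ∑ i, |O a i| ^ P = NN a)
    (H : ∀ (k : ℕ) (j : (Fin M → ℝ) →ₗ[ℝ] (Fin k → ℝ)) (q : (Fin k → ℝ) →ₗ[ℝ] (Fin M → ℝ)),
      (∀ a, q (j a) = a) → (∀ a, ∑ i, |j a i| ^ P ≤ NN a) →
      ¬ ∀ x, NN (q x) ≤ C ^ P * ∑ i, |x i| ^ P) (k : ℕ) :
    ¬ FacE C ((lpS P hP N).comp O) (lpS P hP k) := by
  have hP0 : 0 < P := by linarith
  have hP1 : 0 < 1 / P := by positivity
  have hC0 : 0 ≤ C := by linarith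
  rintro ⟨j, q, h1, h2, h3⟩
  refine H k j q h1 (fun a => ?_) (fun x => ?_)
  · have h4 := h2 a
    rw [Seminorm.comp_apply, lpS_apply, lpS_apply, hO a] at h4
    refine (Real.rpow_le_rpow_iff (NLP_sum_nonneg P _) ?_ hP1).1 h4
    rw [← hO a]
    exact NLP_sum_nonneg P _
  · have h4 := h3 x
    rw [Seminorm.comp_apply, lpS_apply, lpS_apply, hO (q x)] at h4
    have h5 : C * (∑ i, |x i| ^ P) ^ (1 / P) = (C ^ P * ∑ i, |x i| ^ P) ^ (1 / P) := by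
      rw [Real.mul_rpow (Real.rpow_nonneg hC0 _) (NLP_sum_nonneg P _), ← Real.rpow_mul hC0,
        mul_one_div_cancel hP0.ne', Real.rpow_one]
    rw [h5] at h4
    refine (Real.rpow_le_rpow_iff ?_ ?_ hP1).1 h4
    · rw [← hO (q x)]
      exact NLP_sum_nonneg P _
    · exact mul_nonneg (Real.rpow_nonneg hC0 _) (NLP_sum_nonneg P _)

theorem NLP_rad_add {m : ℕ} (g : Fin m → Bool) (x y : Fin m → ℝ) :
    rad g (x + y) = rad g x + rad g y := by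
  unfold rad
  rw [← Finset.sum_add_distrib]
  refine Finset.sum_congr rfl fun l _ => ?_
  rw [Pi.add_apply, mul_add]

theorem NLP_rad_smul {m : ℕ} (g : Fin m → Bool) (c : ℝ) (x : Fin m → ℝ) :
    rad g (c • x) = c * rad g x := by
  unfold rad
  rw [Finset.mul_sum]
  refine Finset.sum_congr rfl fun l _ => ?_
  rw [Pi.smul_apply, smul_eq_mul]
  ring

/-- the coordinates in the case `P < 2` -/
noncomputable def NLP_co (P δ : ℝ) {m : ℕ} (a : Fin m → ℝ) : (Fin m → Bool) ⊕ Fin m → ℝ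
  | Sum.inl g => (1 / 2 : ℝ) ^ ((m : ℝ) / P) * rad g a
  | Sum.inr l => δ * a l

/-- the embedding in the case `P < 2` -/
noncomputable def NLP_O (P δ : ℝ) (m N : ℕ) (e : (Fin m → Bool) ⊕ Fin m ≃ Fin N) :
    (Fin m → ℝ) →ₗ[ℝ] (Fin N → ℝ) where
  toFun a i := NLP_co P δ a (e.symm i)
  map_add' a b := by
    funext i
    rw [Pi.add_apply]
    rcases e.symm i with g | l
    · simp only [NLP_co, NLP_rad_add, mul_add]
    · simp only [NLP_co, Pi.add_apply, mul_add]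
  map_smul' c a := by
    funext i
    rw [Pi.smul_apply, smul_eq_mul, RingHom.id_apply]
    rcases e.symm i with g | l
    · simp only [NLP_co, NLP_rad_smul]
      ring
    · simp only [NLP_co, Pi.smul_apply, smul_eq_mul]
      ring

theorem NLP_O_sum (P δ : ℝ) (hP : 1 ≤ P) (hδ : 0 < δ) (m N : ℕ)
    (e : (Fin m → Bool) ⊕ Fin m ≃ Fin N) (a : Fin m → ℝ) :
    ∑ i, |NLP_O P δ m N e a i| ^ P = NX P δ a := by
  have hP0 : 0 < P := by linarith
  have h1 : ∑ i, |NLP_O P δ m N e a i| ^ P = ∑ s, |NLP_co P δ a s| ^ P :=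
    Equiv.sum_comp e.symm (fun s => |NLP_co P δ a s| ^ P)
  rw [h1, Fintype.sum_sum_type]
  unfold NX
  congr 1
  · rw [Finset.sum_div]
    refine Finset.sum_congr rfl fun g _ => ?_
    show |(1 / 2 : ℝ) ^ ((m : ℝ) / P) * rad g a| ^ P = _
    have h2 : (0 : ℝ) ≤ (1 / 2 : ℝ) ^ ((m : ℝ) / P) := by positivity
    rw [abs_mul, abs_of_nonneg h2, Real.mul_rpow h2 (abs_nonneg _),
      ← Real.rpow_mul (by norm_num : (0 : ℝ) ≤ 1 / 2), div_mul_cancel₀ _ hP0.ne', Real.rpow_natCast,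
      one_div, inv_pow, div_eq_inv_mul]
  · rw [Finset.mul_sum]
    refine Finset.sum_congr rfl fun l _ => ?_
    show |δ * a l| ^ P = _
    rw [abs_mul, abs_of_pos hδ, Real.mul_rpow hδ.le (abs_nonneg _)]

theorem NLP_O_inj (P δ : ℝ) (hδ : 0 < δ) (m N : ℕ) (e : (Fin m → Bool) ⊕ Fin m ≃ Fin N) :
    Function.Injective (NLP_O P δ m N e) := by
  intro a b h
  funext l
  have h1 : NLP_co P δ a (e.symm (e (Sum.inr l))) = NLP_co P δ b (e.symm (e (Sum.inr l))) :=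
    congrFun h (e (Sum.inr l))
  rw [Equiv.symm_apply_apply] at h1
  exact mul_left_cancel₀ hδ.ne' h1

/-- the embedding in the case `P > 2` -/
noncomputable def NLP_R {m N : ℕ} (a : Fin N → Fin m → Bool) : (Fin m → ℝ) →ₗ[ℝ] (Fin N → ℝ) where
  toFun x s := rad (a s) x
  map_add' x y := by
    funext s
    rw [Pi.add_apply, NLP_rad_add]
  map_smul' c x := by
    funext s
    rw [Pi.smul_apply, smul_eq_mul, RingHom.id_apply, NLP_rad_smul]

theorem NLP_mono {C C' : ℝ} (h : C ≤ C') {A B : Type} [AddCommGroup A] [Module ℝ A]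
    [AddCommGroup B] [Module ℝ B] (s : Seminorm ℝ A) (N : Seminorm ℝ B) (hF : FacE C s N) :
    FacE C' s N := by
  obtain ⟨j, q, h1, h2, h3⟩ := hF
  exact ⟨j, q, h1, h2, fun x => (h3 x).trans (mul_le_mul_of_nonneg_right h (apply_nonneg _ _))⟩

theorem NLP_one_apply (hP : (1 : ℝ) ≤ 1) (N : ℕ) (x : Fin N → ℝ) :
    lpS 1 hP N x = ∑ i, |x i| := by
  rw [lpS_apply]
  simp only [Real.rpow_one, div_one]

theorem NLP_one (hN : Pool.RX.Stmt_NORO) (hP : (1 : ℝ) ≤ 1) (C : ℝ) :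
    ∃ (M N : ℕ) (O : (Fin M → ℝ) →ₗ[ℝ] (Fin N → ℝ)),
      Function.Injective O ∧ ∀ k : ℕ, ¬ FacE C ((lpS 1 hP N).comp O) (lpS 1 hP k) := by
  obtain ⟨M, hM⟩ := hN C
  obtain ⟨S, hS⟩ := hM (Pool.RX.XN false M) (Pool.RX.XN_def false M)
  let e : (Fin (finrank ℝ S) → ℝ) ≃ₗ[ℝ] S := (finBasis ℝ S).equivFun.symm
  refine ⟨finrank ℝ S, M, S.subtype ∘ₗ (e : (Fin (finrank ℝ S) → ℝ) →ₗ[ℝ] S),
    S.injective_subtype.comp e.injective, fun k hk => hS ?_⟩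
  obtain ⟨j, q, h1, h2, h3⟩ := hk
  refine ⟨k, j ∘ₗ (e.symm : S →ₗ[ℝ] (Fin (finrank ℝ S) → ℝ)),
    (e : (Fin (finrank ℝ S) → ℝ) →ₗ[ℝ] S) ∘ₗ q, fun a => ?_, fun a => ?_, fun x => ?_⟩
  · show e (q (j (e.symm a))) = a
    rw [h1, LinearEquiv.apply_symm_apply]
  · show Pool.RX.XN false k (j (e.symm a)) ≤ Pool.RX.XN false M (S.subtype a)
    have h4 : lpS 1 hP k (j (e.symm a)) ≤ lpS 1 hP M (S.subtype (e (e.symm a))) := h2 (e.symm a)
    rw [LinearEquiv.apply_symm_apply, NLP_one_apply, NLP_one_apply] at h4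
    rw [Pool.RX.XN_false, Pool.RX.XN_false]
    exact h4
  · show Pool.RX.XN false M (S.subtype (e (q x))) ≤ C * Pool.RX.XN false k x
    have h4 : lpS 1 hP M (S.subtype (e (q x))) ≤ C * lpS 1 hP k x := h3 x
    rw [NLP_one_apply, NLP_one_apply] at h4
    rw [Pool.RX.XN_false, Pool.RX.XN_false]
    exact h4

theorem p_NLP (h1 : Stmt_NLS) (h2 : Stmt_NLB) (h3 : Pool.RX.Stmt_NORO) : Stmt_NLP := by
  intro P hP hP2 C₀
  set C : ℝ := max C₀ 1 with hCdef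
  have hC : 1 ≤ C := le_max_right _ _
  have hC₀ : C₀ ≤ C := le_max_left _ _
  suffices hmain : ∃ (M N : ℕ) (O : (Fin M → ℝ) →ₗ[ℝ] (Fin N → ℝ)),
      Function.Injective O ∧ ∀ k : ℕ, ¬ FacE C ((lpS P hP N).comp O) (lpS P hP k) by
    obtain ⟨M, N, O, hO, hk⟩ := hmain
    exact ⟨M, N, O, hO, fun k hF => hk k (NLP_mono hC₀ _ _ hF)⟩
  rcases eq_or_lt_of_le hP with h | h
  · subst h
    exact NLP_one h3 hP C
  · rcases lt_or_gt_of_ne hP2 with h5 | h5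
    · obtain ⟨m, δ, hδ, H⟩ := h1 P C h h5 hC
      let e : (Fin m → Bool) ⊕ Fin m ≃ Fin (Fintype.card ((Fin m → Bool) ⊕ Fin m)) :=
        Fintype.equivFin _
      exact ⟨m, _, NLP_O P δ m _ e, NLP_O_inj P δ hδ m _ e, fun k =>
        NLP_red P hP C hC m _ (NLP_O P δ m _ e) (NX P δ) (NLP_O_sum P δ hP hδ m _ e) H k⟩
    · obtain ⟨m, N, a, ha, H⟩ := h2 P C h5 hC
      refine ⟨m, N, NLP_R a, ?_, fun k =>
        NLP_red P hP C hC m N (NLP_R a) (fun x => ∑ s, |rad (a s) x| ^ P) (fun _ => rfl) H k⟩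
      rw [← LinearMap.ker_eq_bot, LinearMap.ker_eq_bot']
      intro x hx
      exact ha x fun s => congrFun hx s

end Pool.GG
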