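import Pool.Agent.Work.MP_3e8c7a_gg.InterfaceP

/-!
# MP_3e8c7a_an, THEOREM GG, part 2, block NLS
-/

set_option autoImplicit false

namespace Pool.GG

open Module Pool.Agent.MP3e8c7a Pool.Agent.MP3e8c7as Pool.RG
open Pool.RX (rad)

theorem NLS_inj (t : ℕ) (ht : 1 ≤ t) :
    ((4 * t ^ 2 : ℕ) : ℝ) ^ t / 2 ≤
      ((Finset.univ.filter (fun f : Fin t → Fin (4 * t ^ 2) => Function.Injective f)).card : ℝ) := by
  classical
  have h1 : (Finset.univ.filter (fun f : Fin t → Fin (4 * t ^ 2) => Function.Injective f)).card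
      = (4 * t ^ 2).descFactorial t := by
    rw [← Fintype.card_subtype,
      Fintype.card_congr (Equiv.subtypeInjectiveEquivEmbedding (Fin t) (Fin (4 * t ^ 2))),
      Fintype.card_embedding_eq, Fintype.card_fin, Fintype.card_fin]
  rw [h1]
  have h2 : (4 * t ^ 2 + 1 - t) ^ t ≤ (4 * t ^ 2).descFactorial t := Nat.pow_sub_le_descFactorial _ _
  have h3 : (4 * t ^ 2 - t) ^ t ≤ (4 * t ^ 2).descFactorial t :=
    le_trans (Nat.pow_le_pow_left (by omega) t) h2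
  have ht1 : (1 : ℝ) ≤ t := by exact_mod_cast ht
  have ht0 : (0 : ℝ) < t := by linarith
  have htt : t ≤ 4 * t ^ 2 := by nlinarith
  have h4 : (((4 * t ^ 2 - t : ℕ) : ℝ)) ^ t ≤ ((4 * t ^ 2).descFactorial t : ℝ) := by exact_mod_cast h3
  refine le_trans ?_ h4
  rw [Nat.cast_sub htt]
  have h5 : (((4 * t ^ 2 : ℕ) : ℝ) - (t : ℝ)) = ((4 * t ^ 2 : ℕ) : ℝ) * (1 + (-(1 / (4 * (t:ℝ))))) := by
    push_cast
    field_simp
    ring
  rw [h5, mul_pow]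
  have h6 : (1 : ℝ) + (t : ℝ) * (-(1 / (4 * (t:ℝ)))) ≤ (1 + (-(1 / (4 * (t:ℝ))))) ^ t := by
    apply one_add_mul_le_pow
    have : 1 / (4 * (t:ℝ)) ≤ 1 := by
      rw [div_le_one (by positivity)]
      linarith
    linarith
  have h7 : (1 : ℝ) + (t : ℝ) * (-(1 / (4 * (t:ℝ)))) = 3 / 4 := by
    field_simp
    norm_num
  rw [h7] at h6
  have h8 : 0 ≤ ((4 * t ^ 2 : ℕ) : ℝ) ^ t := by positivity
  nlinarith

theorem NLS_pow (Q t : ℝ) (hQ : 2 < Q) (ht : 0 < t) :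
    (t / (4 * t ^ 2)) ^ (Q / 2) * ((4 * t ^ 2) * t ^ (Q / 2 - 1)) ≤ t := by
  have e1 : t / (4 * t ^ 2) = (4 * t)⁻¹ := by
    field_simp
  have e2 : (4 * t) ^ (Q / 2) = 4 ^ (Q / 2) * (t ^ (Q / 2 - 1) * t) := by
    rw [Real.mul_rpow (by norm_num) ht.le]
    congr 1
    nth_rewrite 3 [← Real.rpow_one t]
    rw [← Real.rpow_add ht]
    congr 1
    ring
  have h4 : (4 : ℝ) ≤ 4 ^ (Q / 2) := by
    calc (4 : ℝ) = 4 ^ (1 : ℝ) := (Real.rpow_one 4).symm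
      _ ≤ 4 ^ (Q / 2) := Real.rpow_le_rpow_of_exponent_le (by norm_num) (by linarith)
  have hp : 0 < t ^ (Q / 2 - 1) := Real.rpow_pos_of_pos ht _
  have h40 : (0 : ℝ) < 4 ^ (Q / 2) := by linarith
  rw [e1, Real.inv_rpow (by positivity), e2]
  have e3 : (4 ^ (Q / 2) * (t ^ (Q / 2 - 1) * t))⁻¹ * (4 * t ^ 2 * t ^ (Q / 2 - 1)) = 4 / 4 ^ (Q / 2) * t := by
    field_simp
  rw [e3]
  have h5 : 4 / (4 : ℝ) ^ (Q / 2) ≤ 1 := by
    rw [div_le_one h40]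
    exact h4
  nlinarith

theorem p_NLS (hROS : Stmt_ROS) (hSUP : Stmt_SUP) (hSLO : Stmt_SLO) : Stmt_NLS := by
  classical
  intro P C hP1 hP2 hC
  have hP0 : 0 < P := by linarith
  have hP10 : 0 < P - 1 := by linarith
  obtain ⟨Q, hQ⟩ : ∃ Q : ℝ, Q = P / (P - 1) := ⟨_, rfl⟩
  have hQ2 : 2 < Q := by
    rw [hQ, lt_div_iff₀ hP10]
    linarith
  have hQP : Q / P = Q - 1 := by
    rw [hQ]
    field_simp
    ring
  obtain ⟨K₁, hK₁, hS⟩ := hSLO P Q hP1 hP2 hQ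
  obtain ⟨K₂, hK₂, hR⟩ := hROS (Q / 2) (by linarith)
  have hCQ : 1 ≤ C ^ Q := Real.one_le_rpow hC (by linarith)
  obtain ⟨t, ht1, htb⟩ : ∃ t : ℕ, 1 ≤ t ∧ 4 * (K₁ * K₂ * C ^ Q) < (t : ℝ) ^ (Q / 2 - 1) := by
    have h := (tendsto_rpow_atTop (show 0 < Q / 2 - 1 by linarith)).comp
      (tendsto_natCast_atTop_atTop (R := ℝ))
    have h1 := (h.eventually_gt_atTop (4 * (K₁ * K₂ * C ^ Q))).and (Filter.eventually_ge_atTop 1)
    obtain ⟨t, ht⟩ := h1.exists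
    exact ⟨t, ht.2, ht.1⟩
  have htR : (1 : ℝ) ≤ t := by exact_mod_cast ht1
  have ht0 : (0 : ℝ) < t := by linarith
  obtain ⟨δ, hδ⟩ : ∃ δ : ℝ, δ = (t : ℝ) ^ (1 / 2 - 1 / P) := ⟨_, rfl⟩
  have hδ0 : 0 < δ := by
    rw [hδ]
    exact Real.rpow_pos_of_pos ht0 _
  refine ⟨4 * t ^ 2, δ, hδ0, ?_⟩
  intro k j q hqj hj hq
  have e1 : δ ^ P * t = (t : ℝ) ^ (P / 2) := by
    rw [hδ, ← Real.rpow_mul ht0.le]
    nth_rewrite 2 [← Real.rpow_one (t : ℝ)]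
    rw [← Real.rpow_add ht0]
    congr 1
    field_simp
    ring
  have e2 : δ ^ (-Q) = (t : ℝ) ^ (Q / 2 - 1) := by
    rw [hδ, ← Real.rpow_mul ht0.le]
    congr 1
    have : (1 / 2 - 1 / P) * (-Q) = Q / P - Q / 2 := by ring
    rw [this, hQP]
    ring
  obtain ⟨hU1, hU2⟩ := hSUP P Q δ C (4 * t ^ 2) k q hP1 hP2 hQ hδ0 hC hq
  have hinj : ∀ f : Fin t → Fin (4 * t ^ 2), Function.Injective f →
      (t : ℝ) ^ (Q / 2) ≤ K₁ * ∑ i, (∑ s, q (Pi.single i 1) (f s) ^ 2) ^ (Q / 2) :=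
    hS δ (4 * t ^ 2) k t j q hδ0 ht1 e1.le hqj hj
  have hnn : ∀ f : Fin t → Fin (4 * t ^ 2),
      0 ≤ K₁ * ∑ i, (∑ s, q (Pi.single i 1) (f s) ^ 2) ^ (Q / 2) := by
    intro f
    exact mul_nonneg (by linarith) (Finset.sum_nonneg fun i _ =>
      Real.rpow_nonneg (Finset.sum_nonneg fun s _ => sq_nonneg _) _)
  have hA : ((4 * t ^ 2 : ℕ) : ℝ) ^ t / 2 * (t : ℝ) ^ (Q / 2) ≤
      ∑ f : Fin t → Fin (4 * t ^ 2), K₁ * ∑ i, (∑ s, q (Pi.single i 1) (f s) ^ 2) ^ (Q / 2) := by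
    calc ((4 * t ^ 2 : ℕ) : ℝ) ^ t / 2 * (t : ℝ) ^ (Q / 2)
        ≤ ((Finset.univ.filter (fun f : Fin t → Fin (4 * t ^ 2) => Function.Injective f)).card : ℝ) *
            (t : ℝ) ^ (Q / 2) :=
          mul_le_mul_of_nonneg_right (NLS_inj t ht1) (Real.rpow_nonneg ht0.le _)
      _ = ∑ f ∈ Finset.univ.filter (fun f : Fin t → Fin (4 * t ^ 2) => Function.Injective f),
            (t : ℝ) ^ (Q / 2) := by
          rw [Finset.sum_const, nsmul_eq_mul]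
      _ ≤ ∑ f ∈ Finset.univ.filter (fun f : Fin t → Fin (4 * t ^ 2) => Function.Injective f),
            K₁ * ∑ i, (∑ s, q (Pi.single i 1) (f s) ^ 2) ^ (Q / 2) :=
          Finset.sum_le_sum fun f hf => hinj f (Finset.mem_filter.mp hf).2
      _ ≤ _ := Finset.sum_le_sum_of_subset_of_nonneg (Finset.filter_subset _ _) (fun f _ _ => hnn f)
  have hB : ∑ f : Fin t → Fin (4 * t ^ 2), K₁ * ∑ i, (∑ s, q (Pi.single i 1) (f s) ^ 2) ^ (Q / 2) =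
      K₁ * ∑ i, ∑ f : Fin t → Fin (4 * t ^ 2), (∑ s, q (Pi.single i 1) (f s) ^ 2) ^ (Q / 2) := by
    rw [← Finset.mul_sum, Finset.sum_comm]
  obtain ⟨M, hM⟩ : ∃ M : ℝ, M = ((4 * t ^ 2 : ℕ) : ℝ) := ⟨_, rfl⟩
  have hMv : M = 4 * (t : ℝ) ^ 2 := by
    rw [hM]
    push_cast
    ring
  have hM0 : 0 < M := by
    rw [hMv]
    positivity
  have hC1 : ∀ i, ∑ f : Fin t → Fin (4 * t ^ 2), (∑ s, q (Pi.single i 1) (f s) ^ 2) ^ (Q / 2) ≤
      M ^ t * (K₂ * ((t : ℝ) / M * ∑ l, |q (Pi.single i 1) l| ^ Q +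
        ((t : ℝ) / M) ^ (Q / 2) * (∑ l, q (Pi.single i 1) l ^ 2) ^ (Q / 2))) := by
    intro i
    have h := hR (4 * t ^ 2) t (fun l => q (Pi.single i 1) l ^ 2) (by nlinarith) (fun l => sq_nonneg _)
    have h1 : ∀ l, (q (Pi.single i 1) l ^ 2) ^ (Q / 2) = |q (Pi.single i 1) l| ^ Q := by
      intro l
      rw [← sq_abs, ← Real.rpow_natCast, ← Real.rpow_mul (abs_nonneg _)]
      congr 1
      push_cast
      ring
    rw [← hM] at h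
    rw [Real.mul_rpow (by positivity) (Finset.sum_nonneg fun l _ => sq_nonneg _)] at h
    simp only [h1] at h
    exact h
  have hD : ∑ i, ∑ f : Fin t → Fin (4 * t ^ 2), (∑ s, q (Pi.single i 1) (f s) ^ 2) ^ (Q / 2) ≤
      M ^ t * (K₂ * (2 * (C ^ Q * t))) := by
    refine (Finset.sum_le_sum fun i _ => hC1 i).trans ?_
    rw [← Finset.mul_sum, ← Finset.mul_sum, Finset.sum_add_distrib, ← Finset.mul_sum, ← Finset.mul_sum]
    refine mul_le_mul_of_nonneg_left (mul_le_mul_of_nonneg_left ?_ (by linarith)) (by positivity)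
    have hs1 : ∑ i, ∑ l, |q (Pi.single i 1) l| ^ Q ≤ M * C ^ Q := by
      rw [Finset.sum_comm]
      refine (Finset.sum_le_sum fun l _ => hU1 l).trans ?_
      rw [Finset.sum_const, Finset.card_univ, Fintype.card_fin, nsmul_eq_mul, ← hM]
    have hs2 : (t : ℝ) / M * ∑ i, ∑ l, |q (Pi.single i 1) l| ^ Q ≤ C ^ Q * t := by
      calc (t : ℝ) / M * ∑ i, ∑ l, |q (Pi.single i 1) l| ^ Q ≤ (t : ℝ) / M * (M * C ^ Q) :=
            mul_le_mul_of_nonneg_left hs1 (by positivity)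
        _ = C ^ Q * t := by
            field_simp
    have hs3 : ((t : ℝ) / M) ^ (Q / 2) * ∑ i, (∑ l, q (Pi.single i 1) l ^ 2) ^ (Q / 2) ≤ C ^ Q * t := by
      calc ((t : ℝ) / M) ^ (Q / 2) * ∑ i, (∑ l, q (Pi.single i 1) l ^ 2) ^ (Q / 2)
          ≤ ((t : ℝ) / M) ^ (Q / 2) * (C ^ Q * (((4 * t ^ 2 : ℕ) : ℝ) * δ ^ (-Q))) :=
            mul_le_mul_of_nonneg_left hU2 (Real.rpow_nonneg (by positivity) _)
        _ = C ^ Q * (((t : ℝ) / (4 * (t : ℝ) ^ 2)) ^ (Q / 2) * ((4 * (t : ℝ) ^ 2) * (t : ℝ) ^ (Q / 2 - 1))) := by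
            rw [e2, ← hM, hMv]
            ring
        _ ≤ C ^ Q * t := mul_le_mul_of_nonneg_left (NLS_pow Q t hQ2 ht0) (by linarith)
    linarith
  have hE : M ^ t / 2 * (t : ℝ) ^ (Q / 2) ≤ K₁ * (M ^ t * (K₂ * (2 * (C ^ Q * t)))) := by
    rw [hM]
    rw [hM] at hD
    refine hA.trans ?_
    rw [hB]
    exact mul_le_mul_of_nonneg_left hD (by linarith)
  have e3 : (t : ℝ) ^ (Q / 2) = (t : ℝ) ^ (Q / 2 - 1) * t := by
    nth_rewrite 3 [← Real.rpow_one (t : ℝ)]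
    rw [← Real.rpow_add ht0]
    congr 1
    ring
  rw [e3] at hE
  have hMt : 0 < M ^ t := by positivity
  have hF : (M ^ t * t) * ((t : ℝ) ^ (Q / 2 - 1)) ≤ (M ^ t * t) * (4 * (K₁ * K₂ * C ^ Q)) := by
    nlinarith
  have hG := le_of_mul_le_mul_left hF (by positivity)
  linarith

end Pool.GG
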