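import Pool.Agent.Work.MP_3e8c7a_gg.InterfaceP

/-! # Block ROS (helper71) -/

set_option autoImplicit false

namespace Pool.GG

open Module Pool.Agent.MP3e8c7a Pool.Agent.MP3e8c7as Pool.RG
open Pool.RX (rad)

theorem ROS_swap {m t : ℕ} (s : Fin t) (φ : Fin m → ℝ) (ψ : (Fin t → Fin m) → ℝ)
    (hψ : ∀ f c, ψ (Function.update f s c) = ψ f) :
    (m : ℝ) * ∑ f : Fin t → Fin m, φ (f s) * ψ f = (∑ l, φ l) * ∑ f, ψ f := by
  let e : Equiv.Perm ((Fin t → Fin m) × Fin m) :=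
    Function.Involutive.toPerm (fun p => (Function.update p.1 s p.2, p.1 s)) (by
      rintro ⟨f, c⟩
      simp)
  calc (m : ℝ) * ∑ f : Fin t → Fin m, φ (f s) * ψ f
      = ∑ p : (Fin t → Fin m) × Fin m, φ (p.1 s) * ψ p.1 := by
        rw [Fintype.sum_prod_type, Finset.mul_sum]
        refine Finset.sum_congr rfl fun f _ => ?_
        simp
    _ = ∑ p : (Fin t → Fin m) × Fin m, φ ((e p).1 s) * ψ (e p).1 :=
        (Equiv.sum_comp e (fun p => φ (p.1 s) * ψ p.1)).symm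
    _ = ∑ p : (Fin t → Fin m) × Fin m, φ p.2 * ψ p.1 := by
        refine Finset.sum_congr rfl fun p _ => ?_
        have h1 : (e p).1 = Function.update p.1 s p.2 := rfl
        rw [h1, hψ, Function.update_self]
    _ = (∑ l, φ l) * ∑ f, ψ f := by
        rw [Fintype.sum_prod_type, Finset.mul_sum]
        refine Finset.sum_congr rfl fun f _ => ?_
        rw [Finset.sum_mul]

theorem ROS_two (r x y : ℝ) (hr : 1 ≤ r) (hx : 0 ≤ x) (hy : 0 ≤ y) :
    (x + y) ^ (r - 1) ≤ 2 ^ r * (x ^ (r - 1) + y ^ (r - 1)) := by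
  have h1 : 0 ≤ r - 1 := by linarith
  have hmax : 0 ≤ max x y := le_trans hx (le_max_left _ _)
  have h2 : (x + y) ^ (r - 1) ≤ (2 * max x y) ^ (r - 1) := by
    refine Real.rpow_le_rpow (by linarith) ?_ h1
    have := le_max_left x y
    have := le_max_right x y
    linarith
  rw [Real.mul_rpow (by norm_num) hmax] at h2
  have h3 : (max x y) ^ (r - 1) ≤ x ^ (r - 1) + y ^ (r - 1) := by
    have hx' := Real.rpow_nonneg hx (r - 1)
    have hy' := Real.rpow_nonneg hy (r - 1)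
    rcases le_total x y with h | h
    · rw [max_eq_right h]
      linarith
    · rw [max_eq_left h]
      linarith
  have h4 : (2 : ℝ) ^ (r - 1) ≤ 2 ^ r :=
    Real.rpow_le_rpow_of_exponent_le (by norm_num) (by linarith)
  calc (x + y) ^ (r - 1) ≤ 2 ^ (r - 1) * (max x y) ^ (r - 1) := h2
    _ ≤ 2 ^ r * (x ^ (r - 1) + y ^ (r - 1)) :=
        mul_le_mul h4 h3 (Real.rpow_nonneg hmax _) (Real.rpow_nonneg (by norm_num) _)

theorem ROS_pow (r x : ℝ) (hr : 1 ≤ r) (hx : 0 ≤ x) : x ^ r = x * x ^ (r - 1) := by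
  have h := Real.rpow_one_add' hx (y := r - 1) (by
    intro h0
    have : r = 0 := by linarith
    linarith)
  have h1 : 1 + (r - 1) = r := by ring
  rwa [h1] at h

theorem ROS_young (r x lam : ℝ) (hr : 1 ≤ r) (hx : 0 ≤ x) (hlam : 0 < lam) :
    x ^ (r - 1) ≤ lam ^ (r - 1) + x ^ r / lam := by
  have h1 : 0 ≤ r - 1 := by linarith
  rcases le_total x lam with h | h
  · have h2 : x ^ (r - 1) ≤ lam ^ (r - 1) := Real.rpow_le_rpow hx h h1
    have h3 : 0 ≤ x ^ r / lam := div_nonneg (Real.rpow_nonneg hx _) hlam.le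
    linarith
  · have h2 : x ^ (r - 1) ≤ x ^ r / lam := by
      rw [le_div_iff₀ hlam, ROS_pow r x hr hx, mul_comm]
      exact mul_le_mul_of_nonneg_right h (Real.rpow_nonneg hx _)
    have h3 : 0 ≤ lam ^ (r - 1) := Real.rpow_nonneg hlam.le _
    linarith

theorem p_ROS : Stmt_ROS := by
  intro r hr
  have h20 : (0 : ℝ) ≤ 2 ^ (r + 1) := Real.rpow_nonneg (by norm_num) _
  have h21 : (1 : ℝ) ≤ 2 ^ (r + 1) := Real.one_le_rpow (by norm_num) (by linarith)
  have h2p : (0 : ℝ) < 2 ^ (r + 1) := by linarith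
  have hK2 : (0 : ℝ) ≤ (2 ^ (r + 1) : ℝ) ^ r := Real.rpow_nonneg h20 _
  refine ⟨2 ^ (r + 1) + (2 ^ (r + 1) : ℝ) ^ r, by linarith, ?_⟩
  intro m t X hm hX
  have hm0 : (0 : ℝ) < m := by exact_mod_cast hm
  have h2r : (2 : ℝ) ^ (r + 1) = 2 * 2 ^ r := by
    rw [Real.rpow_add (by norm_num), Real.rpow_one, mul_comm]
  have h2r0 : (0 : ℝ) < 2 ^ r := Real.rpow_pos_of_pos (by norm_num) _
  set S : (Fin t → Fin m) → ℝ := fun f => ∑ s, X (f s) with hS
  have hS0 : ∀ f, 0 ≤ S f := fun f => Finset.sum_nonneg fun s _ => hX _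
  set R : Fin t → (Fin t → Fin m) → ℝ := fun s f => ∑ u ∈ Finset.univ.erase s, X (f u) with hR
  have hR0 : ∀ s f, 0 ≤ R s f := fun s f => Finset.sum_nonneg fun u _ => hX _
  have hSR : ∀ s f, S f = X (f s) + R s f := fun s f =>
    (Finset.add_sum_erase Finset.univ (fun u => X (f u)) (Finset.mem_univ s)).symm
  have hRup : ∀ s f c, R s (Function.update f s c) = R s f := by
    intro s f c
    refine Finset.sum_congr rfl fun u hu => ?_
    rw [Function.update_of_ne (Finset.ne_of_mem_erase hu)]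
  set A : ℝ := ∑ l, X l ^ r with hA
  set B : ℝ := ∑ l, X l with hB
  have hA0 : 0 ≤ A := Finset.sum_nonneg fun l _ => Real.rpow_nonneg (hX l) _
  have hB0 : 0 ≤ B := Finset.sum_nonneg fun l _ => hX l
  set M : ℝ := (m : ℝ) ^ t with hM
  have hM0 : 0 ≤ M := by positivity
  set W : ℝ := ∑ f, S f ^ r with hW
  set V : ℝ := ∑ f, S f ^ (r - 1) with hV
  have hW0 : 0 ≤ W := Finset.sum_nonneg fun f _ => Real.rpow_nonneg (hS0 f) _
  -- pointwise
  have hpt : ∀ f, S f ^ r ≤ ∑ s, 2 ^ r * (X (f s) ^ r + X (f s) * R s f ^ (r - 1)) := by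
    intro f
    rw [ROS_pow r (S f) hr (hS0 f)]
    have h1 : S f * S f ^ (r - 1) = ∑ s, X (f s) * S f ^ (r - 1) := by
      rw [← Finset.sum_mul]
    rw [h1]
    refine Finset.sum_le_sum fun s _ => ?_
    have h2 : S f ^ (r - 1) ≤ 2 ^ r * (X (f s) ^ (r - 1) + R s f ^ (r - 1)) := by
      rw [hSR s f]
      exact ROS_two r _ _ hr (hX _) (hR0 s f)
    calc X (f s) * S f ^ (r - 1) ≤ X (f s) * (2 ^ r * (X (f s) ^ (r - 1) + R s f ^ (r - 1))) :=
          mul_le_mul_of_nonneg_left h2 (hX _)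
      _ = 2 ^ r * (X (f s) ^ r + X (f s) * R s f ^ (r - 1)) := by
          rw [ROS_pow r (X (f s)) hr (hX _)]
          ring
  have hcard : ∑ _f : Fin t → Fin m, (1 : ℝ) = M := by
    simp [hM]
  have hsum : (m : ℝ) * W ≤ 2 ^ r * (t * (A * M + B * V)) := by
    have h1 : W ≤ ∑ f, ∑ s, 2 ^ r * (X (f s) ^ r + X (f s) * R s f ^ (r - 1)) :=
      Finset.sum_le_sum fun f _ => hpt f
    rw [Finset.sum_comm] at h1
    have h2 : ∀ s : Fin t, (m : ℝ) * ∑ f, 2 ^ r * (X (f s) ^ r + X (f s) * R s f ^ (r - 1)) ≤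
        2 ^ r * (A * M + B * V) := by
      intro s
      have h3 := ROS_swap s (fun l => X l ^ r) (fun _ => 1) (fun _ _ => rfl)
      have h4 := ROS_swap s (fun l => X l) (fun f => R s f ^ (r - 1)) (fun f c => by
        change R s (Function.update f s c) ^ (r - 1) = R s f ^ (r - 1)
        rw [hRup])
      rw [hcard] at h3
      simp only [mul_one] at h3
      have h5 : ∑ f : Fin t → Fin m, R s f ^ (r - 1) ≤ V := by
        refine Finset.sum_le_sum fun f _ => Real.rpow_le_rpow (hR0 s f) ?_ (by linarith)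
        rw [hSR s f]
        linarith [hX (f s)]
      rw [← Finset.mul_sum, Finset.sum_add_distrib]
      calc (m : ℝ) * (2 ^ r * (∑ f : Fin t → Fin m, X (f s) ^ r + ∑ f : Fin t → Fin m, X (f s) * R s f ^ (r - 1)))
          = 2 ^ r * ((m : ℝ) * ∑ f : Fin t → Fin m, X (f s) ^ r + (m : ℝ) * ∑ f : Fin t → Fin m, X (f s) * R s f ^ (r - 1)) := by
            ring
        _ = 2 ^ r * (A * M + B * ∑ f : Fin t → Fin m, R s f ^ (r - 1)) := by rw [h3, h4]
        _ ≤ 2 ^ r * (A * M + B * V) := by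
            refine mul_le_mul_of_nonneg_left ?_ h2r0.le
            have := mul_le_mul_of_nonneg_left h5 hB0
            linarith
    calc (m : ℝ) * W ≤ (m : ℝ) * ∑ s : Fin t, ∑ f, 2 ^ r * (X (f s) ^ r + X (f s) * R s f ^ (r - 1)) :=
          mul_le_mul_of_nonneg_left h1 hm0.le
      _ = ∑ s : Fin t, (m : ℝ) * ∑ f, 2 ^ r * (X (f s) ^ r + X (f s) * R s f ^ (r - 1)) := by
          rw [Finset.mul_sum]
      _ ≤ ∑ _s : Fin t, 2 ^ r * (A * M + B * V) := Finset.sum_le_sum fun s _ => h2 s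
      _ = 2 ^ r * (t * (A * M + B * V)) := by
          simp
          ring
  set a : ℝ := (t : ℝ) / m * B with ha
  have ha0 : 0 ≤ a := by positivity
  have hc0 : 0 ≤ (t : ℝ) / m * A := by positivity
  have hW1 : W ≤ 2 ^ r * (M * ((t : ℝ) / m * A) + a * V) := by
    have h1 : W = (m : ℝ) * W / m := by field_simp
    rw [h1, div_le_iff₀ hm0]
    refine le_trans hsum (le_of_eq ?_)
    rw [ha]
    field_simp
  have hgoal : W ≤ M * ((2 ^ (r + 1) + (2 ^ (r + 1) : ℝ) ^ r) * ((t : ℝ) / m * A + a ^ r)) := by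
    have har0 : 0 ≤ a ^ r := Real.rpow_nonneg ha0 _
    rcases ha0.eq_or_lt with h0 | hpos
    · rw [← h0, zero_mul, add_zero] at hW1
      refine le_trans hW1 ?_
      have h5 : (2 : ℝ) ^ r ≤ 2 ^ (r + 1) + (2 ^ (r + 1) : ℝ) ^ r := by
        rw [h2r] at hK2 ⊢
        linarith
      calc (2 : ℝ) ^ r * (M * ((t : ℝ) / m * A))
          = M * (2 ^ r * ((t : ℝ) / m * A)) := by ring
        _ ≤ M * ((2 ^ (r + 1) + (2 ^ (r + 1) : ℝ) ^ r) * ((t : ℝ) / m * A + a ^ r)) := by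
            refine mul_le_mul_of_nonneg_left ?_ hM0
            exact mul_le_mul h5 (by linarith) hc0 (by linarith)
    · have hlam : 0 < 2 ^ (r + 1) * a := by positivity
      have hV1 : V ≤ M * (2 ^ (r + 1) * a) ^ (r - 1) + W / (2 ^ (r + 1) * a) := by
        have h1 : V ≤ ∑ f, ((2 ^ (r + 1) * a) ^ (r - 1) + S f ^ r / (2 ^ (r + 1) * a)) :=
          Finset.sum_le_sum fun f _ => ROS_young r (S f) _ hr (hS0 f) hlam
        rw [Finset.sum_add_distrib, ← Finset.sum_div] at h1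
        have h2 : ∑ _f : Fin t → Fin m, (2 ^ (r + 1) * a) ^ (r - 1) =
            M * (2 ^ (r + 1) * a) ^ (r - 1) := by
          rw [← hcard, Finset.sum_mul]
          simp
        rw [h2] at h1
        exact h1
      have h3 : a * V ≤ M * (a * (2 ^ (r + 1) * a) ^ (r - 1)) + W / 2 ^ (r + 1) := by
        refine le_trans (mul_le_mul_of_nonneg_left hV1 ha0) (le_of_eq ?_)
        field_simp
      have h4 : 2 ^ (r + 1) * (a * (2 ^ (r + 1) * a) ^ (r - 1)) = (2 ^ (r + 1) : ℝ) ^ r * a ^ r := by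
        rw [← mul_assoc, ← ROS_pow r _ hr hlam.le, Real.mul_rpow h20 ha0]
      have h5 : 2 ^ r * (W / 2 ^ (r + 1)) = W / 2 := by
        rw [h2r]
        field_simp
      have h6 : W ≤ 2 ^ r * (M * ((t : ℝ) / m * A)) +
          2 ^ r * (M * (a * (2 ^ (r + 1) * a) ^ (r - 1))) + W / 2 := by
        have h7 : 2 ^ r * (M * ((t : ℝ) / m * A) + a * V) ≤ 2 ^ r * (M * ((t : ℝ) / m * A)) +
            2 ^ r * (M * (a * (2 ^ (r + 1) * a) ^ (r - 1))) + 2 ^ r * (W / 2 ^ (r + 1)) := by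
          have := mul_le_mul_of_nonneg_left h3 h2r0.le
          linarith
        rw [h5] at h7
        linarith
      have h8 : W ≤ M * (2 ^ (r + 1) * ((t : ℝ) / m * A)) +
          M * (2 ^ (r + 1) * (a * (2 ^ (r + 1) * a) ^ (r - 1))) := by
        rw [h2r] at h6 ⊢
        linarith
      rw [h4] at h8
      refine le_trans h8 ?_
      rw [← mul_add]
      refine mul_le_mul_of_nonneg_left ?_ hM0
      have h9 : 0 ≤ (2 ^ (r + 1) : ℝ) ^ r * ((t : ℝ) / m * A) := mul_nonneg hK2 hc0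
      have h10 : 0 ≤ (2 : ℝ) ^ (r + 1) * a ^ r := mul_nonneg h20 har0
      linarith
  exact hgoal

end Pool.GG
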