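import Pool.Agent.Work.MP_3e8c7a_gg.InterfaceP

set_option autoImplicit false

namespace Pool.GG

open Module Pool.Agent.MP3e8c7a Pool.Agent.MP3e8c7as Pool.RG
open Pool.RX (rad)

/-- The vector with signs `g` on the range of `f`. -/
noncomputable def SLO_y {m t : ℕ} (f : Fin t → Fin m) (g : Fin t → Bool) (l : Fin m) : ℝ :=
  ∑ s, if f s = l then Pool.RX.sgn (g s) else 0

theorem SLO_sgn_sq (c : Bool) : Pool.RX.sgn c ^ 2 = 1 := by
  cases c <;> simp [Pool.RX.sgn]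

theorem SLO_sgn_abs (c : Bool) : |Pool.RX.sgn c| = 1 := by
  cases c <;> simp [Pool.RX.sgn]

theorem SLO_y_at {m t : ℕ} {f : Fin t → Fin m} (hf : Function.Injective f) (g : Fin t → Bool) (s : Fin t) :
    SLO_y f g (f s) = Pool.RX.sgn (g s) := by
  unfold SLO_y
  rw [Finset.sum_eq_single s]
  · simp
  · intro b _ hb
    rw [if_neg fun h => hb (hf h)]
  · intro h
    exact absurd (Finset.mem_univ s) h

theorem SLO_y_off {m t : ℕ} {f : Fin t → Fin m} (g : Fin t → Bool) {l : Fin m} (h : ∀ s, f s ≠ l) :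
    SLO_y f g l = 0 := by
  unfold SLO_y
  exact Finset.sum_eq_zero fun s _ => if_neg (h s)

theorem SLO_sum {m t : ℕ} {f : Fin t → Fin m} (hf : Function.Injective f) (w : Fin m → ℝ)
    (hw : ∀ l, (∀ s, f s ≠ l) → w l = 0) : ∑ l, w l = ∑ s, w (f s) := by
  rw [← Finset.sum_image (s := Finset.univ) (g := f) (f := w) (fun a _ b _ h => hf h)]
  symm
  apply Finset.sum_subset (Finset.subset_univ _)
  intro l _ hl
  apply hw
  intro s hs
  exact hl (Finset.mem_image.2 ⟨s, Finset.mem_univ _, hs⟩)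

theorem SLO_lin {m t : ℕ} (f : Fin t → Fin m) (g : Fin t → Bool) (w : Fin m → ℝ) :
    ∑ l, SLO_y f g l * w l = rad g (fun s => w (f s)) := by
  unfold SLO_y Pool.RX.rad
  simp_rw [Finset.sum_mul]
  rw [Finset.sum_comm]
  refine Finset.sum_congr rfl fun s _ => ?_
  rw [Finset.sum_eq_single (f s)]
  · simp
  · intro b _ hb
    rw [if_neg fun h => hb h.symm, zero_mul]
  · intro h
    exact absurd (Finset.mem_univ _) h

theorem SLO_expand {m k : ℕ} (q : (Fin k → ℝ) →ₗ[ℝ] (Fin m → ℝ)) (x : Fin k → ℝ) (l : Fin m) :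
    q x l = ∑ i, x i * q (Pi.single i 1) l := by
  have h : x = ∑ i, x i • (Pi.single i (1 : ℝ) : Fin k → ℝ) := by
    funext j
    simp [Finset.sum_apply, Pi.single_apply]
  conv_lhs => rw [h]
  rw [map_sum, Finset.sum_apply]
  refine Finset.sum_congr rfl fun i _ => ?_
  rw [map_smul, Pi.smul_apply, smul_eq_mul]

/-- One choice of signs. -/
theorem SLO_one (h2 : Stmt_JEN) (h3 : Stmt_HLD) {P Q : ℝ} (hP : 1 < P) (hP2 : P < 2) (hQ : Q = P / (P - 1))
    {δ : ℝ} {m k t : ℕ} (j : (Fin m → ℝ) →ₗ[ℝ] (Fin k → ℝ)) (q : (Fin k → ℝ) →ₗ[ℝ] (Fin m → ℝ))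
    (ht : 1 ≤ t) (hδt : δ ^ P * t ≤ (t : ℝ) ^ (P / 2)) (hqj : ∀ a, q (j a) = a)
    (hj : ∀ a, ∑ i, |j a i| ^ P ≤ NX P δ a) {f : Fin t → Fin m} (hf : Function.Injective f) (g : Fin t → Bool) :
    (t : ℝ) ^ (Q / 2) ≤ 2 ^ (Q / P) * ∑ i, |rad g (fun s => q (Pi.single i 1) (f s))| ^ Q := by
  have hP0 : 0 < P := by linarith
  have hP1 : 0 < P - 1 := by linarith
  have hQ0 : 0 < Q := by rw [hQ]; positivity
  have ht0 : (0 : ℝ) < t := by exact_mod_cast ht
  set y : Fin m → ℝ := SLO_y f g with hy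
  set v : Fin k → ℝ := fun i => rad g (fun s => q (Pi.single i 1) (f s)) with hv
  have hsq : ∑ l, y l ^ 2 = t := by
    rw [SLO_sum hf (fun l => y l ^ 2) (fun l hl => by simp [hy, SLO_y_off g hl])]
    simp [hy, SLO_y_at hf, SLO_sgn_sq]
  have habs : ∑ l, |y l| ^ P = t := by
    rw [SLO_sum hf (fun l => |y l| ^ P) (fun l hl => by simp [hy, SLO_y_off g hl, Real.zero_rpow hP0.ne'])]
    simp [hy, SLO_y_at hf, SLO_sgn_abs]
  have hNX : NX P δ y ≤ 2 * (t : ℝ) ^ (P / 2) := by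
    have h := (h2 P m y).2.1 hP0 hP2.le
    rw [hsq] at h
    have h' : (∑ g : Fin m → Bool, |rad g y| ^ P) / 2 ^ m ≤ (t : ℝ) ^ (P / 2) := by
      rw [div_le_iff₀ (by positivity)]
      linarith
    unfold NX
    rw [habs]
    linarith
  have hsum : (t : ℝ) = ∑ i, (j y) i * v i := by
    calc (t : ℝ) = ∑ l, y l * y l := by rw [← hsq]; exact Finset.sum_congr rfl fun l _ => by ring
      _ = ∑ l, y l * q (j y) l := by rw [hqj]
      _ = ∑ l, ∑ i, (j y) i * (y l * q (Pi.single i 1) l) := by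
          refine Finset.sum_congr rfl fun l _ => ?_
          rw [SLO_expand q (j y) l, Finset.mul_sum]
          exact Finset.sum_congr rfl fun i _ => by ring
      _ = ∑ i, (j y) i * v i := by
          rw [Finset.sum_comm]
          refine Finset.sum_congr rfl fun i _ => ?_
          rw [← Finset.mul_sum, hv]
          congr 1
          exact SLO_lin f g (q (Pi.single i 1))
  have hH := (h3 P Q hP hQ k v).2 (j y)
  rw [← hsum, abs_of_pos ht0] at hH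
  set V : ℝ := ∑ i, |v i| ^ Q with hV
  have hV0 : 0 ≤ V := Finset.sum_nonneg fun i _ => Real.rpow_nonneg (abs_nonneg _) _
  have hS0 : 0 ≤ ∑ i, |j y i| ^ P := Finset.sum_nonneg fun i _ => Real.rpow_nonneg (abs_nonneg _) _
  have h4 : (t : ℝ) ≤ (2 * (t : ℝ) ^ (P / 2)) ^ (1 / P) * V ^ (1 / Q) := by
    refine hH.trans ?_
    refine mul_le_mul_of_nonneg_right ?_ (Real.rpow_nonneg hV0 _)
    exact Real.rpow_le_rpow hS0 ((hj y).trans hNX) (by positivity)
  have h5 : (t : ℝ) ^ Q ≤ ((2 * (t : ℝ) ^ (P / 2)) ^ (1 / P) * V ^ (1 / Q)) ^ Q :=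
    Real.rpow_le_rpow ht0.le h4 hQ0.le
  have htp : 0 ≤ (t : ℝ) ^ (P / 2) := Real.rpow_nonneg ht0.le _
  have h6 : ((2 * (t : ℝ) ^ (P / 2)) ^ (1 / P) * V ^ (1 / Q)) ^ Q = 2 ^ (Q / P) * (t : ℝ) ^ (Q / 2) * V := by
    rw [Real.mul_rpow (Real.rpow_nonneg (by positivity) _) (Real.rpow_nonneg hV0 _), ← Real.rpow_mul (by positivity),
      ← Real.rpow_mul hV0, one_div_mul_cancel hQ0.ne', Real.rpow_one, Real.mul_rpow (by norm_num) htp,
      ← Real.rpow_mul ht0.le]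
    congr 2
    · congr 1
      field_simp
    · congr 1
      field_simp
  rw [h6] at h5
  have h7 : (t : ℝ) ^ Q = (t : ℝ) ^ (Q / 2) * (t : ℝ) ^ (Q / 2) := by
    rw [← Real.rpow_add ht0]
    congr 1
    ring
  rw [h7] at h5
  have h8 : 0 < (t : ℝ) ^ (Q / 2) := Real.rpow_pos_of_pos ht0 _
  have h9 : (t : ℝ) ^ (Q / 2) * (t : ℝ) ^ (Q / 2) ≤ (t : ℝ) ^ (Q / 2) * (2 ^ (Q / P) * V) := by linarith
  exact le_of_mul_le_mul_left h9 h8

theorem p_SLO (h1 : Stmt_KHU) (h2 : Stmt_JEN) (h3 : Stmt_HLD) : Stmt_SLO := by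
  intro P Q hP hP2 hQ
  have hP0 : 0 < P := by linarith
  have hP1 : 0 < P - 1 := by linarith
  have hQ2 : 2 ≤ Q := by
    rw [hQ, le_div_iff₀ hP1]
    linarith
  obtain ⟨K₀, hK₀, hK⟩ := h1 Q hQ2
  refine ⟨2 ^ (Q / P) * K₀, ?_, ?_⟩
  · have : (1 : ℝ) ≤ 2 ^ (Q / P) := Real.one_le_rpow (by norm_num) (by positivity)
    nlinarith
  intro δ m k t j q _ ht hδt hqj hj f hf
  have hone := fun g => SLO_one h2 h3 hP hP2 hQ j q ht hδt hqj hj hf g
  have hsum : ∑ g : Fin t → Bool, (t : ℝ) ^ (Q / 2) ≤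
      ∑ g : Fin t → Bool, 2 ^ (Q / P) * ∑ i, |rad g (fun s => q (Pi.single i 1) (f s))| ^ Q :=
    Finset.sum_le_sum fun g _ => hone g
  rw [Finset.sum_const, Finset.card_univ, Fintype.card_fun, Fintype.card_bool, Fintype.card_fin, nsmul_eq_mul,
    ← Finset.mul_sum, Finset.sum_comm] at hsum
  push_cast at hsum
  have h3' : ∑ i, ∑ g : Fin t → Bool, |rad g (fun s => q (Pi.single i 1) (f s))| ^ Q ≤
      2 ^ t * (K₀ * ∑ i, (∑ s, q (Pi.single i 1) (f s) ^ 2) ^ (Q / 2)) := by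
    rw [Finset.mul_sum, Finset.mul_sum]
    exact Finset.sum_le_sum fun i _ => hK t (fun s => q (Pi.single i 1) (f s))
  have h4 : (2 : ℝ) ^ t * (t : ℝ) ^ (Q / 2) ≤
      2 ^ t * (2 ^ (Q / P) * K₀ * ∑ i, (∑ s, q (Pi.single i 1) (f s) ^ 2) ^ (Q / 2)) := by
    refine hsum.trans ?_
    have : (0 : ℝ) ≤ 2 ^ (Q / P) := by positivity
    refine (mul_le_mul_of_nonneg_left h3' this).trans (le_of_eq (by ring))
  exact le_of_mul_le_mul_left h4 (by positivity)

end Pool.GG
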