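import Pool.Agent.Work.MP_3e8c7a_gg.InterfaceP

/-!
# MP_3e8c7a_an, THEOREM GG, block SUP: upper estimates
-/

set_option autoImplicit false

namespace Pool.GG

open Module Pool.Agent.MP3e8c7a Pool.Agent.MP3e8c7as Pool.RG
open Pool.RX (rad)

theorem SUP_lin {k m : ℕ} (q : (Fin k → ℝ) →ₗ[ℝ] (Fin m → ℝ)) (x : Fin k → ℝ) (l : Fin m) :
    q x l = ∑ i, x i * q (Pi.single i 1) l := by
  have h : x = ∑ i, x i • (Pi.single i (1 : ℝ) : Fin k → ℝ) := by
    funext j
    rw [Finset.sum_apply]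
    simp [Pi.single_apply]
  conv_lhs => rw [h]
  rw [map_sum, Finset.sum_apply]
  refine Finset.sum_congr rfl fun i _ => ?_
  rw [map_smul]
  rfl

theorem SUP_rad {k m : ℕ} (q : (Fin k → ℝ) →ₗ[ℝ] (Fin m → ℝ)) (x : Fin k → ℝ)
    (g : Fin m → Bool) : rad g (q x) = ∑ i, x i * rad g (q (Pi.single i 1)) := by
  unfold rad
  have h : ∀ l, Pool.RX.sgn (g l) * q x l
      = ∑ i, x i * (Pool.RX.sgn (g l) * q (Pi.single i 1) l) := by
    intro l
    rw [SUP_lin q x l, Finset.mul_sum]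
    refine Finset.sum_congr rfl fun i _ => ?_
    ring
  rw [Finset.sum_congr rfl fun l _ => h l, Finset.sum_comm]
  refine Finset.sum_congr rfl fun i _ => ?_
  rw [Finset.mul_sum]

/-- Taking roots. -/
theorem SUP_root {P u S c : ℝ} (hP : 0 < P) (hu : 0 ≤ u) (hS : 0 ≤ S) (hc : 0 ≤ c)
    (h : u ^ P ≤ c ^ P * S) : u ≤ c * S ^ (1 / P) := by
  have h1 := Real.rpow_le_rpow (Real.rpow_nonneg hu P) h (by positivity : 0 ≤ P⁻¹)
  rw [Real.rpow_rpow_inv hu hP.ne', Real.mul_rpow (Real.rpow_nonneg hc P) hS,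
    Real.rpow_rpow_inv hc hP.ne'] at h1
  rw [one_div]
  exact h1

theorem SUP_sum_nonneg {n : ℕ} (x : Fin n → ℝ) (P : ℝ) : 0 ≤ ∑ i, |x i| ^ P :=
  Finset.sum_nonneg fun _ _ => Real.rpow_nonneg (abs_nonneg _) _

theorem SUP_sgn (c : Bool) : |Pool.RX.sgn c| = 1 := by
  unfold Pool.RX.sgn
  cases c
  · simp
  · simp

theorem p_SUP (hJEN : Stmt_JEN) (hHLD : Stmt_HLD) : Stmt_SUP := by
  intro P Q δ C m k q hP1 hP2 hQ hδ hC hq
  have hP0 : 0 < P := by linarith
  have hC0 : 0 < C := by linarith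
  have hQ2 : 2 ≤ Q := by
    rw [hQ, le_div_iff₀ (by linarith)]
    linarith
  have hQ0 : 0 < Q := by linarith
  have hrs : ∀ a : Fin m → ℝ, 0 ≤ (∑ g : Fin m → Bool, |rad g a| ^ P) / 2 ^ m := fun a =>
    div_nonneg (Finset.sum_nonneg fun g _ => Real.rpow_nonneg (abs_nonneg _) _) (by positivity)
  have hδP : 0 < δ ^ P := Real.rpow_pos_of_pos hδ P
  constructor
  · intro l
    refine (hHLD P Q hP1 hQ k (fun i => q (Pi.single i 1) l)).1 C hC0.le fun x => ?_
    rw [← SUP_lin q x l]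
    refine SUP_root hP0 (abs_nonneg _) (SUP_sum_nonneg x P) hC0.le ?_
    refine le_trans ?_ (hq x)
    have h1 := (hJEN P m (q x)).2.2 hP1.le l
    unfold NX
    have h2 : |q x l| ^ P ≤ (∑ g : Fin m → Bool, |rad g (q x)| ^ P) / 2 ^ m := by
      rw [le_div_iff₀ (by positivity)]
      linarith
    have h3 : 0 ≤ δ ^ P * ∑ l, |q x l| ^ P := mul_nonneg hδP.le (SUP_sum_nonneg _ P)
    linarith
  · -- one choice of signs
    have key : ∀ g : Fin m → Bool, ∑ i, |rad g (q (Pi.single i 1))| ^ Q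
        ≤ C ^ Q * (m * δ ^ (-Q)) := by
      intro g
      obtain ⟨κ, hκ⟩ : ∃ κ, κ = (m : ℝ) ^ (1 / Q) * (δ⁻¹ * C) := ⟨_, rfl⟩
      have hκ0 : 0 ≤ κ := by
        rw [hκ]
        positivity
      have h1 := (hHLD P Q hP1 hQ k (fun i => rad g (q (Pi.single i 1)))).1 κ hκ0 (by
        intro x
        rw [← SUP_rad q x g]
        have h2 := (hHLD P Q hP1 hQ m (fun l => Pool.RX.sgn (g l))).2 (q x)
        have h3 : ∑ l, q x l * Pool.RX.sgn (g l) = rad g (q x) := by
          unfold rad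
          refine Finset.sum_congr rfl fun l _ => ?_
          ring
        have h4 : ∑ l : Fin m, |Pool.RX.sgn (g l)| ^ Q = m := by
          simp [SUP_sgn]
        rw [h3, h4] at h2
        have h5 : (∑ l, |q x l| ^ P) ^ (1 / P) ≤ δ⁻¹ * C * (∑ i, |x i| ^ P) ^ (1 / P) := by
          refine SUP_root hP0 (Real.rpow_nonneg (SUP_sum_nonneg _ P) _) (SUP_sum_nonneg x P)
            (by positivity) ?_
          have h6 : ((∑ l, |q x l| ^ P) ^ (1 / P)) ^ P = ∑ l, |q x l| ^ P := by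
            rw [one_div]
            exact Real.rpow_inv_rpow (SUP_sum_nonneg _ P) hP0.ne'
          rw [h6, Real.mul_rpow (by positivity) hC0.le, Real.inv_rpow hδ.le, mul_assoc,
            inv_mul_eq_div, le_div_iff₀ hδP]
          have h7 := hq x
          unfold NX at h7
          have h8 := hrs (q x)
          linarith
        calc |rad g (q x)| ≤ (∑ l, |q x l| ^ P) ^ (1 / P) * (m : ℝ) ^ (1 / Q) := h2
          _ ≤ (δ⁻¹ * C * (∑ i, |x i| ^ P) ^ (1 / P)) * (m : ℝ) ^ (1 / Q) :=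
              mul_le_mul_of_nonneg_right h5 (by positivity)
          _ = κ * (∑ i, |x i| ^ P) ^ (1 / P) := by
              rw [hκ]
              ring)
      have h2 : κ ^ Q = C ^ Q * (m * δ ^ (-Q)) := by
        rw [hκ, Real.mul_rpow (by positivity) (by positivity), one_div,
          Real.rpow_inv_rpow (by positivity) hQ0.ne', Real.mul_rpow (by positivity) hC0.le,
          Real.inv_rpow hδ.le, Real.rpow_neg hδ.le]
        ring
      rw [← h2]
      exact h1
    have h1 : ∑ g : Fin m → Bool, ∑ i, |rad g (q (Pi.single i 1))| ^ Q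
        ≤ 2 ^ m * (C ^ Q * (m * δ ^ (-Q))) := by
      have h2 := Finset.sum_le_card_nsmul (Finset.univ : Finset (Fin m → Bool))
        (fun g => ∑ i, |rad g (q (Pi.single i 1))| ^ Q) _ (fun g _ => key g)
      rw [Finset.card_univ, Fintype.card_fun, Fintype.card_bool, Fintype.card_fin,
        nsmul_eq_mul] at h2
      push_cast at h2
      exact h2
    rw [Finset.sum_comm] at h1
    have h3 : ∀ i, 2 ^ m * (∑ l, q (Pi.single i 1) l ^ 2) ^ (Q / 2)
        ≤ ∑ g : Fin m → Bool, |rad g (q (Pi.single i 1))| ^ Q := fun i =>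
      (hJEN Q m (q (Pi.single i 1))).1 hQ2
    have h4 := Finset.sum_le_sum fun (i : Fin k) (_ : i ∈ Finset.univ) => h3 i
    rw [← Finset.mul_sum] at h4
    have h5 : (0 : ℝ) < 2 ^ m := by positivity
    exact le_of_mul_le_mul_left (h4.trans h1) h5

end Pool.GG
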