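import Pool.Agent.Work.MP_3e8c7a_gg.Bodies

/-!
# MP_3e8c7a_an, THEOREM GG: a variant without position
-/

set_option autoImplicit false

namespace Pool.GG

open Module Pool.Agent.MP3e8c7a Pool.Agent.MP3e8c7as Pool.RG
open scoped Pointwise

/-- Every section of dimension `≥ k + K` contains, up to a subspace of bounded codimension, only
sections in good position to a given section of fixed dimension. -/
theorem sub_rig (hG : Stmt_GG) (hA : Stmt_ANG) (m : ℕ) : ∃ (D : ℝ) (K₀ : ℕ), 1 ≤ D ∧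
    ∀ (n k : ℕ) (K : Set (Fin n → ℝ)) (p r : Seminorm ℝ (Fin n → ℝ)) (b : ℝ), 1 ≤ b →
      Def p → Def r → (∀ x, x ∈ K ↔ p x ≤ 1) → Hyp b k p r → K₀ ≤ k →
      ∀ E₁ F : Submodule ℝ (Fin n → ℝ), k + K₀ ≤ finrank ℝ E₁ → finrank ℝ F = m →
      (∀ E ≤ E₁, finrank ℝ E = k → ¬ CompIn (1296 * b ^ 4) K F E) → RigN D K₀ p r := by
  obtain ⟨D, K₁, hD, h⟩ := pair_rig hG m
  obtain ⟨ν, hν⟩ := hA m
  refine ⟨D, K₁ + ν, hD, fun n k K p r b hb hp hr hK H hk E₁ F hE₁ hF hcomp => ?_⟩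
  obtain ⟨Φ, -, hΦ1, hΦ2⟩ := hν (Fin n → ℝ) p 1 hp le_rfl ⊥ F hF.le (fun w _ x hx => by
    rw [(Submodule.mem_bot ℝ).1 hx, add_zero, one_mul])
  have hdim : k ≤ finrank ℝ (E₁ ⊓ Φ : Submodule ℝ (Fin n → ℝ)) := by
    have h1 := Submodule.finrank_sup_add_finrank_inf_eq E₁ Φ
    have h2 : finrank ℝ (E₁ ⊔ Φ : Submodule ℝ (Fin n → ℝ)) ≤ finrank ℝ (Fin n → ℝ) :=
      Submodule.finrank_le _
    omega
  obtain ⟨E, hE1, hE2⟩ : ∃ E ≤ E₁ ⊓ Φ, finrank ℝ E = k := by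
    obtain ⟨E', hE'⟩ : ∃ E' : Submodule ℝ ↥(E₁ ⊓ Φ), finrank ℝ E' = k := by
      obtain ⟨f, hf⟩ := exists_linearIndependent_of_le_finrank (R := ℝ) hdim
      exact ⟨Submodule.span ℝ (Set.range f), by rw [finrank_span_eq_card hf, Fintype.card_fin]⟩
    refine ⟨E'.map (E₁ ⊓ Φ).subtype, Submodule.map_subtype_le _ _, ?_⟩
    rw [← hE']
    exact LinearEquiv.finrank_eq (Submodule.equivMapOfInjective _ Subtype.val_injective E').symm
  obtain ⟨Y, Λ, g1, g2, g3⟩ : RigN D K₁ p r := by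
    refine h n k K p r b 2 hb (by norm_num) hp hr hK H (by omega) E F hE2 hF ?_ ?_
    · intro w hw x hx hwx
      rw [mem_smul_iff hK two_pos]
      have h1 := hΦ2 w hw x (hE1 hx).2
      rw [hK] at hwx
      linarith
    · have h1 := hcomp E (hE1.trans inf_le_left) hE2
      have e1 : 648 * b ^ 4 * 2 = 1296 * b ^ 4 := by ring
      rw [e1]
      exact h1
  exact ⟨Y, Λ, by omega, g2, g3⟩

end Pool.GG
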