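import Pool.Agent.Work.MP_3e8c7a_gg.InterfaceP
import Pool.Agent.Work.MP_3e8c7a_gg.Sub
import Pool.Agent.Work.MP_3e8c7a.Defs

/-!
# MP_3e8c7a_an, THEOREM GG: sections near `ℓ_P` balls and sections without Euclidean pieces, bodies
-/

set_option autoImplicit false

namespace Pool.GG

open Module Pool.Agent.MP3e8c7a Pool.Agent.MP3e8c7as Pool.RG
open scoped Pointwise

/-- Norms from an `ℓ_P` section. -/
lemma HasLpSection.norm {P M : ℝ} (hP : 1 ≤ P) (hM : 1 ≤ M) {m n : ℕ} {K : Set (Fin n → ℝ)}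
    {p : Seminorm ℝ (Fin n → ℝ)} (hK : ∀ x, x ∈ K ↔ p x ≤ 1) (h : HasLpSection P M m K) :
    ∃ i : (Fin m → ℝ) →ₗ[ℝ] (Fin n → ℝ), ∀ x, p (i x) ≤ lpS P hP m x ∧ lpS P hP m x ≤ M * p (i x) := by
  obtain ⟨i, -, h1, h2⟩ := h
  have hP0 : 0 < P := by linarith
  have hnn : ∀ x : Fin m → ℝ, 0 ≤ ∑ l, |x l| ^ P := fun x =>
    Finset.sum_nonneg fun l _ => Real.rpow_nonneg (abs_nonneg _) _
  refine ⟨i, fun x => ⟨?_, ?_⟩⟩
  · have h3 := le_of_ball (lpS P hP m) (p.comp i) zero_le_one (fun u hu => ?_) x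
    · rwa [one_mul] at h3
    · refine (hK _).1 (h1 u ?_)
      rw [lpS_apply] at hu
      by_contra h4
      have h4 : 1 < ∑ l, |u l| ^ P := not_le.1 h4
      have h5 := Real.one_lt_rpow h4 (one_div_pos.2 hP0)
      linarith
  · refine le_of_ball (p.comp i) (lpS P hP m) (by linarith) (fun u hu => ?_) x
    have h3 := h2 u ((hK _).2 hu)
    rw [lpS_apply]
    calc (∑ l, |u l| ^ P) ^ (1 / P) ≤ (M ^ P) ^ (1 / P) :=
          Real.rpow_le_rpow (hnn u) h3 (one_div_pos.2 hP0).le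
      _ = M := by
          rw [← Real.rpow_mul (by linarith), mul_one_div_cancel hP0.ne', Real.rpow_one]

/-- **Sections near the ball of `ℓ_P`**, norms of bodies. -/
theorem lp_rig (hL : Stmt_LPR) (P b M : ℝ) (hP : 1 ≤ P) (hP2 : P ≠ 2) (hb : 1 ≤ b) (hM : 1 ≤ M) :
    ∃ (D : ℝ) (K₀ : ℕ), 1 ≤ D ∧ ∀ (n k m : ℕ) (K : Set (Fin n → ℝ)) (p r : Seminorm ℝ (Fin n → ℝ)),
      Def p → Def r → (∀ x, x ∈ K ↔ p x ≤ 1) → Hyp b k p r → K₀ ≤ k → k + K₀ ≤ m →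
      HasLpSection P M m K → RigN D K₀ p r := by
  obtain ⟨D, K₀, hD, h⟩ := hL P hP hP2 b M hb hM
  refine ⟨D, K₀, hD, fun n k m K p r hp hr hK H hk hm hS => ?_⟩
  have hfr : finrank ℝ (Fin n → ℝ) = n := by
    rw [Module.finrank_fintype_fun_eq_card, Fintype.card_fin]
  obtain ⟨i, hi⟩ := hS.norm hP hM hK
  obtain ⟨Y, Λ, h2, h3, h4⟩ := h (Fin n → ℝ) k m p r hp hr H hk hm i hi
  rw [hfr] at h2
  exact ⟨Y, Λ, h2, h3, h4⟩

/-- **One section near a cube**, norms of bodies. -/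
theorem cube_rig (hC : Stmt_CUB) (b M : ℝ) (hb : 1 ≤ b) (hM : 1 ≤ M) :
    ∃ (D : ℝ) (K₀ : ℕ), 1 ≤ D ∧ ∀ (n k : ℕ) (K : Set (Fin n → ℝ)) (p r : Seminorm ℝ (Fin n → ℝ)),
      Def p → Def r → (∀ x, x ∈ K ↔ p x ≤ 1) → Hyp b k p r → K₀ ≤ k → k + K₀ ≤ n →
      HasCubeSection M k K → RigN D K₀ p r := by
  obtain ⟨D, K₀, hD, h⟩ := hC b M hb hM
  refine ⟨D, K₀, hD, fun n k K p r hp hr hK H hk hn hS => ?_⟩
  have hfr : finrank ℝ (Fin n → ℝ) = n := by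
    rw [Module.finrank_fintype_fun_eq_card, Fintype.card_fin]
  obtain ⟨i, hi⟩ := sec_data hM hp hK hS
  obtain ⟨Y, Λ, h2, h3, h4⟩ := h (Fin n → ℝ) k p r hp hr H hk (by rw [hfr]; exact hn) i hi
  rw [hfr] at h2
  exact ⟨Y, Λ, h2, h3, h4⟩

/-- **No complemented Euclidean pieces**, norms of bodies. -/
theorem euc_rig (hE : Stmt_EUR) (m : ℕ) : ∃ (D : ℝ) (K₀ : ℕ), 1 ≤ D ∧
    ∀ (n k : ℕ) (K : Set (Fin n → ℝ)) (p r : Seminorm ℝ (Fin n → ℝ)) (b C₁ : ℝ), 1 ≤ b → 1 ≤ C₁ →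
      Def p → Def r → (∀ x, x ∈ K ↔ p x ≤ 1) → Hyp b k p r → K₀ ≤ k →
      ∀ E F : Submodule ℝ (Fin n → ℝ), finrank ℝ E = k → K₀ ≤ finrank ℝ F → Position C₁ K F E →
      ¬ EucIn (45360 * b ^ 4 * C₁) m K E → RigN D K₀ p r := by
  obtain ⟨D, K₀, hD, h⟩ := hE m
  refine ⟨D, K₀, hD, fun n k K p r b C₁ hb hC₁ hp hr hK H hk E F hEk hF hpos hcomp => ?_⟩
  have hfr : finrank ℝ (Fin n → ℝ) = n := by
    rw [Module.finrank_fintype_fun_eq_card, Fintype.card_fin]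
  let eE : (Fin k → ℝ) ≃ₗ[ℝ] E := LinearEquiv.ofFinrankEq _ _ (by
    rw [Module.finrank_fintype_fun_eq_card, Fintype.card_fin, hEk])
  have hC0 : 0 < C₁ := by linarith
  have hC2 : 0 < 45360 * b ^ 4 * C₁ := by positivity
  have h1 := h (Fin n → ℝ) k p r b C₁ hb hC₁ hp hr H hk (E.subtype ∘ₗ eE.toLinearMap) F
    (Subtype.val_injective.comp eE.injective) hF
    (fun w hw z => hpos.norm hK hC0 _ hw _ (eE z).2) ?_
  · obtain ⟨Y, Λ, h2, h3, h4⟩ := h1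
    rw [hfr] at h2
    exact ⟨Y, Λ, h2, h3, h4⟩
  · rintro ⟨j, q, hqj, hj, hq⟩
    apply hcomp
    obtain ⟨Q, hQ⟩ := LinearMap.exists_extend (q ∘ₗ eE.symm.toLinearMap)
    have hQ' : ∀ x : E, Q (x : Fin n → ℝ) = q (eE.symm x) := fun x => LinearMap.congr_fun hQ x
    refine ⟨E.subtype ∘ₗ eE.toLinearMap ∘ₗ j, Q, fun a => ⟨?_, ?_, fun ha => ?_⟩, fun x hx hxK => ?_⟩
    · exact (eE (j a)).2
    · show Q ((eE (j a) : E) : Fin n → ℝ) = a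
      rw [hQ', LinearEquiv.symm_apply_apply, hqj]
    · show ((eE (j a) : E) : Fin n → ℝ) ∈ K
      rw [hK]
      have h2 : p ((eE (j a) : E) : Fin n → ℝ) ≤ e2 a := hj a
      exact h2.trans (by rw [e2]; exact Real.sqrt_le_one.2 ha)
    · have h2 : e2 (q (eE.symm ⟨x, hx⟩)) ≤
        45360 * b ^ 4 * C₁ * p ((eE (eE.symm ⟨x, hx⟩) : E) : Fin n → ℝ) := hq (eE.symm ⟨x, hx⟩)
      rw [LinearEquiv.apply_symm_apply] at h2
      rw [hK] at hxK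
      have h4 : p ((⟨x, hx⟩ : E) : Fin n → ℝ) ≤ 1 := hxK
      have h3 : e2 (q (eE.symm ⟨x, hx⟩)) ≤ 45360 * b ^ 4 * C₁ := h2.trans (by nlinarith)
      rw [hQ' ⟨x, hx⟩]
      rw [e2] at h3
      exact (Real.sqrt_le_left hC2.le).1 h3

/-- **THEOREM GG** for bodies, all cases. -/
theorem good_bodies (hG : Stmt_GG) (hA : Stmt_ANG) (hE : Stmt_EUR) (hL : Stmt_LPR) (hC : Stmt_CUB)
    (α b M P : ℝ) (m : ℕ) (hα : 0 < α) (hα1 : α < 1) (hM : 1 ≤ M) (hP : 1 ≤ P) (hP2 : P ≠ 2) :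
    ∃ (C : ℝ) (N : ℕ), 1 ≤ C ∧ ∀ n : ℕ, 0 < n → ∀ K L : Set (Fin n → ℝ), IsBody K → IsBody L →
      SectionsClose ⌈α * n⌉₊ b K L →
      (Good b M P m N ⌈α * n⌉₊ K ∨ Good b M P m N ⌈α * n⌉₊ L) →
      GeomClose C K L ∧ dBM K L ≤ ENNReal.ofReal C := by
  have hb : 1 ≤ |b| + 1 := by linarith [abs_nonneg b]
  obtain ⟨D₁, K₁, hD₁, h1⟩ := pair_rig hG m
  obtain ⟨D₂, K₂, hD₂, h2⟩ := euc_rig hE m
  obtain ⟨D₅, K₅, hD₅, h5⟩ := sub_rig hG hA m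
  obtain ⟨D₃, K₃, hD₃, h3⟩ := lp_rig hL P (|b| + 1) M hP hP2 hb hM
  obtain ⟨D₄, K₄, hD₄, h4⟩ := cube_rig hC (|b| + 1) M hb hM
  -- `n` large: `k + K₄ ≤ n`
  obtain ⟨n₁, hn₁⟩ := exists_nat_ge ((K₄ + 1 : ℝ) / (1 - α))
  have hα2 : 0 < 1 - α := by linarith
  set K₀ := K₁ + K₂ + K₃ + K₄ + K₅ + n₁ with hK₀
  set D := D₁ + D₂ + D₃ + D₄ + D₅ with hD
  have hD0 : 1 ≤ D := by linarith
  obtain ⟨C, hC1, hcl⟩ := close_bodies α D K₀ hα hD0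
  refine ⟨C, K₀, hC1, fun n hn K L hK hL hS hgood => ?_⟩
  obtain ⟨p, hp, hKp⟩ := hK.exists_seminorm
  obtain ⟨r, hr, hLr⟩ := hL.exists_seminorm
  have H : Hyp (|b| + 1) ⌈α * n⌉₊ p r := hS.hyp hp hr hKp hLr
  have hmono : ∀ (D' : ℝ) (K' : ℕ) (s t : Seminorm ℝ (Fin n → ℝ)), D' ≤ D → K' ≤ K₀ →
      RigN D' K' s t → RigN D K₀ s t := by
    rintro D' K' s t hD' hK' ⟨Y, Λ, g1, g2, g3⟩
    refine ⟨Y, Λ, g1.trans (Nat.add_le_add_left hK' _), g2, fun y hy => ?_⟩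
    obtain ⟨g4, g5⟩ := g3 y hy
    exact ⟨g4.trans (mul_le_mul_of_nonneg_right hD' (mul_nonneg g2.le (apply_nonneg t y))),
      g5.trans (mul_le_mul_of_nonneg_right hD' (apply_nonneg s y))⟩
  have key : ∀ (K' : Set (Fin n → ℝ)) (s t : Seminorm ℝ (Fin n → ℝ)), Def s → Def t →
      (∀ x, x ∈ K' ↔ s x ≤ 1) → Hyp (|b| + 1) ⌈α * n⌉₊ s t → K₀ ≤ ⌈α * n⌉₊ →
      Good b M P m K₀ ⌈α * n⌉₊ K' → RigN D K₀ s t := by
    intro K' s t hs ht hKs H' hk hgood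
    rcases hgood with g | g | ⟨E, F, g1, g2, g3, g4⟩ | ⟨E, F, g1, g2, g3, g4⟩ | ⟨E₁, F, g1, g2, g3⟩
    · exact hmono D₃ K₃ s t (by linarith) (by omega)
        (h3 n _ _ K' s t hs ht hKs H' (by omega) (by omega) g)
    · refine hmono D₄ K₄ s t (by linarith) (by omega)
        (h4 n _ K' s t hs ht hKs H' (by omega) ?_ g)
      -- `n ≥ ⌈α n⌉ ≥ K₀ ≥ n₁`
      have e1 : (⌈α * n⌉₊ : ℝ) < α * n + 1 := Nat.ceil_lt_add_one (by positivity)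
      have e2 : ⌈α * n⌉₊ ≤ n := Nat.ceil_le.2 (by
        have : (0 : ℝ) ≤ n := Nat.cast_nonneg n
        nlinarith)
      have e3 : (n₁ : ℝ) ≤ n := by exact_mod_cast (by omega : n₁ ≤ n)
      have e4 : (K₄ + 1 : ℝ) ≤ (1 - α) * n := by
        have := hn₁.trans e3
        rw [div_le_iff₀ hα2] at this
        linarith
      have e5 : ((⌈α * n⌉₊ + K₄ : ℕ) : ℝ) ≤ n := by
        push_cast
        linarith
      exact_mod_cast e5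
    · exact hmono D₂ K₂ s t (by linarith) (by omega)
        (h2 n _ K' s t _ M hb hM hs ht hKs H' (by omega) E F g1 (by omega) g3 g4)
    · exact hmono D₁ K₁ s t (by linarith) (by omega)
        (h1 n _ K' s t _ M hb hM hs ht hKs H' (by omega) E F g1 g2 g3 g4)
    · exact hmono D₅ K₅ s t (by linarith) (by omega)
        (h5 n _ K' s t _ hb hs ht hKs H' (by omega) E₁ F (by omega) g2 g3)
  refine hcl n ⌈α * n⌉₊ hn (Nat.le_ceil _) K L p r hp hr hKp hLr fun hk₀ => ?_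
  rcases hgood with hgood | hgood
  · exact key K p r hp hr hKp H hk₀ hgood
  · exact (key L r p hr hp hLr (H.symm (by linarith)) hk₀ hgood).symm

end Pool.GG
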