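import Pool.Agent.Work.MP_3e8c7a_gg.All
import Pool.Agent.Work.MP_3e8c7a_gg.Final
import Pool.Agent.Work.MP_3e8c7a_gg.B_KHU
import Pool.Agent.Work.MP_3e8c7a_gg.B_JEN
import Pool.Agent.Work.MP_3e8c7a_gg.B_HLD
import Pool.Agent.Work.MP_3e8c7a_gg.B_ROS
import Pool.Agent.Work.MP_3e8c7a_gg.B_SUP
import Pool.Agent.Work.MP_3e8c7a_gg.B_SLO
import Pool.Agent.Work.MP_3e8c7a_gg.B_NLS
import Pool.Agent.Work.MP_3e8c7a_gg.B_EXM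
import Pool.Agent.Work.MP_3e8c7a_gg.B_BAD
import Pool.Agent.Work.MP_3e8c7a_gg.B_LAT
import Pool.Agent.Work.MP_3e8c7a_gg.B_MAT
import Pool.Agent.Work.MP_3e8c7a_gg.B_NLB
import Pool.Agent.Work.MP_3e8c7a_gg.B_NLP
import Pool.Agent.Work.MP_3e8c7a_gg.B_LPR
import Pool.Agent.Work.MP_3e8c7a_gg.B_EUR
import Pool.Agent.Work.MP_3e8c7a_gg.B_CUB
import Pool.Agent.Work.MP_3e8c7a_g.B_MXD
import Pool.Agent.Work.MP_3e8c7a_g.B_DRO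
import Pool.Agent.Work.MP_3e8c7a_g.B_EFS
import Pool.Agent.Work.MP_3e8c7a_g.B_VRN
import Pool.Agent.Work.MP_3e8c7a_g.B_MEN
import Pool.Agent.Work.MP_3e8c7a_g.B_SYN
import Pool.Agent.Work.MP_3e8c7a_g.B_SYL
import Pool.Agent.Work.MP_3e8c7a_g.B_LTH
import Pool.Agent.Work.MP_3e8c7a_g.B_LTC
import Pool.Agent.Work.MP_3e8c7a_g.B_HIL
import Pool.Agent.Work.MP_3e8c7a_g.B_DVO
import Pool.Agent.Work.MP_3e8c7a_r.B_UI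
import Pool.Agent.Work.MP_3e8c7a_r.B_SEL
import Pool.Agent.Work.MP_3e8c7a_r.B_DIM
import Pool.Agent.Work.MP_3e8c7a_r.B_DUN
import Pool.Agent.Work.MP_3e8c7a_r.B_SYO
import Pool.Agent.Work.MP_3e8c7a_r.B_SYI
import Pool.Agent.Work.MP_3e8c7a_r.B_KHI
import Pool.Agent.Work.MP_3e8c7a_r.B_OBO
import Pool.Agent.Work.MP_3e8c7a_r.B_OBI
import Pool.Agent.Work.MP_3e8c7a_r.B_RAD
import Pool.Agent.Work.MP_3e8c7a_r.B_NORO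
import Pool.Agent.Work.MP_3e8c7a_r.B_NORI

/-!
# MP_3e8c7a_an, THEOREM GG: everything together
-/

set_option autoImplicit false

namespace Pool.GG

open Module Pool.Agent.MP3e8c7a Pool.Agent.MP3e8c7as Pool.RG

/-- Dvoretzky's theorem. -/
theorem q_DVO : Pool.RG.Stmt_DVO :=
  p_DVO (p_SYN (p_DRO p_MXD) (p_VRN p_EFS) p_MEN) (p_HIL p_SYL p_LTH p_LTC)

theorem q_NORO : Pool.RX.Stmt_NORO :=
  Pool.RX.p_NORO (Pool.RX.p_SYO Pool.RX.p_UI Pool.RX.p_SEL Pool.RX.p_DIM (Pool.RX.p_DUN Pool.RX.p_BAS))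
    (Pool.RX.p_OBO Pool.RX.p_KHI) (Pool.RX.p_RAD Pool.RX.p_KHI)

theorem q_NORI : Pool.RX.Stmt_NORI :=
  Pool.RX.p_NORI (Pool.RX.p_SYI Pool.RX.p_UI Pool.RX.p_SEL Pool.RX.p_DIM) (Pool.RX.p_OBI Pool.RX.p_KHI)
    (Pool.RX.p_RAD Pool.RX.p_KHI)

theorem q_NLS : Stmt_NLS := p_NLS p_ROS (p_SUP p_JEN p_HLD) (p_SLO p_KHU p_JEN p_HLD)

theorem q_MAT : Stmt_MAT := p_MAT (p_BAD p_EXM) p_LAT

theorem q_NLB : Stmt_NLB := p_NLB p_KHU p_JEN p_HLD q_MAT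

/-- Some subspace of `ℓ_P^N` is not complemented in any `ℓ_P^k`, `P ≠ 2`. -/
theorem q_NLP : Stmt_NLP := p_NLP q_NLS q_NLB q_NORO

/-- **THEOREM GG** for bodies. -/
theorem section_rigidity (α b M P : ℝ) (m : ℕ) (hα : 0 < α) (hα1 : α < 1) (hM : 1 ≤ M) (hP : 1 ≤ P)
    (hP2 : P ≠ 2) : ∃ (C : ℝ) (N : ℕ), 1 ≤ C ∧ ∀ n : ℕ, 0 < n → ∀ K L : Set (Fin n → ℝ),
      IsBody K → IsBody L → SectionsClose ⌈α * n⌉₊ b K L →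
      (Good b M P m N ⌈α * n⌉₊ K ∨ Good b M P m N ⌈α * n⌉₊ L) →
      GeomClose C K L ∧ dBM K L ≤ ENNReal.ofReal C :=
  good_bodies q_GG p_ANG (p_EUR q_GG q_DVO) (p_LPR q_GG q_NLP) (p_CUB q_GG q_NORI) α b M P m hα hα1 hM
    hP hP2

end Pool.GG
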