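import Pool.Agent.Work.MP_3e8c7a_gg.Interface

/-! Block ANG of THEOREM GG (helper54). -/

set_option autoImplicit false

namespace Pool.GG

open Module Pool.Agent.MP3e8c7a Pool.Agent.MP3e8c7as Pool.RG

/-- A norming functional. -/
theorem ANG_hb {V : Type} [AddCommGroup V] [Module ℝ V] [FiniteDimensional ℝ V]
    (r : Seminorm ℝ V) (y : V) : ∃ φ : V →ₗ[ℝ] ℝ, φ y = r y ∧ ∀ x, |φ x| ≤ r x := by
  by_cases hy : y = 0
  · refine ⟨0, ?_, fun x => ?_⟩
    · rw [hy, map_zero, map_zero]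
    · rw [LinearMap.zero_apply, abs_zero]
      exact apply_nonneg r x
  · have hi : Function.Injective (LinearMap.toSpanSingleton ℝ V y) := by
      intro s t hst
      rw [LinearMap.toSpanSingleton_apply, LinearMap.toSpanSingleton_apply] at hst
      exact smul_left_injective ℝ hy hst
    obtain ⟨g, hg1, hg2⟩ := exists_ext r (LinearMap.toSpanSingleton ℝ V y) hi
      (C := 1) zero_le_one (r y • (LinearMap.id : ℝ →ₗ[ℝ] ℝ)) (fun t => by
        rw [LinearMap.toSpanSingleton_apply, map_smul_eq_mul, LinearMap.smul_apply,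
          LinearMap.id_apply, smul_eq_mul, abs_mul, one_mul, Real.norm_eq_abs,
          abs_of_nonneg (apply_nonneg r y), mul_comm])
    refine ⟨g, ?_, fun x => ?_⟩
    · have h1 := hg1 1
      rw [LinearMap.toSpanSingleton_apply, one_smul, LinearMap.smul_apply, LinearMap.id_apply,
        smul_eq_mul, mul_one] at h1
      exact h1
    · have h2 := hg2 x
      rwa [one_mul] at h2

/-- The quotient seminorm. -/
theorem ANG_quot {V : Type} [AddCommGroup V] [Module ℝ V] (p : Seminorm ℝ V)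
    (E : Submodule ℝ V) : ∃ s : Seminorm ℝ V, (∀ v, ∀ x ∈ E, s v ≤ p (v + x)) ∧
      ∀ (v : V) (a : ℝ), (∀ x ∈ E, a ≤ p (v + x)) → a ≤ s v := by
  have hbd : ∀ v : V, BddBelow (Set.range fun x : E => p (v + x)) := by
    intro v
    refine ⟨0, ?_⟩
    rintro _ ⟨x, rfl⟩
    exact apply_nonneg p _
  have h0 : ∀ v : V, 0 ≤ ⨅ x : E, p (v + x) := fun v => le_ciInf fun x => apply_nonneg p _
  have hz : (⨅ x : E, p ((0 : V) + x)) = 0 := by
    refine le_antisymm ?_ (h0 0)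
    refine (ciInf_le (hbd 0) (0 : E)).trans ?_
    rw [Submodule.coe_zero, add_zero, map_zero]
  refine ⟨Seminorm.ofSMulLE (fun v => ⨅ x : E, p (v + x)) hz ?_ ?_, ?_, ?_⟩
  · intro u v
    refine le_ciInf_add_ciInf fun x y => ?_
    refine (ciInf_le (hbd (u + v)) (x + y)).trans ?_
    have h1 : u + v + ((x + y : E) : V) = (u + x) + (v + y) := by
      rw [Submodule.coe_add]
      abel
    rw [h1]
    exact map_add_le_add p _ _
  · intro c v
    show (⨅ x : E, p (c • v + x)) ≤ ‖c‖ * ⨅ x : E, p (v + x)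
    rw [Real.mul_iInf_of_nonneg (norm_nonneg c)]
    refine le_ciInf fun x => ?_
    refine (ciInf_le (hbd (c • v)) (c • x)).trans ?_
    rw [Submodule.coe_smul, ← smul_add, map_smul_eq_mul]
  · intro v x hx
    exact ciInf_le (hbd v) (⟨x, hx⟩ : E)
  · intro v a ha
    exact le_ciInf fun x => ha x x.2

theorem ANG_nrf (m : ℕ) : ∃ ν : ℕ, ∀ (V : Type) [AddCommGroup V] [Module ℝ V]
    [FiniteDimensional ℝ V] (r : Seminorm ℝ V) (S : Submodule ℝ V), Def (r.comp S.subtype) →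
    finrank ℝ S ≤ m →
    ∃ Φ : Submodule ℝ V, (∀ x, r x = 0 → x ∈ Φ) ∧ finrank ℝ V ≤ finrank ℝ Φ + ν ∧
      ∀ w ∈ S, ∀ x ∈ Φ, r w ≤ 2 * r (w + x) := by
  classical
  obtain ⟨ν, hν⟩ := net m
  refine ⟨ν, ?_⟩
  intro V _ _ _ r S hr hS
  obtain ⟨T, hT, hnet⟩ := hν S (r.comp S.subtype) hr hS
  choose φ hφ1 hφ2 using fun y : S => ANG_hb r (y : V)
  let L : V →ₗ[ℝ] (T → ℝ) := LinearMap.pi fun y => φ (y : S)
  refine ⟨LinearMap.ker L, ?_, ?_, ?_⟩
  · intro x hx
    rw [LinearMap.mem_ker]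
    funext y
    have h1 := hφ2 (y : S) x
    rw [hx] at h1
    exact abs_eq_zero.1 (le_antisymm h1 (abs_nonneg _))
  · have h1 := L.finrank_range_add_finrank_ker
    have h2 : finrank ℝ (LinearMap.range L) ≤ finrank ℝ (T → ℝ) := Submodule.finrank_le _
    rw [Module.finrank_fintype_fun_eq_card, Fintype.card_coe] at h2
    omega
  · intro w hw x hx
    have hx' : ∀ y ∈ T, φ y x = 0 := by
      intro y hy
      have h1 : L x = 0 := hx
      exact congrFun h1 ⟨y, hy⟩
    by_cases h0 : r w = 0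
    · rw [h0]
      have := apply_nonneg r (w + x)
      linarith
    · have hc : 0 < r w := lt_of_le_of_ne (apply_nonneg r w) (Ne.symm h0)
      have hc' : 0 < (r w)⁻¹ := inv_pos.2 hc
      obtain ⟨y, hy, hyw⟩ := hnet ((r w)⁻¹ • ⟨w, hw⟩) (by
        show r ((r w)⁻¹ • w) ≤ 1
        rw [map_smul_eq_mul, Real.norm_eq_abs, abs_of_pos hc', inv_mul_cancel₀ h0])
      have hyw' : r ((r w)⁻¹ • w - (y : V)) ≤ 1 / 4 := hyw
      have e1 : r ((r w)⁻¹ • w) = 1 := by
        rw [map_smul_eq_mul, Real.norm_eq_abs, abs_of_pos hc', inv_mul_cancel₀ h0]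
      have h2 : r ((r w)⁻¹ • w) ≤ r ((r w)⁻¹ • w - (y : V)) + r (y : V) := by
        have := map_add_le_add r ((r w)⁻¹ • w - (y : V)) (y : V)
        rwa [sub_add_cancel] at this
      have h3 : φ y ((r w)⁻¹ • (w + x)) = r (y : V) + φ y ((r w)⁻¹ • w - (y : V)) := by
        rw [smul_add, map_add, map_smul (φ y) (r w)⁻¹ x, hx' y hy, smul_zero, add_zero, map_sub,
          hφ1]
        ring
      have h4 := hφ2 y ((r w)⁻¹ • w - (y : V))
      have h5 := hφ2 y ((r w)⁻¹ • (w + x))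
      have h6 : r ((r w)⁻¹ • (w + x)) = (r w)⁻¹ * r (w + x) := by
        rw [map_smul_eq_mul, Real.norm_eq_abs, abs_of_pos hc']
      have h7 := neg_abs_le (φ y ((r w)⁻¹ • w - (y : V)))
      have h8 := le_abs_self (φ y ((r w)⁻¹ • (w + x)))
      have h9 : 1 / 2 ≤ (r w)⁻¹ * r (w + x) := by
        rw [← h6]
        linarith
      have h10 : r w * (1 / 2) ≤ r w * ((r w)⁻¹ * r (w + x)) :=
        mul_le_mul_of_nonneg_left h9 hc.le
      rw [← mul_assoc, mul_inv_cancel₀ h0, one_mul] at h10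
      linarith

theorem p_ANG : Stmt_ANG := by
  intro M
  obtain ⟨ν, hν⟩ := ANG_nrf M
  refine ⟨ν, ?_⟩
  intro V _ _ _ p C₁ hp hC E Ω hM hpos
  obtain ⟨s, hs1, hs2⟩ := ANG_quot p E
  have hC0 : 0 < C₁ := lt_of_lt_of_le one_pos hC
  have hps : ∀ w ∈ Ω, p w ≤ C₁ * s w := by
    intro w hw
    have h1 : p w / C₁ ≤ s w := by
      refine hs2 w _ fun x hx => ?_
      rw [div_le_iff₀' hC0]
      exact hpos w hw x hx
    rwa [div_le_iff₀' hC0] at h1
  have hdef : Def (s.comp Ω.subtype) := by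
    intro w hw
    have h1 : s (w : V) = 0 := hw
    have h2 := hps w w.2
    rw [h1, mul_zero] at h2
    exact Subtype.ext (hp w (le_antisymm h2 (apply_nonneg p _)))
  obtain ⟨Φ, hΦ1, hΦ2, hΦ3⟩ := hν V s Ω hdef hM
  refine ⟨Φ, ?_, hΦ2, ?_⟩
  · intro x hx
    refine hΦ1 x (le_antisymm ?_ (apply_nonneg s _))
    refine (hs1 x (-x) (E.neg_mem hx)).trans ?_
    rw [add_neg_cancel, map_zero]
  · intro w hw x hx
    have h1 := hps w hw
    have h2 := hΦ3 w hw x hx
    have h3 : s (w + x) ≤ p (w + x) := by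
      have := hs1 (w + x) 0 E.zero_mem
      rwa [add_zero] at this
    calc p w ≤ C₁ * s w := h1
      _ ≤ C₁ * (2 * s (w + x)) := mul_le_mul_of_nonneg_left h2 hC0.le
      _ ≤ C₁ * (2 * p (w + x)) := mul_le_mul_of_nonneg_left
          (mul_le_mul_of_nonneg_left h3 (by norm_num)) hC0.le
      _ = 2 * C₁ * p (w + x) := by ring

end Pool.GG
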