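import Pool.Agent.Work.MP_3e8c7a_gg.InterfaceP

set_option autoImplicit false

/-!
# Block EXM: exponential moments of a Rademacher sum
-/

namespace Pool.GG

open Module Pool.Agent.MP3e8c7a Pool.Agent.MP3e8c7as Pool.RG
open Pool.RX (rad)

theorem EXM_rad {m : ℕ} (g : Fin m → Bool) (x : Fin m → ℝ) :
    rad g x = Pool.Agent.MP3e8c7ak.dt g x := rfl

theorem EXM_point (s : ℝ) (hs : 0 ≤ s) : Real.exp (-s) ≤ 1 - 2 / 3 * s ^ 2 + 1 / 6 * s ^ 4 := by
  rcases le_total s 1 with h1 | h1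
  · have h2 := Real.quadratic_le_exp_of_nonneg hs
    have h3 : 0 < 1 + s + s ^ 2 / 2 := by positivity
    have h4 : Real.exp (-s) ≤ 1 - s + s ^ 2 / 2 := by
      rw [Real.exp_neg]
      have h5 : (Real.exp s)⁻¹ ≤ (1 + s + s ^ 2 / 2)⁻¹ := inv_anti₀ h3 h2
      have h6 : (1 + s + s ^ 2 / 2)⁻¹ ≤ 1 - s + s ^ 2 / 2 := by
        rw [inv_le_iff_one_le_mul₀ h3]
        nlinarith [sq_nonneg (s ^ 2)]
      linarith
    have h7 : 0 ≤ s * ((1 - s) * ((2 - s) * (s + 3))) := by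
      apply mul_nonneg hs
      apply mul_nonneg (by linarith)
      apply mul_nonneg (by linarith) (by linarith)
    nlinarith [h7, h4]
  · rcases le_total s (11 / 10) with h2 | h2
    · have h3 : Real.exp (-s) ≤ Real.exp (-1) := Real.exp_le_exp.2 (by linarith)
      have h4 := Real.exp_neg_one_lt_d9
      have h5 : s ^ 2 ≤ 121 / 100 := by nlinarith
      have h6 : 1 ≤ s ^ 2 := by nlinarith
      have h7 : s ^ 4 = s ^ 2 * s ^ 2 := by ring
      rw [h7]
      nlinarith [mul_nonneg (sub_nonneg.2 h5) (sub_nonneg.2 h6)]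
    · have h3 : Real.exp (-s) ≤ Real.exp (-(11 / 10)) := Real.exp_le_exp.2 (by linarith)
      have h4 : Real.exp (-(11 / 10)) ≤ 1 / 3 := by
        rw [Real.exp_neg, inv_le_comm₀ (Real.exp_pos _) (by norm_num)]
        have h5 : Real.exp (11 / 10) = Real.exp 1 * Real.exp (1 / 10) := by
          rw [← Real.exp_add]
          norm_num
        have h6 := Real.exp_one_gt_d9
        have h7 := Real.quadratic_le_exp_of_nonneg (show (0 : ℝ) ≤ 1 / 10 by norm_num)
        rw [h5]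
        have h8 : (0 : ℝ) < Real.exp (1 / 10) := Real.exp_pos _
        nlinarith
      have h9 : s ^ 4 = s ^ 2 * s ^ 2 := by ring
      rw [h9]
      nlinarith [sq_nonneg (s ^ 2 - 2)]

theorem EXM_sum (m : ℕ) : ∀ x : Fin m → ℝ, ∑ g : Fin m → Bool, Real.exp (rad g x) ≤
    2 ^ m * Real.exp ((∑ l, x l ^ 2) / 2) := by
  induction m with
  | zero =>
    intro x
    simp [EXM_rad, Pool.Agent.MP3e8c7ak.dt]
  | succ s ih =>
    intro x
    simp only [EXM_rad] at ih ⊢
    rw [Pool.Agent.MP3e8c7ak.MOM_key x Real.exp]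
    have h1 : ∑ g : Fin s → Bool, (Real.exp (x 0 + Pool.Agent.MP3e8c7ak.dt g (Fin.tail x)) +
        Real.exp (-x 0 + Pool.Agent.MP3e8c7ak.dt g (Fin.tail x))) =
        (Real.exp (x 0) + Real.exp (-x 0)) *
          ∑ g : Fin s → Bool, Real.exp (Pool.Agent.MP3e8c7ak.dt g (Fin.tail x)) := by
      rw [Finset.mul_sum]
      refine Finset.sum_congr rfl fun g _ => ?_
      rw [Real.exp_add, Real.exp_add]
      ring
    have h2 : Real.exp (x 0) + Real.exp (-x 0) ≤ 2 * Real.exp (x 0 ^ 2 / 2) := by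
      have h := Real.cosh_le_exp_half_sq (x 0)
      rw [Real.cosh_eq] at h
      linarith
    have h3 : ∑ l, x l ^ 2 = x 0 ^ 2 + ∑ l, Fin.tail x l ^ 2 := by
      rw [Fin.sum_univ_succ]
      rfl
    rw [h1, h3, add_div, Real.exp_add, pow_succ]
    have h4 := ih (Fin.tail x)
    have h5 : (0 : ℝ) ≤ ∑ g : Fin s → Bool, Real.exp (Pool.Agent.MP3e8c7ak.dt g (Fin.tail x)) :=
      Finset.sum_nonneg fun _ _ => (Real.exp_pos _).le
    calc _ ≤ 2 * Real.exp (x 0 ^ 2 / 2) *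
          ∑ g : Fin s → Bool, Real.exp (Pool.Agent.MP3e8c7ak.dt g (Fin.tail x)) :=
          mul_le_mul_of_nonneg_right h2 h5
      _ ≤ 2 * Real.exp (x 0 ^ 2 / 2) *
          (2 ^ s * Real.exp ((∑ l, Fin.tail x l ^ 2) / 2)) :=
          mul_le_mul_of_nonneg_left h4 (by positivity)
      _ = _ := by ring

theorem EXM_neg {m : ℕ} (g : Fin m → Bool) (x : Fin m → ℝ) :
    rad g (fun l => -x l) = -rad g x := by
  simp [EXM_rad, Pool.Agent.MP3e8c7ak.dt]

theorem p_EXM : Stmt_EXM := by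
  intro m x hx
  have hcard : ∑ _g : Fin m → Bool, (1 : ℝ) = 2 ^ m := by simp
  constructor
  · obtain ⟨h2, h4⟩ := Pool.Agent.MP3e8c7ak.MOM m x
    have hsq : Pool.Agent.MP3e8c7ak.sq x = 1 := hx
    rw [hsq] at h2 h4
    have h5 : ∑ g : Fin m → Bool, Real.exp (-|rad g x|) ≤
        ∑ g : Fin m → Bool, (1 - 2 / 3 * Pool.Agent.MP3e8c7ak.dt g x ^ 2 +
          1 / 6 * Pool.Agent.MP3e8c7ak.dt g x ^ 4) := by
      refine Finset.sum_le_sum fun g _ => ?_
      have h := EXM_point |rad g x| (abs_nonneg _)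
      have h6 : |rad g x| ^ 2 = Pool.Agent.MP3e8c7ak.dt g x ^ 2 := by
        rw [sq_abs]
        rfl
      have h7 : |rad g x| ^ 4 = Pool.Agent.MP3e8c7ak.dt g x ^ 4 := by
        have h8 : |rad g x| ^ 4 = (|rad g x| ^ 2) ^ 2 := by ring
        rw [h8, h6]
        ring
      rw [h6, h7] at h
      exact h
    have h8 : ∑ g : Fin m → Bool, (1 - 2 / 3 * Pool.Agent.MP3e8c7ak.dt g x ^ 2 +
          1 / 6 * Pool.Agent.MP3e8c7ak.dt g x ^ 4) =
        ∑ _g : Fin m → Bool, (1 : ℝ) - 2 / 3 * ∑ g : Fin m → Bool, Pool.Agent.MP3e8c7ak.dt g x ^ 2 +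
          1 / 6 * ∑ g : Fin m → Bool, Pool.Agent.MP3e8c7ak.dt g x ^ 4 := by
      rw [Finset.mul_sum, Finset.mul_sum, ← Finset.sum_sub_distrib, ← Finset.sum_add_distrib]
    rw [h8, hcard, h2] at h5
    linarith
  · have h1 := EXM_sum m x
    have h2 := EXM_sum m (fun l => -x l)
    rw [hx] at h1
    have h3 : ∑ l, (-x l) ^ 2 = 1 := by
      simp only [neg_sq]
      exact hx
    rw [h3] at h2
    simp only [EXM_neg] at h2
    have h4 : ∑ g : Fin m → Bool, Real.exp |rad g x| ≤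
        ∑ g : Fin m → Bool, (Real.exp (rad g x) + Real.exp (-rad g x)) := by
      refine Finset.sum_le_sum fun g _ => ?_
      rcases abs_choice (rad g x) with h | h <;> rw [h] <;>
        linarith [Real.exp_pos (rad g x), Real.exp_pos (-rad g x)]
    rw [Finset.sum_add_distrib] at h4
    have h5 : Real.exp (1 / 2) ≤ 2 := by
      have h6 := Real.exp_one_lt_d9
      have h7 : Real.exp 1 = Real.exp (1 / 2) ^ 2 := by
        rw [← Real.exp_nat_mul]
        norm_num
      nlinarith [Real.exp_pos (1 / 2)]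
    have h8 : (0 : ℝ) < 2 ^ m := by positivity
    nlinarith

end Pool.GG
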