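import Pool.Agent.Work.MP_3e8c7a_g.Interface
import Pool.Agent.Work.MP_3e8c7a_r.B_NET

/-!
# MP_3e8c7a_an, THEOREM GG: one pair of sections in good position

`V` finite dimensional, `p`, `r` norms, all sections of dimension `k` of `p` and `r` are `b`-isomorphic (`Hyp b k p r`).
ONE PAIR: `i : (Fin k → ℝ) →ₗ[ℝ] V`, `Ω : (Fin M → ℝ) →ₗ[ℝ] V` injective, `p (Ω ω) ≤ C₁ * p (Ω ω + i z)`. THEOREM GG (`Stmt_GG`): if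
`(ℝ^M, p ∘ Ω)` is not isomorphic to a complemented subspace of `(ℝ^k, p ∘ i)` with the constant `648 b⁴ C₁` (`FacE` of
`MP_3e8c7a_g/Interface.lean`), then `p` and a multiple of `r` are `D(M)`-equivalent on a subspace of codimension `≤ K(M)`.

RULES. Every block is one file `B_X.lean` in this folder, `import Pool.Agent.Work.MP_3e8c7a_gg.Interface`, namespace `Pool.GG`,
`open Module Pool.Agent.MP3e8c7a Pool.Agent.MP3e8c7as Pool.RG`, with `theorem p_X (h1 : Stmt_Y) .. : Stmt_X`, exactly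
the blocks named after `uses` as hypotheses in that order (`theorem p_X : Stmt_X` if there is no `uses`); auxiliary lemmas with the
prefix `X_`. No straight double quotes. ALREADY PROVED and usable as theorems: `kil` (the block trick), `bio` (biorthogonal
systems), `grd` (the double greedy choice, `Pool.RX.Top`), `net` (finite nets), `bas` (bases), see the docstrings in
`MP_3e8c7a_s/Interface.lean` and `MP_3e8c7a_r/Interface.lean`. From `Pool.Agent.MP3e8c7a` (files `Base`, `Step`, `Hyper`): `Iso c p r`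
(there is a linear equivalence `T` with `p x ≤ r (T x) ≤ c * p x`), `Iso.of_bounds`, `Iso.symm`, `Iso.trans`, `Iso.mono`, `Hyp b k p r`,
`Hyp.inj` (for an injective linear map `u : W → V` with `finrank W = k`: `Iso b (p.comp u) (r.comp u)`), `Hyp.comp`, `Def p`
(definite), `Def.comp`, `exists_ext` (Hahn-Banach). All norms `‖·‖` are sup norms of `Fin m → ℝ`. The finished blocks of
`MP_3e8c7a_g` (`B_TL1`, `B_TL2`, `B_CPG`, `B_XG`) are older variants of these blocks and may be copied.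
-/

set_option autoImplicit false

namespace Pool.GG

open Module Pool.Agent.MP3e8c7a Pool.Agent.MP3e8c7as Pool.RG

theorem net : Pool.RX.Stmt_NET := Pool.RX.p_NET Pool.RX.p_BAS

theorem bas : Pool.RX.Stmt_BAS := Pool.RX.p_BAS

/-- **ANG** (180; uses nothing). GOOD POSITION IS OPEN: `E` may be replaced by a subspace `Φ` of bounded codimension. Let `s v = ⨅ x : E, p (v + x)` (a seminorm on `V`: `Seminorm.of`; `s ≤ p`, `s (v + x) = s v` for `x ∈ E`, so `s = 0` on `E`; `p w ≤ C₁ * s w` on `Ω`, so `s` is a norm on `Ω`).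
`net M` for `s` on `Ω`: `T`. For `y ∈ T` let `φ_y : V → ℝ` be linear with `φ_y y = s y`, `|φ_y| ≤ s` (`exists_ext` from the span of `y`); `φ_y = 0` on `E` because `s = 0` there. `Φ` = the intersection of the kernels. For `w ∈ Ω`, `s w = 1` (homogeneity), `x ∈ Φ` take `y ∈ T` with
`s (w - y) ≤ 1/4`: `s (w + x) ≥ φ_y (w + x) = φ_y w = φ_y y + φ_y (w - y) ≥ s y - 1/4 ≥ 1/2`. So `p w ≤ C₁ s w ≤ 2 C₁ s (w + x) ≤ 2 C₁ p (w + x)`. -/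
def Stmt_ANG : Prop := ∀ M : ℕ, ∃ ν : ℕ, ∀ (V : Type) [AddCommGroup V] [Module ℝ V] [FiniteDimensional ℝ V]
  (p : Seminorm ℝ V) (C₁ : ℝ), Def p → 1 ≤ C₁ → ∀ E Ω : Submodule ℝ V, finrank ℝ Ω ≤ M →
  (∀ w ∈ Ω, ∀ x ∈ E, p w ≤ C₁ * p (w + x)) →
  ∃ Φ : Submodule ℝ V, E ≤ Φ ∧ finrank ℝ V ≤ finrank ℝ Φ + ν ∧ ∀ w ∈ Ω, ∀ x ∈ Φ, p w ≤ 2 * C₁ * p (w + x)

/-- **TLA** (130; uses nothing). FIRST TILT: afterwards `β` is onto on the section, with a bounded lifting (easier than TL1 of `MP_3e8c7a_g`). `bio` for `m = M'`, the space `Fin k → ℝ` with the norm `p.comp i` (`Def`, `i` is injective), `G = ⊥`, `Z = ker (β ∘ i)` (dimension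
`≥ k - M' ≥ M' (M' + 1)`): `ζ l` (called `ω l` there) and `η j` (called `χ j`): `p (i (ζ l)) ≤ c1 M'`, `β (i (ζ l)) = 0`, `|η j z| ≤ p (i z)`, `η j (ζ l) = δ`. `κ = 1 / (2 A)`, `i₁ z = i z + κ • Y (fun j => η j z)`: the second term is at most `κ A ‖η z‖ ≤ p (i z) / 2`.
`i₁ (ζ l) = i (ζ l) + κ • Y e_l`, so `β (i₁ (ζ l)) = κ • e_l`. `ξ t = κ⁻¹ • ∑ l, t l • ζ l`, `B = 3 A M' c1 M' + 1`. -/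
def Stmt_TLA : Prop := ∀ (M' : ℕ) (A : ℝ), 1 ≤ A → ∃ B : ℝ, 0 < B ∧
  ∀ (V : Type) [AddCommGroup V] [Module ℝ V] [FiniteDimensional ℝ V] (k : ℕ) (p : Seminorm ℝ V)
    (i : (Fin k → ℝ) →ₗ[ℝ] V) (β : V →ₗ[ℝ] (Fin M' → ℝ)) (Y : (Fin M' → ℝ) →ₗ[ℝ] V), Def p → Function.Injective i →
    (∀ t, β (Y t) = t) → (∀ t, p (Y t) ≤ A * ‖t‖) → M' + M' * (M' + 1) ≤ k →
    ∃ (i₁ : (Fin k → ℝ) →ₗ[ℝ] V) (ξ : (Fin M' → ℝ) →ₗ[ℝ] (Fin k → ℝ)),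
      (∀ z, p (i z) ≤ 2 * p (i₁ z) ∧ p (i₁ z) ≤ 3 / 2 * p (i z)) ∧ (∀ t, β (i₁ (ξ t)) = t) ∧ ∀ t, p (i₁ (ξ t)) ≤ B * ‖t‖

/-- **TLB** (260; uses nothing). SECOND TILT: vectors with `r` small and `p` large INSIDE the section. `A₀` = the constant of `grd M`, `c = c1 M'`, `δ = 1 / (4 A² (M c + 1))`. `grd M` for `p.comp i`, `r.comp i` on `Fin k → ℝ`: `ρ₀, W₀, a₀, F₀`.
CASE B: `δ ρ ≤ ρ₀`. `i₂ = i`; the functionals `z ↦ (ρ₀ / A₀) * a₀ z l` are at most `p (i z)` (`pa`), extend them by `exists_ext` (`i` is injective) to functionals `ψ l` on `V`, `|ψ l x| ≤ p x`; `ψ = LinearMap.pi ψ_l`, `U = (A₀ / ρ₀) • W₀`, `r (i (U ω)) ≤ A₀² / ρ₀ ‖ω‖ ≤ A₀² / (δ ρ) ‖ω‖`.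
CASE A: `ρ₀ < δ ρ`. `bio` for `m = M'`, the norm `r.comp i`, `G = range ξ`, `Z = F₀` (dimension `≥ k - M`): `h l ∈ F₀` (`ω l`), `r (i (h l)) ≤ c`, `η j` (`χ j`) `|η j z| ≤ r (i z)`, `η j = 0` on `range ξ`, `η j (h l) = δ`; use only the first `M` of them (`Fin.castLE`). `κ = 1 / (2 A)`,
`i₂ z = i z + κ • W (fun l => η l z)`: the second term has `r ≤ κ A ‖η z‖ ≤ r (i z) / 2`, and it vanishes for `z = ξ t`. `H ω = ∑ l, ω l • h l`: `i₂ (H ω) = i (H ω) + κ • W ω`. `J = a ∘ i₂ ∘ H`: `J ω = a (i (H ω)) + κ • ω`, `‖a (i (H ω))‖ ≤ (A / ρ) p (i (H ω)) ≤ (A / ρ) ρ₀ r (i (H ω)) ≤ A δ M c ‖ω‖ ≤ (κ / 2) ‖ω‖`,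
so `‖J ω‖ ≥ (κ / 2) ‖ω‖`, `J` is bijective, `‖J⁻¹ ω‖ ≤ 4 A ‖ω‖`. `ψ = (ρ / A) • a`, `U = (A / ρ) • (H ∘ J⁻¹)`: `ψ (i₂ (U ω)) = ω`, `r (i₂ (U ω)) ≤ (3/2) (A / ρ) M c 4 A ‖ω‖`. `A₃ = A₀² / δ + 6 A² M c + 1`. -/
def Stmt_TLB : Prop := ∀ (M M' : ℕ) (A : ℝ), M ≤ M' → 1 ≤ A → ∃ A₃ : ℝ, 1 ≤ A₃ ∧
  ∀ (V : Type) [AddCommGroup V] [Module ℝ V] [FiniteDimensional ℝ V] (k : ℕ) (p r : Seminorm ℝ V) (ρ : ℝ)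
    (W : (Fin M → ℝ) →ₗ[ℝ] V) (a : V →ₗ[ℝ] (Fin M → ℝ)) (i : (Fin k → ℝ) →ₗ[ℝ] V)
    (ξ : (Fin M' → ℝ) →ₗ[ℝ] (Fin k → ℝ)), Def p → Def r → 0 < ρ → Pool.RX.Top M A ρ p r W a → Function.Injective i →
    M + M' * (M' + 1) + 1 ≤ k →
    ∃ (i₂ : (Fin k → ℝ) →ₗ[ℝ] V) (ψ : V →ₗ[ℝ] (Fin M → ℝ)) (U : (Fin M → ℝ) →ₗ[ℝ] (Fin k → ℝ)),
      (∀ z, r (i z) ≤ 2 * r (i₂ z) ∧ r (i₂ z) ≤ 3 / 2 * r (i z)) ∧ (∀ t, i₂ (ξ t) = i (ξ t)) ∧ (∀ x, ‖ψ x‖ ≤ p x) ∧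
      (∀ ω, ψ (i₂ (U ω)) = ω) ∧ ∀ ω, ρ * r (i₂ (U ω)) ≤ A₃ * ‖ω‖

/-- **TLC** (260; uses nothing). THIRD AND FOURTH TILT: afterwards `Ω` is complemented in the section. `D = 6 A₃ (M + 1) B L`, `ε = 1 / (2 (M + 1))`, `s₀ = ρ / (2 A₃ τ)`, so `s₀ ε ≥ (3/2) B L`. (0) `kil` with `D = M`, blocks of size `2 M + 1`, `f t = (l ↦ β (Ω e_l) t, l ↦ β (i₂ (U e_l)) t)` in
`(Fin M → ℝ) × (Fin M → ℝ)`: `c : Fin M → Fin (M * (2 * M + 1)) → ℝ`, `Nrm c`; `Γ t l = ∑ u, c l u * t u`, `Γ' t = ∑ l, t l • (sign of c l)`: `‖Γ t‖ ≤ ‖t‖`, `‖Γ' t‖ ≤ ‖t‖` (disjoint supports), `Γ (Γ' t) = t`, `Γ (β (Ω ω)) = 0`, `Γ (β (i₂ (U ω))) = 0`. (1) `i₃ z = i₂ z - ε • Ω (θ z)`,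
`p (ε • Ω (θ z)) ≤ ε M ‖θ z‖ ≤ p (i₂ z) / 2`. POSITION: `p (Ω ω) ≤ 2 C P`, `P = p (Ω ω + i₃ z)`: `Ω ω + i₃ z = Ω (ω - ε • θ z) + i₂ z`, so `p (Ω (ω - ε θ z)) ≤ C P`, `p (i₂ z) ≤ (1 + C) P`, `p (Ω ω) ≤ C P + p (i₂ z) / 2 ≤ (C + (1 + C) / 2) P ≤ 2 C P`. `i₃ (U ω) = i₂ (U ω) - ε • Ω ω`. (2) `u z = Γ (β (i₃ z)) = Γ (β (i₂ z))`,
`‖u z‖ ≤ τ r (i₃ z)`, `u (U ω) = 0`, `ξ' = ξ ∘ Γ'`: `u (ξ' t) = t`, `p (i₃ (ξ' t)) ≤ (3/2) B ‖t‖`. (3) `i₄ z = i₃ z + s₀ • i₂ (U (u z))`: `r (s₀ • i₂ (U (u z))) ≤ s₀ (A₃ / ρ) τ r (i₃ z) = r (i₃ z) / 2`. `i₄ z = i₃ (z + s₀ • U (u z)) + (s₀ ε) • Ω (u z)`, so `s₀ ε p (Ω (u z)) ≤ 2 C p (i₄ z)`.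
(4) `q z = (2 s₀ ε) • u z`, `j ω = (1/2) • ((s₀ ε)⁻¹ • ξ' ω - ε⁻¹ • U ω)`: `q (j ω) = ω`, `p (Ω (q z)) ≤ 4 C p (i₄ z)`, and `i₄ (j ω) = (1/2) • ((s₀ ε)⁻¹ • i₃ (ξ' ω) + Ω ω)`, so `p (i₄ (j ω)) ≤ (1/2) ((s₀ ε)⁻¹ (3/2) B L + 1) p (Ω ω) ≤ p (Ω ω)`. -/
def Stmt_TLC : Prop := ∀ (M : ℕ) (A₃ B L : ℝ), 1 ≤ A₃ → 0 < B → 0 < L → ∃ D : ℝ, 0 < D ∧
  ∀ (V : Type) [AddCommGroup V] [Module ℝ V] [FiniteDimensional ℝ V] (k : ℕ) (p r : Seminorm ℝ V) (C ρ τ : ℝ)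
    (i₂ : (Fin k → ℝ) →ₗ[ℝ] V) (Ω : (Fin M → ℝ) →ₗ[ℝ] V) (β : V →ₗ[ℝ] (Fin (M * (2 * M + 1)) → ℝ))
    (ξ : (Fin (M * (2 * M + 1)) → ℝ) →ₗ[ℝ] (Fin k → ℝ)) (θ : (Fin k → ℝ) →ₗ[ℝ] (Fin M → ℝ))
    (U : (Fin M → ℝ) →ₗ[ℝ] (Fin k → ℝ)), 1 ≤ C → 0 < ρ → 0 < τ → (∀ ω z, p (Ω ω) ≤ C * p (Ω ω + i₂ z)) →
    (∀ ω, p (Ω ω) ≤ ∑ l, |ω l|) → (∀ ω, ‖ω‖ ≤ L * p (Ω ω)) → (∀ x, ‖β x‖ ≤ τ * r x) → (∀ t, β (i₂ (ξ t)) = t) →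
    (∀ t, p (i₂ (ξ t)) ≤ B * ‖t‖) → (∀ z, ‖θ z‖ ≤ p (i₂ z)) → (∀ ω, θ (U ω) = ω) →
    (∀ ω, ρ * r (i₂ (U ω)) ≤ A₃ * ‖ω‖) → D * τ ≤ ρ →
    ∃ i₃ i₄ : (Fin k → ℝ) →ₗ[ℝ] V, (∀ z, p (i₂ z) ≤ 2 * p (i₃ z) ∧ p (i₃ z) ≤ 3 / 2 * p (i₂ z)) ∧
      (∀ z, r (i₃ z) ≤ 2 * r (i₄ z) ∧ r (i₄ z) ≤ 3 / 2 * r (i₃ z)) ∧ FacE (4 * C) (p.comp Ω) (p.comp i₄)

/-- **THEOREM GG** for norms. -/
def Stmt_GG : Prop := ∀ M : ℕ, ∃ (D : ℝ) (K : ℕ), 1 ≤ D ∧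
  ∀ (V : Type) [AddCommGroup V] [Module ℝ V] [FiniteDimensional ℝ V] (k : ℕ) (p r : Seminorm ℝ V) (b C₁ : ℝ),
    1 ≤ b → 1 ≤ C₁ → Def p → Def r → Hyp b k p r → K ≤ k → ∀ (i : (Fin k → ℝ) →ₗ[ℝ] V) (Ω : (Fin M → ℝ) →ₗ[ℝ] V),
    Function.Injective i → Function.Injective Ω → (∀ ω z, p (Ω ω) ≤ C₁ * p (Ω ω + i z)) →
    ¬ FacE (648 * b ^ 4 * C₁) (p.comp Ω) (p.comp i) →
    ∃ (Y : Submodule ℝ V) (Λ : ℝ), finrank ℝ V ≤ finrank ℝ Y + K ∧ 0 < Λ ∧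
      ∀ y ∈ Y, p y ≤ D * (Λ * r y) ∧ Λ * r y ≤ D * p y

/-- **ASG** (280; uses ANG TLA TLB TLC). ASSEMBLY. `M' = M (2 M + 1)`, `A₁` = `grd M`, `A₂` = `grd M'`, `B₁` = TLA (`M', A₂`), `A₃` = TLB (`M, M', A₁`), `D₁` = TLC (`M, A₃, B₁, 2^M`), `ν` = ANG (`M`), `D = max 1 (D₁ A₂)`, `K = ν + M + 2 M' + M' (M' + 1) + 1`. Let `e` be the basis (`bas`) of `Fin M → ℝ` for the norm
`p.comp Ω`; replace `Ω` by `Ω ∘ e.symm` (`FacE C` for it gives `FacE C` for `Ω`: `j ∘ e`, `e.symm ∘ q`), so `p (Ω ω) ≤ ∑ |ω l|`, `‖ω‖ ≤ 2^M p (Ω ω)`. ANG for `range i`, `range Ω`: `Φ`; `i' : (Fin k → ℝ) → Φ` (`LinearMap.codRestrict`), `p' = p.comp Φ.subtype`, `r'`. `grd M` for `(p', r')` on `Φ` (`finrank Φ ≥ k`): `ρ, W, a, F₁`;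
`grd M'` for `(r', p')`: `ρ', Y, β₀, F₂`. If `ρ ρ' ≤ D` take `(F₁ ⊓ F₂).map Φ.subtype` and `Λ = ρ`. Otherwise TLA on `Φ` (`p', i', β₀, Y`; `rW` of the second `Top`): `i₁`, `ξ`. TLB on `Φ` (`i₁`): `i₂`, `ψ`, `U`. `β : V → (Fin M' → ℝ)`: extend the coordinates of `β₀` (`|β₀ x l| ≤ (A₂ / ρ') r x` on `Φ`, `pa`) by `exists_ext`.
TLC on `V` with `C = 2 C₁`, `τ = A₂ / ρ'`, `Φ.subtype ∘ i₂`, `θ = ψ ∘ i₂`: `i₃`, `i₄`, `FacE (8 C₁) (p.comp Ω) (p.comp i₄)`. CHAIN (all these maps are injective, `Def`): `Iso 3 (p i) (p i₁)`, `Iso b (p i₁) (r i₁)`, `Iso 3 (r i₁) (r i₂)`, `Iso b (r i₂) (p i₂)`, `Iso 3 (p i₂) (p i₃)`, `Iso b (p i₃) (r i₃)`, `Iso 3 (r i₃) (r i₄)`, `Iso b (r i₄) (p i₄)`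
(`Iso.of_bounds` with the identity, `Hyp.inj`): `Iso (81 b⁴) (p.comp i) (p.comp i₄)`, `T`. `T⁻¹ ∘ j`, `q ∘ T` give `FacE (648 b⁴ C₁) (p.comp Ω) (p.comp i)`, a contradiction. -/
def Stmt_ASG : Prop := Stmt_GG

end Pool.GG
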