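import Pool.Agent.Work.MP_3e8c7a_gg.Interface
import Pool.Agent.Work.MP_3e8c7a_g.InterfaceD
import Pool.Agent.Work.MP_3e8c7a_k.B_MOM

/-!
# MP_3e8c7a_an, THEOREM GG, part 2: sections near the ball of `ℓ_P`, `P ≠ 2`

`lpS P hP N` is the norm of `ℓ_P^N`, `1 ≤ P`. `Stmt_NLP`: for `P ≠ 2` and every `C` some space `ℓ_P^N` has a subspace which is not `C`-isomorphic to a
`C`-complemented subspace of any `ℓ_P^k`. `P < 2`: the span of Rademacher functions and small multiples of unit vectors, norm `(NX P δ a)^(1/P)`. `P > 2`: random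
subspaces (Kashin) and a trace argument. Then THEOREM GG applies (`Stmt_LPR`).

RULES as in `Interface.lean`: file `B_X.lean`, `import Pool.Agent.Work.MP_3e8c7a_gg.InterfaceP`, namespace `Pool.GG`,
`open Module Pool.Agent.MP3e8c7a Pool.Agent.MP3e8c7as Pool.RG`, `open Pool.RX (rad)`, `theorem p_X (h1 : Stmt_Y) .. : Stmt_X` with exactly the blocks after `uses`;
auxiliary lemmas with the prefix `X_`; no straight double quotes. `rad g x = ∑ l, sgn (g l) * x l` (`Pool.RX.rad`, `Pool.RX.sgn`), `g : Fin m → Bool`;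
`Pool/Agent/Work/MP_3e8c7a_k/B_MOM.lean` (`MOM`, `MOM_key`: second and fourth moments of `dt g x = rad g x`) may be used, and `MP_3e8c7a_r/B_KHI.lean` imported.
All powers `x ^ P`, `P : ℝ`, are `Real.rpow`.
-/

set_option autoImplicit false

namespace Pool.GG

open Module Pool.Agent.MP3e8c7a Pool.Agent.MP3e8c7as Pool.RG
open Pool.RX (rad)

/-- The norm of `ℓ_P^N`. -/
noncomputable def lpS (P : ℝ) (hP : 1 ≤ P) (N : ℕ) : Seminorm ℝ (Fin N → ℝ) :=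
  Seminorm.of (fun x => (∑ i, |x i| ^ P) ^ (1 / P)) (fun x y => Real.Lp_add_le Finset.univ x y hP)
    (fun a x => by
      have h0 : 0 < P := by linarith
      have h1 : ∑ i, |(a • x) i| ^ P = |a| ^ P * ∑ i, |x i| ^ P := by
        rw [Finset.mul_sum]
        refine Finset.sum_congr rfl fun i _ => ?_
        rw [Pi.smul_apply, smul_eq_mul, abs_mul, Real.mul_rpow (abs_nonneg _) (abs_nonneg _)]
      rw [h1, Real.mul_rpow (Real.rpow_nonneg (abs_nonneg _) _)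
        (Finset.sum_nonneg fun i _ => Real.rpow_nonneg (abs_nonneg _) _), ← Real.rpow_mul (abs_nonneg _),
        mul_one_div_cancel h0.ne', Real.rpow_one, Real.norm_eq_abs])

theorem lpS_apply (P : ℝ) (hP : 1 ≤ P) (N : ℕ) (x : Fin N → ℝ) : lpS P hP N x = (∑ i, |x i| ^ P) ^ (1 / P) := rfl

/-- The `P`-th power of the norm of the space spanned by Rademacher functions and `δ` times the unit vectors. -/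
noncomputable def NX (P δ : ℝ) {m : ℕ} (a : Fin m → ℝ) : ℝ :=
  (∑ g : Fin m → Bool, |rad g a| ^ P) / 2 ^ m + δ ^ P * ∑ l, |a l| ^ P

/-! ## Tools -/

/-- **KHU** (160; uses nothing). KHINCHINE, upper estimate. Let `∑ a l ^ 2 = 1` (homogeneity; `a = 0` is trivial), `s : ℕ`, `q ≤ 2 s`. `|y| ^ q ≤ 1 + y ^ (2 s)`, `y ^ (2 s) ≤ (2 s)! * cosh y` (power series, `Real.hasSum_cosh`, or `Real.exp`: `|y| ^ n / n! ≤ exp |y| ≤ 2 cosh y`), and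
`∑ g, cosh (rad g a) = 2 ^ m ∏ l, cosh (a l) ≤ 2 ^ m ∏ exp (a l ^ 2 / 2) = 2 ^ m exp (1/2)` (induction on `m` with `MOM_key`-like splitting, `∑ g, exp (rad g a) = ∏ l, (exp (a l) + exp (- a l))`; `Real.cosh_le_exp_half_sq`). `K = 1 + 4 * (2 s)!`. -/
def Stmt_KHU : Prop := ∀ q : ℝ, 2 ≤ q → ∃ K : ℝ, 1 ≤ K ∧ ∀ (m : ℕ) (a : Fin m → ℝ),
  ∑ g : Fin m → Bool, |rad g a| ^ q ≤ 2 ^ m * (K * (∑ l, a l ^ 2) ^ (q / 2))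

/-- **JEN** (130; uses nothing). JENSEN. `∑ g, (rad g a) ^ 2 = 2 ^ m ∑ a l ^ 2` (`MOM`). (1), (2): the power mean inequality (`Real.rpow_arith_mean_le_arith_mean_rpow` with exponent `q / 2`, or `2 / q`). (3) Change the sign `g l`: `|u| ^ q + |v| ^ q ≥ 2 |(u - v) / 2| ^ q`, `u - v = ± 2 a l`; sum over all `g` (bijection `g ↦ Function.update g l (!g l)`). -/
def Stmt_JEN : Prop := ∀ (q : ℝ) (m : ℕ) (a : Fin m → ℝ),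
  (2 ≤ q → 2 ^ m * (∑ l, a l ^ 2) ^ (q / 2) ≤ ∑ g : Fin m → Bool, |rad g a| ^ q) ∧
  (0 < q → q ≤ 2 → ∑ g : Fin m → Bool, |rad g a| ^ q ≤ 2 ^ m * (∑ l, a l ^ 2) ^ (q / 2)) ∧
  (1 ≤ q → ∀ l, 2 ^ m * |a l| ^ q ≤ ∑ g : Fin m → Bool, |rad g a| ^ q)

/-- **HLD** (110; uses nothing). HÖLDER. (2): `Real.inner_le_Lp_mul_Lq`. (1): take `x i = sign (v i) * |v i| ^ (Q - 1)`: `∑ x i v i = S`, `S = ∑ |v i| ^ Q`, `|x i| ^ P = |v i| ^ Q`, so `S ≤ κ S ^ (1/P)`, `S ^ (1/Q) ≤ κ` (`S = 0` is trivial). -/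
def Stmt_HLD : Prop := ∀ P Q : ℝ, 1 < P → Q = P / (P - 1) → ∀ (k : ℕ) (v : Fin k → ℝ),
  (∀ κ : ℝ, 0 ≤ κ → (∀ x : Fin k → ℝ, |∑ i, x i * v i| ≤ κ * (∑ i, |x i| ^ P) ^ (1 / P)) → ∑ i, |v i| ^ Q ≤ κ ^ Q) ∧
  ∀ x : Fin k → ℝ, |∑ i, x i * v i| ≤ (∑ i, |x i| ^ P) ^ (1 / P) * (∑ i, |v i| ^ Q) ^ (1 / Q)

/-- **ROS** (220; uses nothing). ROSENTHAL, nonnegative case. `E` = the mean over `f : Fin t → Fin m`, `S f = ∑ s, X (f s)`, `Z = E S ^ r`. `S ^ r = ∑ s, X (f s) (X (f s) + S_s f) ^ (r - 1)`, `S_s f = ∑ u ≠ s, X (f u)`, `(x + y) ^ (r - 1) ≤ 2 ^ r (x ^ (r - 1) + y ^ (r - 1))`. `E X (f s) S_s ^ (r - 1) = (mean of X) * E S_s ^ (r - 1)` (the map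
`(f, c) ↦ (Function.update f s c, f s)` is a bijection of `(Fin t → Fin m) × Fin m` and does not change `S_s`), `S_s ≤ S`, `E S ^ (r - 1) ≤ Z ^ ((r - 1) / r)` (power mean). So `Z ≤ Y + x Z ^ ((r - 1) / r)` with `Y = 2 ^ r (t / m) ∑ X ^ r`, `x = 2 ^ r (t / m) ∑ X`: either `Z ≤ 2 Y` or `Z ^ (1 / r) ≤ 2 x`.
`K = 2 ^ (r + 1) + (2 ^ (r + 1)) ^ r`. (`r = 1` is trivial.) -/
def Stmt_ROS : Prop := ∀ r : ℝ, 1 ≤ r → ∃ K : ℝ, 1 ≤ K ∧ ∀ (m t : ℕ) (X : Fin m → ℝ), 1 ≤ m → (∀ l, 0 ≤ X l) →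
  ∑ f : Fin t → Fin m, (∑ s, X (f s)) ^ r ≤
    (m : ℝ) ^ t * (K * ((t : ℝ) / m * ∑ l, X l ^ r + ((t : ℝ) / m * ∑ l, X l) ^ r))

/-! ## The case `P < 2` -/

/-- **SUP** (180; uses JEN HLD). UPPER ESTIMATES. First: `|(q x) l| ^ P ≤ NX (q x) ≤ C ^ P ∑ |x i| ^ P` (JEN (3)); `(q x) l = ∑ i, x i * q (e_i) l`; HLD (1) with `κ = C`. Second: for signs `g`: `|rad g (q x)| ≤ ∑ |(q x) l| ≤ m ^ (1/Q) (∑ |(q x) l| ^ P) ^ (1/P) ≤ m ^ (1/Q) δ⁻¹ C (∑ |x i| ^ P) ^ (1/P)` (Hölder, second term of `NX`),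
`rad g (q x) = ∑ i, x i * rad g (q e_i)`, HLD (1): `∑ i, |rad g (q e_i)| ^ Q ≤ m δ ^ (-Q) C ^ Q`. Mean over `g` and JEN (1) (`Q ≥ 2`) for every `i`. -/
def Stmt_SUP : Prop := ∀ (P Q δ C : ℝ) (m k : ℕ) (q : (Fin k → ℝ) →ₗ[ℝ] (Fin m → ℝ)), 1 < P → P < 2 → Q = P / (P - 1) →
  0 < δ → 1 ≤ C → (∀ x, NX P δ (q x) ≤ C ^ P * ∑ i, |x i| ^ P) →
  (∀ l, ∑ i, |q (Pi.single i 1) l| ^ Q ≤ C ^ Q) ∧
  ∑ i, (∑ l, q (Pi.single i 1) l ^ 2) ^ (Q / 2) ≤ C ^ Q * (m * δ ^ (-Q))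

/-- **SLO** (220; uses KHU JEN HLD). LOWER ESTIMATE. `g : Fin t → Bool`, `y = ∑ s, sgn (g s) • e_(f s)` in `ℝ^m` (`f` injective: `|y l| ∈ {0, 1}`, `∑ y l ^ 2 = ∑ |y l| ^ P = t`). `t = ∑ l, y l * (q (j y)) l = ∑ i, (j y) i * v i`, `v i = ∑ l, y l * q (e_i) l = rad g (fun s => q (e_i) (f s))`. HLD (2): `t ≤ (NX y) ^ (1/P) (∑ |v i| ^ Q) ^ (1/Q)`,
`NX y ≤ t ^ (P/2) + δ ^ P t ≤ 2 t ^ (P/2)` (JEN (2)). So `t ^ (Q/2) ≤ 2 ^ (Q/P) ∑ i, |v i| ^ Q`; mean over `g`, KHU for `q = Q`. `K = 2 ^ (Q/P) K₀`. -/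
def Stmt_SLO : Prop := ∀ P Q : ℝ, 1 < P → P < 2 → Q = P / (P - 1) → ∃ K : ℝ, 1 ≤ K ∧ ∀ (δ : ℝ) (m k t : ℕ)
  (j : (Fin m → ℝ) →ₗ[ℝ] (Fin k → ℝ)) (q : (Fin k → ℝ) →ₗ[ℝ] (Fin m → ℝ)), 0 < δ → 1 ≤ t →
  δ ^ P * t ≤ (t : ℝ) ^ (P / 2) → (∀ a, q (j a) = a) → (∀ a, ∑ i, |j a i| ^ P ≤ NX P δ a) →
  ∀ f : Fin t → Fin m, Function.Injective f →
  (t : ℝ) ^ (Q / 2) ≤ K * ∑ i, (∑ s, q (Pi.single i 1) (f s) ^ 2) ^ (Q / 2)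

/-- **NLS** (250; uses ROS SUP SLO). `Q = P / (P - 1)`, `r = Q / 2 > 1`, `t` a large natural number, `m = 4 t²`, `δ = t ^ (1/2 - 1/P)`, so `δ ^ P t = t ^ (P/2)`, `δ ^ (-Q) = t ^ (r - 1)`. `G l i = q (e_i) l ^ 2`. At least half of the `m ^ t` maps `f` are injective (at most `t² / 2 * m ^ (t - 1)` are not: union over the pairs `s < s'`; or
`Fintype.card_embedding_eq`, `Nat.descFactorial`). SLO summed over the injective `f`: `m ^ t / 2 * t ^ r ≤ K₁ ∑ f, ∑ i, (∑ s, G (f s) i) ^ r`. ROS for every `i`, SUP (`G l i ^ r = |q (e_i) l| ^ Q`): the right side is at most `K₁ m ^ t K₂ ((t / m) m C ^ Q + (t / m) ^ r C ^ Q m t ^ (r - 1)) ≤ K₁ m ^ t K₂ C ^ Q (t + 4 ^ (1 - r) t)`.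
So `t ^ (r - 1) ≤ 4 K₁ K₂ C ^ Q`, false for large `t`. -/
def Stmt_NLS : Prop := ∀ P C : ℝ, 1 < P → P < 2 → 1 ≤ C → ∃ (m : ℕ) (δ : ℝ), 0 < δ ∧ ∀ (k : ℕ)
  (j : (Fin m → ℝ) →ₗ[ℝ] (Fin k → ℝ)) (q : (Fin k → ℝ) →ₗ[ℝ] (Fin m → ℝ)), (∀ a, q (j a) = a) →
  (∀ a, ∑ i, |j a i| ^ P ≤ NX P δ a) → ¬ ∀ x, NX P δ (q x) ≤ C ^ P * ∑ i, |x i| ^ P

/-! ## The case `P > 2` -/

/-- **EXM** (170; uses nothing). EXPONENTIAL MOMENTS. First: `exp (-s) ≤ 1 - (2/3) s² + (1/6) s⁴` for `s ≥ 0`: for `s ≤ 1` because `exp (-s) ≤ 1 - s + s² / 2` and `s³ - 7 s + 6 = (s - 1) (s - 2) (s + 3) ≥ 0`; for `1 ≤ s ≤ 1.1`: `exp (-s) ≤ exp (-1) ≤ 0.368`, the right side is `≥ 0.43`; for `s ≥ 1.1`: `exp (-s) ≤ exp (-1.1) ≤ 1/3 ≤` the right side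
(its minimum is `1 - (4/9) / (4/6) = 1/3`). With the moments (`MOM`: `∑ (rad g x)² = 2 ^ m`, `∑ (rad g x)⁴ ≤ 3 * 2 ^ m`): `(1 - 2/3 + 3/6) 2 ^ m`. Second: `exp |s| ≤ exp s + exp (-s)`, `∑ g, exp (rad g x) = ∏ l, (exp (x l) + exp (- x l)) ≤ 2 ^ m exp (1/2)`, `2 exp (1/2) ≤ 4`. -/
def Stmt_EXM : Prop := ∀ (m : ℕ) (x : Fin m → ℝ), ∑ l, x l ^ 2 = 1 →
  ∑ g : Fin m → Bool, Real.exp (-|rad g x|) ≤ 5 / 6 * 2 ^ m ∧ ∑ g : Fin m → Bool, Real.exp |rad g x| ≤ 4 * 2 ^ m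

/-- **BAD** (170; uses EXM). COUNTING BAD MATRICES. `x = 0`: `T` is empty. Otherwise normalise `∑ x l ^ 2 = 1`. Matrices with `∑ s, |rad (a s) x| < N / 10`: their number times `exp (-N / 10)` is at most `∑ a, exp (-∑ s, |rad (a s) x|) = (∑ g, exp (-|rad g x|)) ^ N ≤ (5/6 * 2 ^ m) ^ N` (`Finset.prod_univ_sum` / `Fintype.piFinset`), `exp (1/10) 5/6 ≤ 93/100`.
Matrices with `∑ s, |rad (a s) x| > 2 N`: their number times `exp (2 N)` is at most `(4 * 2 ^ m) ^ N`, `4 exp (-2) ≤ 93/100`. -/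
def Stmt_BAD : Prop := ∀ (m N : ℕ) (x : Fin m → ℝ) (T : Finset (Fin N → Fin m → Bool)),
  (∀ a ∈ T, ¬ ((N : ℝ) / 10 * Real.sqrt (∑ l, x l ^ 2) ≤ ∑ s, |rad (a s) x| ∧
    ∑ s, |rad (a s) x| ≤ 2 * N * Real.sqrt (∑ l, x l ^ 2))) → (T.card : ℝ) ≤ 2 * (93 / 100) ^ N * (2 ^ m) ^ N

/-- **LAT** (110; uses nothing). Induction on `m`: `T (m + 1) L` = the union over `v ∈ [-L, L]` of the images of `T m (L - |v|)` under `Fin.cons v`; `∑ v, 2 ^ (L - |v| + 2 m) ≤ 3 * 2 ^ (L + 2 m)`. -/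
def Stmt_LAT : Prop := ∀ m L : ℕ, ∃ T : Finset (Fin m → ℤ), (∀ z : Fin m → ℤ, ∑ i, |z i| ≤ L → z ∈ T) ∧ T.card ≤ 2 ^ (L + 2 * m)

/-- **MAT** (260; uses BAD LAT). KASHIN. `lam` with `2 ^ 6563 * (93/100) ^ lam ≤ 1/4`, `N = lam m`, `T` = LAT for `L = 6561 m`. BAD for `x = z`, `z ∈ T`: `|T| * 2 (93/100) ^ N (2 ^ m) ^ N ≤ 2 (2 ^ 6563 (93/100) ^ lam) ^ m (2 ^ m) ^ N < (2 ^ m) ^ N`, so some `a` is good for all `z ∈ T` (by homogeneity for all multiples). Let `|x|_2 = 1` and `z i` = `81 √m x i` rounded towards `0`: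
`|z i| ≤ 81 √m |x i|`, `|81 √m x i - z i| ≤ 1`, `∑ |z i| ≤ ∑ z i ² ≤ 6561 m`. `y = z / (81 √m)`: `|x - y|_2 ≤ 1/81`, `80/81 ≤ |y|_2 ≤ 1`. Let `Λ` be the least constant with `∑ s, |rad (a s) x| ≤ Λ N |x|_2` for all `x` (supremum; bounded by Cauchy-Schwarz). `Λ ≤ 2 + Λ / 81`, so `Λ ≤ 2.025`, and
`∑ s, |rad (a s) x| ≥ N / 10 * 80/81 - Λ N / 81 ≥ N / 20`. -/
def Stmt_MAT : Prop := ∃ lam : ℕ, 1 ≤ lam ∧ ∀ m : ℕ, 1 ≤ m → ∃ a : Fin (lam * m) → Fin m → Bool, ∀ x : Fin m → ℝ,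
  ((lam * m : ℕ) : ℝ) / 20 * Real.sqrt (∑ l, x l ^ 2) ≤ ∑ s, |rad (a s) x|

/-- **NLB** (260; uses KHU JEN HLD MAT). THE TRACE. `Q = P / (P - 1)`, `N = lam m`, `a` of MAT. `f i : Fin m → ℝ`, `f i l = j (e_l) i`, `j x i = ∑ l, f i l x l`; `m = ∑ l, (q (j e_l)) l = ∑ i, ∑ l, f i l * q (e_i) l ≤ ∑ i, |f i|_2 |q e_i|_2 ≤ (∑ |f i|_2 ^ P) ^ (1/P) (∑ |q e_i|_2 ^ Q) ^ (1/Q)`.
(1) `∑ i, |f i|_2 ^ P ≤ 2^(-m) ∑ g, ∑ i, |rad g (f i)| ^ P` (JEN (1)) `= 2^(-m) ∑ g, ∑ i, |j (signs g) i| ^ P ≤ 2^(-m) ∑ g, ∑ s, |rad (a s) (signs g)| ^ P ≤ N K m ^ (P/2)` (`rad (a s) (signs g) = rad g (signs (a s))`, KHU). (2) For every `s` the vector `v i = rad (a s) (q e_i)` satisfies `|∑ x i v i| = |rad (a s) (q x)| ≤ C (∑ |x i| ^ P) ^ (1/P)`, so `∑ i, |v i| ^ Q ≤ C ^ Q` (HLD (1)).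
`|q e_i|_2 ^ Q ≤ (20 / N ∑ s, |rad (a s) (q e_i)|) ^ Q ≤ 20 ^ Q / N ∑ s, |rad (a s) (q e_i)| ^ Q` (power mean), so `∑ i, |q e_i|_2 ^ Q ≤ 20 ^ Q C ^ Q`. Together `m ≤ (lam m K m ^ (P/2)) ^ (1/P) 20 C`, `m ^ (1/2 - 1/P) ≤ 20 C (lam K) ^ (1/P)`: false for large `m`. Injectivity from MAT. -/
def Stmt_NLB : Prop := ∀ P C : ℝ, 2 < P → 1 ≤ C → ∃ (m N : ℕ) (a : Fin N → Fin m → Bool),
  (∀ x : Fin m → ℝ, (∀ s, rad (a s) x = 0) → x = 0) ∧ ∀ (k : ℕ) (j : (Fin m → ℝ) →ₗ[ℝ] (Fin k → ℝ))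
  (q : (Fin k → ℝ) →ₗ[ℝ] (Fin m → ℝ)), (∀ x, q (j x) = x) →
  (∀ x, ∑ i, |j x i| ^ P ≤ ∑ s, |rad (a s) x| ^ P) → ¬ ∀ x, ∑ s, |rad (a s) (q x)| ^ P ≤ C ^ P * ∑ i, |x i| ^ P

/-! ## Assembly -/

/-- **NLP** (220; uses NLS NLB and `Pool.RX.Stmt_NORO`). We may take `C ≥ 1`. `P = 1`: NORO for the norm `oneS` gives a subspace `S`; `O` = `S.subtype` composed with a basis of `S`; `lpS 1 = oneS = XN false`. `1 < P < 2`: `m`, `δ` of NLS, `N = 2 ^ m + m` (or the cardinality of `(Fin m → Bool) ⊕ Fin m` with an equivalence), `O a` has the coordinates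
`(1/2) ^ (m / P) * rad g a` (so that the `P`-th power is `|rad g a| ^ P / 2 ^ m`) and `δ * a l`: `lpS (O a) = (NX P δ a) ^ (1/P)`. `P > 2`: `O x s = rad (a s) x`. Inequalities of `P`-th roots are inequalities of the sums (`Real.rpow_le_rpow_left_iff`, `Real.mul_rpow`). -/
def Stmt_NLP : Prop := ∀ (P : ℝ) (hP : 1 ≤ P), P ≠ 2 → ∀ C : ℝ, ∃ (M N : ℕ) (O : (Fin M → ℝ) →ₗ[ℝ] (Fin N → ℝ)),
  Function.Injective O ∧ ∀ k : ℕ, ¬ FacE C ((lpS P hP N).comp O) (lpS P hP k)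

/-- **LPR** (200; uses GG NLP). ONE SECTION NEAR THE BALL OF `ℓ_P`. NLP with the constant `648 b⁴ C * C²`: `M, N, O`; GG for `M`: `D, K₁`; `K = K₁ + N`. `i₁ = i ∘` (extension by `0` of the first `k` coordinates, `Fin.castLE`), `Ω = i ∘` (`O` in the coordinates `k, .., k + N - 1`, `0` elsewhere). Disjoint supports: `lpS (O ω part) ≤ lpS (sum)`, so
`p (Ω ω) ≤ lpS .. ≤ C p (Ω ω + i₁ z)`. `FacE (648 b⁴ C) (p.comp Ω) (p.comp i₁)` would give `FacE (648 b⁴ C * C²) ((lpS N).comp O) (lpS k)` with `C⁻¹ • j`, `C • q`. -/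
def Stmt_LPR : Prop := ∀ (P : ℝ) (hP : 1 ≤ P), P ≠ 2 → ∀ b C : ℝ, 1 ≤ b → 1 ≤ C → ∃ (D : ℝ) (K : ℕ), 1 ≤ D ∧
  ∀ (V : Type) [AddCommGroup V] [Module ℝ V] [FiniteDimensional ℝ V] (k m : ℕ) (p r : Seminorm ℝ V), Def p → Def r →
    Hyp b k p r → K ≤ k → k + K ≤ m → ∀ i : (Fin m → ℝ) →ₗ[ℝ] V,
    (∀ x, p (i x) ≤ lpS P hP m x ∧ lpS P hP m x ≤ C * p (i x)) →
    ∃ (Y : Submodule ℝ V) (Λ : ℝ), finrank ℝ V ≤ finrank ℝ Y + K ∧ 0 < Λ ∧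
      ∀ y ∈ Y, p y ≤ D * (Λ * r y) ∧ Λ * r y ≤ D * p y

/-- **EUR** (120; uses GG and `Pool.RG.Stmt_DVO`). NO COMPLEMENTED EUCLIDEAN SUBSPACES. `N` of DVO for `m`, `D`, `K₁` of GG for `M = m`, `K = K₁ + N`. DVO for the norm `p` on `Z`: `T : (Fin m → ℝ) → Z`, `e2 x ≤ p (T x) ≤ 70 e2 x`; `Ω = Z.subtype ∘ T` (injective). `FacE (648 b⁴ C₁) (p.comp Ω) (p.comp i)` with `j`, `q` gives `Euc (45360 b⁴ C₁)` with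
`(1/70) • j`, `70 • q` (`45360 = 70 * 648`). -/
def Stmt_EUR : Prop := ∀ m : ℕ, ∃ (D : ℝ) (K : ℕ), 1 ≤ D ∧
  ∀ (V : Type) [AddCommGroup V] [Module ℝ V] [FiniteDimensional ℝ V] (k : ℕ) (p r : Seminorm ℝ V) (b C₁ : ℝ),
    1 ≤ b → 1 ≤ C₁ → Def p → Def r → Hyp b k p r → K ≤ k → ∀ (i : (Fin k → ℝ) →ₗ[ℝ] V) (Z : Submodule ℝ V),
    Function.Injective i → K ≤ finrank ℝ Z → (∀ w ∈ Z, ∀ z, p w ≤ C₁ * p (w + i z)) →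
    ¬ Euc (45360 * b ^ 4 * C₁) m (p.comp i) →
    ∃ (Y : Submodule ℝ V) (Λ : ℝ), finrank ℝ V ≤ finrank ℝ Y + K ∧ 0 < Λ ∧
      ∀ y ∈ Y, p y ≤ D * (Λ * r y) ∧ Λ * r y ≤ D * p y

/-- **CUB** (180; uses GG and `Pool.RX.Stmt_NORI`). ONE SECTION OF DIMENSION `k` NEAR A CUBE. `exists_proj` (`MP_3e8c7a/Step.lean` or `Hyper.lean`: copies of `ℓ_∞` are complemented): `φ : V → (Fin k → ℝ)`, `φ (i z) = z`, `p (i (φ x)) ≤ C p x` (or coordinatewise by `exists_ext`). `C₁ = 1 + C`: for `w ∈ ker φ`: `w = (w + i z) - i (φ (w + i z))`,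
`p w ≤ C₁ p (w + i z)`. `M₀` of NORI for the constant `648 b⁴ C₁ * C`; `D`, `K` = maxima (sums) of the constants of GG for `M ≤ M₀`, `K ≥ M₀`. `finrank (ker φ) ≥ M₀`: an injective `Ω₀ : (Fin M₀ → ℝ) → ker φ`, the norm `s = p ∘ Ω₀`, NORI: `S`; `Ω = Ω₀ ∘` (basis of `S`), `M = finrank S ≤ M₀`. `FacE (648 b⁴ C₁) (p.comp Ω) (p.comp i)` would give `Fac true (648 b⁴ C₁ * C)`
for `s.comp S.subtype`: `C⁻¹ • j`, `C • q`. -/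
def Stmt_CUB : Prop := ∀ b C : ℝ, 1 ≤ b → 1 ≤ C → ∃ (D : ℝ) (K : ℕ), 1 ≤ D ∧
  ∀ (V : Type) [AddCommGroup V] [Module ℝ V] [FiniteDimensional ℝ V] (k : ℕ) (p r : Seminorm ℝ V), Def p → Def r →
    Hyp b k p r → K ≤ k → k + K ≤ finrank ℝ V → ∀ i : (Fin k → ℝ) →ₗ[ℝ] V, (∀ z, p (i z) ≤ ‖z‖ ∧ ‖z‖ ≤ C * p (i z)) →
    ∃ (Y : Submodule ℝ V) (Λ : ℝ), finrank ℝ V ≤ finrank ℝ Y + K ∧ 0 < Λ ∧
      ∀ y ∈ Y, p y ≤ D * (Λ * r y) ∧ Λ * r y ≤ D * p y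

end Pool.GG
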